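import Pool.Agent.LibDP24.H1
import Pool.Agent.LibBH2.ApproxPar

/-!
Uniform approximate parallelogram law and canonical height for `y² = x³ + A x + B`.
-/

set_option autoImplicit false

open WeierstrassCurve Height

namespace Pool.Agent.LibDP24

theorem isElliptic {A B : ℤ} (hD : 4 * A ^ 3 + 27 * B ^ 2 ≠ 0) : (E A B).IsElliptic := by
  constructor
  rw [isUnit_iff_ne_zero]
  have h : (E A B).Δ = ((-16 * (4 * A ^ 3 + 27 * B ^ 2) : ℤ) : ℚ) := by
    simp only [WeierstrassCurve.Δ, WeierstrassCurve.b₂, WeierstrassCurve.b₄, WeierstrassCurve.b₆,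
      WeierstrassCurve.b₈]
    push_cast
    ring
  rw [h]
  exact_mod_cast mul_ne_zero (by norm_num) hD

private theorem H2_sym2 : ∃ C : ℝ, ∀ {A B : ℤ} (R S : Pt A B),
    |logHeight (R.sym2x S) - (nh R + nh S)| ≤ C := by
  obtain ⟨C, hC⟩ := abs_logHeight_sym2_sub_le ℚ
  refine ⟨C, fun {A B} R S => ?_⟩
  have e : ∀ T : Pt A B, T.xRep = ![T.xRep 0, T.xRep 1] := by
    intro T
    funext i
    fin_cases i <;> rfl
  have hR : ![R.xRep 0, R.xRep 1] ≠ 0 := by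
    rw [← e R]
    exact Affine.Point.xRep_ne_zero R
  have hS : ![S.xRep 0, S.xRep 1] ≠ 0 := by
    rw [← e S]
    exact Affine.Point.xRep_ne_zero S
  have := hC hR hS
  rw [← e R, ← e S] at this
  exact this

theorem approxPar' : ∃ C : ℝ, 0 ≤ C ∧ ∀ A B : ℤ, 4 * A ^ 3 + 27 * B ^ 2 ≠ 0 →
    ∀ R S : Pt A B, |nh (R + S) + nh (R - S) - 2 * nh R - 2 * nh S| ≤ C * ell A B := by
  obtain ⟨C₁, hC₁0, hC₁⟩ := addSub_height
  obtain ⟨C₂, hC₂⟩ := H2_sym2
  have hC₂0 : 0 ≤ C₂ := (abs_nonneg _).trans (hC₂ (0 : Pt 0 1) 0)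
  refine ⟨C₁ + 6 * C₂, by positivity, ?_⟩
  intro A B hD R S
  have := isElliptic hD
  obtain ⟨c, hc, he⟩ := LibBH2.addSub (E A B) R S
  have h1 := hC₁ A B hD (R.sym2x S) (Affine.Point.sym2x_ne_zero _ _)
  have h1' : logHeight (fun i => (addSubMap (E A B) i).eval (R.sym2x S)) =
      logHeight ((R + S).sym2x (R - S)) := by
    have : (fun i => (addSubMap (E A B) i).eval (R.sym2x S)) = c • (R + S).sym2x (R - S) := he
    rw [this]
    exact logHeight_smul_eq_logHeight _ hc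
  rw [h1'] at h1
  have h2 := hC₂ R S
  have h3 := hC₂ (R + S) (R - S)
  have hl := ell_ge A B
  have h4 : 3 * C₂ ≤ 6 * C₂ * ell A B := by nlinarith
  rw [abs_le] at *
  constructor <;> nlinarith

theorem exists_can : ∃ C : ℝ, 1 ≤ C ∧ ∀ A B : ℤ, 4 * A ^ 3 + 27 * B ^ 2 ≠ 0 →
    ∃ hh : Pt A B → ℝ, IsCan C hh := by
  obtain ⟨C, hC0, hC⟩ := approxPar'
  refine ⟨C + 1, by linarith, fun A B hD => ?_⟩
  have hl := ell_ge A B
  have h0 : nh (0 : Pt A B) = 0 := by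
    have e : (0 : Pt A B).xRep = ![1, 0] := rfl
    unfold nh
    rw [e, ← logHeight₁_div_eq_logHeight]
    simp
  obtain ⟨hh, h1, h2, h3⟩ := LibBH2.tate (C * ell A B) (by positivity) (⊤ : AddSubgroup (Pt A B))
    nh h0 (fun R _ S _ => hC A B hD R S) (fun R => logHeight_nonneg _)
  refine ⟨hh, ⟨fun R => ?_, fun R S => h2 R trivial S trivial, fun R => h3 R trivial⟩⟩
  refine (h1 R trivial).trans ?_
  nlinarith

end Pool.Agent.LibDP24
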