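import Pool.Agent.LibDP24.Defs

/-!
ROW H3 (SHORT/MEDIUM). Consequences of the exact parallelogram law (pure algebra in an abelian group).

PLAN. `hh 0 = 0` (R = S = 0), `hh (-R) = hh R` (R := 0), `hh (n • R) = n ^ 2 * hh R` for `n : ℕ` by two-step induction
(`R := n • R, S := R`), then for `n : ℤ`. Triangle inequality for `√hh`: the function `b R S = (hh (R+S) - hh R - hh S)/2`
is bilinear (standard: from `par`, `b (R+R') S = b R S + b R' S`: Jordan-von Neumann; only parallelogram identities), so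
`hh (m • R + n • S) = m² hh R + 2 m n b R S + n² hh S ≥ 0` for all integers `m, n`, hence `(b R S)² ≤ hh R * hh S`, hence
`hh (R + S) ≤ (√hh R + √hh S)²`. The sum over a Finset by induction.
-/

set_option autoImplicit false

namespace Pool.Agent.LibDP24

section
variable {G : Type*} [AddCommGroup G] {hh : G → ℝ}

private theorem H3_zero (par : ∀ R S, hh (R + S) + hh (R - S) = 2 * hh R + 2 * hh S) : hh 0 = 0 := by
  have h := par 0 0
  rw [add_zero, sub_zero] at h
  linarith

private theorem H3_neg (par : ∀ R S, hh (R + S) + hh (R - S) = 2 * hh R + 2 * hh S) (R : G) :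
    hh (-R) = hh R := by
  have h := par 0 R
  rw [zero_add, zero_sub, H3_zero par] at h
  linarith

private theorem H3_nsmul (par : ∀ R S, hh (R + S) + hh (R - S) = 2 * hh R + 2 * hh S) (R : G) (n : ℕ) :
    hh (n • R) = (n : ℝ) ^ 2 * hh R ∧ hh ((n + 1) • R) = ((n : ℝ) + 1) ^ 2 * hh R := by
  induction n with
  | zero => simp [H3_zero par]
  | succ n ih =>
    refine ⟨by push_cast; exact ih.2, ?_⟩
    have h := par ((n + 1) • R) R
    have h1 : (n + 1) • R + R = (n + 1 + 1) • R := (succ_nsmul R (n + 1)).symm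
    have h2 : (n + 1) • R - R = n • R := by rw [succ_nsmul]; abel
    rw [h1, h2, ih.1, ih.2] at h
    push_cast
    linarith

theorem hh_zsmul (par : ∀ R S, hh (R + S) + hh (R - S) = 2 * hh R + 2 * hh S) (n : ℤ) (R : G) :
    hh (n • R) = (n : ℝ) ^ 2 * hh R := by
  obtain ⟨m, rfl | rfl⟩ := n.eq_nat_or_neg
  · rw [natCast_zsmul, (H3_nsmul par R m).1]
    push_cast
    ring
  · rw [neg_smul, H3_neg par, natCast_zsmul, (H3_nsmul par R m).1]
    push_cast
    ring

private theorem H3_add (par : ∀ R S, hh (R + S) + hh (R - S) = 2 * hh R + 2 * hh S) (R R' S : G) :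
    hh (R + R' + S) - hh (R + R' - S) = (hh (R + S) - hh (R - S)) + (hh (R' + S) - hh (R' - S)) := by
  have h1 := par (R + S) R'
  have h2 := par (R - S) R'
  have h3 := par (R' + S) R
  have h4 := par (R' - S) R
  have e1 : R + S + R' = R + R' + S := by abel
  have e2 : R - S + R' = R + R' - S := by abel
  have e3 : R' + S + R = R + R' + S := by abel
  have e4 : R' - S + R = R + R' - S := by abel
  have e5 : hh (R' + S - R) = hh (R - S - R') := by
    rw [← H3_neg par (R' + S - R)]
    congr 1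
    abel
  have e6 : hh (R' - S - R) = hh (R + S - R') := by
    rw [← H3_neg par (R' - S - R)]
    congr 1
    abel
  rw [e1] at h1
  rw [e2] at h2
  rw [e3, e5] at h3
  rw [e4, e6] at h4
  linarith

private theorem H3_left (par : ∀ R S, hh (R + S) + hh (R - S) = 2 * hh R + 2 * hh S) (m : ℤ) (R S : G) :
    hh (m • R + S) - hh (m • R - S) = (m : ℝ) * (hh (R + S) - hh (R - S)) := by
  let f : G →+ ℝ :=
    { toFun := fun R => hh (R + S) - hh (R - S)
      map_zero' := by
        simp only [zero_add, zero_sub, H3_neg par, sub_self]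
      map_add' := fun R R' => H3_add par R R' S }
  have h := map_zsmul f m R
  rw [zsmul_eq_mul] at h
  exact h

private theorem H3_quad (par : ∀ R S, hh (R + S) + hh (R - S) = 2 * hh R + 2 * hh S) (m n : ℤ) (R S : G) :
    hh (m • R + n • S) = (m : ℝ) ^ 2 * hh R + (m : ℝ) * n * (hh (R + S) - hh R - hh S) +
      (n : ℝ) ^ 2 * hh S := by
  have h1 := par (m • R) (n • S)
  have h2 := H3_left par m R (n • S)
  have h3 := H3_left par n S R
  have h4 := par R S
  have e1 : n • S + R = R + n • S := by abel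
  have e2 : hh (n • S - R) = hh (R - n • S) := by
    rw [← H3_neg par (n • S - R)]
    congr 1
    abel
  have e3 : hh (S - R) = hh (R - S) := by
    rw [← H3_neg par (S - R)]
    congr 1
    abel
  rw [hh_zsmul par, hh_zsmul par] at h1
  rw [e1, e2, add_comm S R, e3] at h3
  rw [h3] at h2
  have h5 : hh (R - S) = 2 * hh R + 2 * hh S - hh (R + S) := by linarith
  rw [h5] at h2
  linear_combination (1 / 2) * h1 + (1 / 2) * h2

private theorem H3_cs (par : ∀ R S, hh (R + S) + hh (R - S) = 2 * hh R + 2 * hh S)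
    (nonneg : ∀ R, 0 ≤ hh R) (R S : G) :
    (hh (R + S) - hh R - hh S) ^ 2 ≤ 4 * (hh R * hh S) := by
  have hq : ∀ x : ℝ, 0 ≤ hh R * (x * x) + (hh (R + S) - hh R - hh S) * x + hh S := by
    intro x
    refine DenseRange.induction_on (p := fun x : ℝ =>
      0 ≤ hh R * (x * x) + (hh (R + S) - hh R - hh S) * x + hh S)
      (Rat.denseRange_cast (𝕜 := ℝ)) x ?_ ?_
    · exact isClosed_le continuous_const (by fun_prop)
    · intro q
      have h := nonneg (q.num • R + (q.den : ℤ) • S)
      rw [H3_quad par] at h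
      have hd : (0 : ℝ) < (q.den : ℝ) := by exact_mod_cast q.den_pos
      have hqd : (q : ℝ) = (q.num : ℝ) / (q.den : ℝ) := by exact_mod_cast (Rat.num_div_den q).symm
      rw [hqd]
      have he : hh R * ((q.num : ℝ) / (q.den : ℝ) * ((q.num : ℝ) / (q.den : ℝ))) +
          (hh (R + S) - hh R - hh S) * ((q.num : ℝ) / (q.den : ℝ)) + hh S =
          ((q.num : ℝ) ^ 2 * hh R + (q.num : ℝ) * (q.den : ℝ) * (hh (R + S) - hh R - hh S) +
            (q.den : ℝ) ^ 2 * hh S) / (q.den : ℝ) ^ 2 := by
        field_simp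
      rw [he]
      push_cast at h
      exact div_nonneg h (by positivity)
  have hd := discrim_le_zero hq
  unfold discrim at hd
  linarith

theorem sqrt_hh_add (par : ∀ R S, hh (R + S) + hh (R - S) = 2 * hh R + 2 * hh S)
    (nonneg : ∀ R, 0 ≤ hh R) (R S : G) : √(hh (R + S)) ≤ √(hh R) + √(hh S) := by
  have h1 := Real.sq_sqrt (nonneg R)
  have h2 := Real.sq_sqrt (nonneg S)
  have h3 := Real.sqrt_nonneg (hh R)
  have h4 := Real.sqrt_nonneg (hh S)
  refine Real.sqrt_le_iff.2 ⟨by positivity, ?_⟩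
  have hcs := H3_cs par nonneg R S
  have h5 : (hh (R + S) - hh R - hh S) ^ 2 ≤ (2 * (√(hh R) * √(hh S))) ^ 2 := by
    calc (hh (R + S) - hh R - hh S) ^ 2 ≤ 4 * (hh R * hh S) := hcs
      _ = (2 * (√(hh R) * √(hh S))) ^ 2 := by rw [mul_pow, mul_pow, h1, h2]; ring
  have h6 := abs_le_of_sq_le_sq' h5 (by positivity)
  nlinarith [h6.2]

theorem sqrt_hh_sum (par : ∀ R S, hh (R + S) + hh (R - S) = 2 * hh R + 2 * hh S)
    (nonneg : ∀ R, 0 ≤ hh R) {ι : Type*} (s : Finset ι) (c : ι → ℤ) (P : ι → G) :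
    √(hh (∑ i ∈ s, c i • P i)) ≤ ∑ i ∈ s, |(c i : ℝ)| * √(hh (P i)) := by
  classical
  induction s using Finset.induction_on with
  | empty => simp [H3_zero par]
  | insert a s ha ih =>
    rw [Finset.sum_insert ha, Finset.sum_insert ha]
    refine (sqrt_hh_add par nonneg _ _).trans (add_le_add (le_of_eq ?_) ih)
    rw [hh_zsmul par, Real.sqrt_mul (sq_nonneg _), Real.sqrt_sq_eq_abs]

theorem hh_of_finite (par : ∀ R S, hh (R + S) + hh (R - S) = 2 * hh R + 2 * hh S)
    {T : G} (hT : IsOfFinAddOrder T) : hh T = 0 := by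
  obtain ⟨n, hn, h⟩ := isOfFinAddOrder_iff_nsmul_eq_zero.1 hT
  have h1 := (H3_nsmul par T n).1
  rw [h, H3_zero par] at h1
  have h2 : (0 : ℝ) < (n : ℝ) ^ 2 := by positivity
  rcases mul_eq_zero.1 h1.symm with h3 | h3
  · exact absurd h3 h2.ne'
  · exact h3

end

end Pool.Agent.LibDP24
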