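import Pool.Agent.LibDP24.Defs

/-!
ROW R1 (MEDIUM/STRONG). The group law near the point at infinity: `u = x / y` is additive up to a fifth-order error.

PLAN (all in `ℝ`, a = aa A B, U = |uu R| + |uu S|, `a U² ≤ 1/1000`, so U ≤ 1/44).
Cases `R = 0`, `S = 0` trivial; `S = -R` (same x, y₂ = -y₁): `R + S = 0`, `uu S = - uu R`.
Otherwise (Mathlib: `Affine.Point.add_of_X_ne`, `add_self_of_Y_ne`; `Affine.slope_of_X_ne`, `slope_of_Y_ne`, `addX`, `addY`, `negY = -y`):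
slope `l`, `c = y₁ - l x₁`, `y_i = l x_i + c`, `x₃ = l² - x₁ - x₂`, `y₃ = -(l x₃ + c)`, and
  (V) x₁x₂+x₁x₃+x₂x₃ = A - 2 l c,  x₁x₂x₃ = c² - B     (secant: from the two curve equations, cancel x₁ - x₂; tangent: l = (3x²+A)/(2y)).
Put `u_i = x_i/y_i, w_i = 1/y_i` (i = 1, 2): `w = u³ + A u w² + B w³`, `|w_i| ≤ 2 |u_i|³`, `l u_i + c w_i = 1`.
(a) `c ≠ 0` and `lam := -l/c` satisfies `lam * (1 - A u₂ (w₁+w₂) - B (w₁²+w₁w₂+w₂²)) = u₁²+u₁u₂+u₂² + A w₁²`: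
  secant: `w₁ - w₂` times the left bracket equals `u₁ - u₂` times the right side (difference of the two equations). If `u₁ = u₂`
  then `w₁ = w₂` (bracket ≥ 0.9), so x₁ = x₂, excluded. So `u₁ ≠ u₂`; `c = 0` would give `u₁ = u₂ = 1/l`; `c (w₁-w₂) = -l (u₁-u₂)`.
  tangent (R = S): multiply by y²: `-l (y² - 2 A x - 3 B) = c (3 x² + A)`, identity from `2 y l = 3x²+A`, `2 y c = -x³+A x+2B`;
  if `c = 0` then `l * bracket = 0`, `l = 0`, against `l u + c w = 1`.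
  Hence `|lam| ≤ 1.2 U²`, `nu := 1/c = w₁ - lam u₁`, `|nu| ≤ 4 U³`.
(b) `y₁ y₂ (l x₃ + c) = c³ + A l² c - B l³ = c³ K₀`, `K₀ = 1 + A lam² + B lam³ ≥ 0.9` (from (V)), so `y₃ ≠ 0`;
(c) `x₃/y₃ = x₁/y₁ + x₂/y₂ - (2 A l c - 3 B l²)/(c³ + A l² c - B l³)`  (from (V)), and
  `(2 A l c - 3 B l²)/(c³ K₀) = -(2 A lam + 3 B lam²) nu / K₀`, absolute value `≤ 20 a U⁵`.
(d) Near: `u₃ = x₃/y₃`, `w₃ = 1/y₃` satisfy the curve equation and `-w₃ = lam (-u₃) + nu`, so `|w₃| ≤ 6 U³`, `|u₃| ≤ 1.1 U` and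
  `|w₃| (1 - |A||u₃||w₃| - |B| w₃²) ≤ |u₃|³` gives `|w₃| ≤ 2 |u₃|³`.
You may split off private lemmas over `ℝ`. The constant 1000 is generous.
-/

set_option autoImplicit false

open WeierstrassCurve

namespace Pool.Agent.LibDP24

/-- the key identity (a), as a polynomial identity -/
private lemma R1_ident (A B x1 y1 x2 y2 x3 l c : ℝ) (e1 : y1 = l * x1 + c) (e2 : y2 = l * x2 + c)
    (hx3 : x3 = l ^ 2 - x1 - x2)
    (V1 : x1 * x2 + x1 * x3 + x2 * x3 = A - 2 * l * c) (V2 : x1 * x2 * x3 = c ^ 2 - B) :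
    -l * (y1 ^ 2 * y2 ^ 2 - A * x2 * y1 * (y1 + y2) - B * (y1 ^ 2 + y1 * y2 + y2 ^ 2)) =
      c * (x1 ^ 2 * y2 ^ 2 + x1 * x2 * y1 * y2 + x2 ^ 2 * y1 ^ 2 + A * y2 ^ 2) := by
  have hA : A = x1 * x2 + x1 * x3 + x2 * x3 + 2 * l * c := by linarith
  have hB : B = c ^ 2 - x1 * x2 * x3 := by linarith
  subst e1 e2 hA hB hx3
  ring

/-- product of the three ordinates -/
private lemma R1_prod (A B x1 x2 x3 l c : ℝ)
    (hx3 : x3 = l ^ 2 - x1 - x2)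
    (V1 : x1 * x2 + x1 * x3 + x2 * x3 = A - 2 * l * c) (V2 : x1 * x2 * x3 = c ^ 2 - B) :
    (l * x1 + c) * (l * x2 + c) * (l * x3 + c) = c ^ 3 + A * l ^ 2 * c - B * l ^ 3 := by
  have hA : A = x1 * x2 + x1 * x3 + x2 * x3 + 2 * l * c := by linarith
  have hB : B = c ^ 2 - x1 * x2 * x3 := by linarith
  subst hA hB hx3
  ring

/-- numerator of the sum of the three parameters -/
private lemma R1_num (A B x1 x2 x3 l c : ℝ)
    (hx3 : x3 = l ^ 2 - x1 - x2)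
    (V1 : x1 * x2 + x1 * x3 + x2 * x3 = A - 2 * l * c) (V2 : x1 * x2 * x3 = c ^ 2 - B) :
    x1 * (l * x2 + c) * (l * x3 + c) + x2 * (l * x1 + c) * (l * x3 + c) + x3 * (l * x1 + c) * (l * x2 + c) =
      2 * A * l * c - 3 * B * l ^ 2 := by
  have hA : A = x1 * x2 + x1 * x3 + x2 * x3 + 2 * l * c := by linarith
  have hB : B = c ^ 2 - x1 * x2 * x3 := by linarith
  subst hA hB hx3
  ring

/-- the third point is on the curve -/
private lemma R1_third (A B x1 x2 x3 l c : ℝ)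
    (hx3 : x3 = l ^ 2 - x1 - x2)
    (V1 : x1 * x2 + x1 * x3 + x2 * x3 = A - 2 * l * c) (V2 : x1 * x2 * x3 = c ^ 2 - B) :
    (l * x3 + c) ^ 2 = x3 ^ 3 + A * x3 + B := by
  have hA : A = x1 * x2 + x1 * x3 + x2 * x3 + 2 * l * c := by linarith
  have hB : B = c ^ 2 - x1 * x2 * x3 := by linarith
  subst hA hB hx3
  ring

private lemma R1_form (x y : ℝ) : |x ^ 2 + x * y + y ^ 2| ≤ (|x| + |y|) ^ 2 := by
  have h3 := sq_abs x
  have h4 := sq_abs y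
  have h5 : x * y ≤ |x| * |y| := by rw [← abs_mul]; exact le_abs_self _
  have h6 := mul_nonneg (abs_nonneg x) (abs_nonneg y)
  rw [abs_of_nonneg (by nlinarith [sq_nonneg (x + y), sq_nonneg x, sq_nonneg y])]
  nlinarith

private lemma R1_cube (x y : ℝ) (hx : 0 ≤ x) (hy : 0 ≤ y) : x ^ 3 + y ^ 3 ≤ (x + y) ^ 3 := by
  have h1 := mul_nonneg (mul_nonneg hx hy) hx
  have h2 := mul_nonneg (mul_nonneg hx hy) hy
  have h3 : (x + y) ^ 3 = x ^ 3 + y ^ 3 + 3 * (x * y * x) + 3 * (x * y * y) := by ring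
  linarith

private lemma R1_small (a U : ℝ) (ha : 2 ≤ a) (h : a * U ^ 2 ≤ 1 / 1000) : U ^ 2 ≤ 1 / 2000 := by
  have := mul_le_mul_of_nonneg_right ha (sq_nonneg U)
  linarith

private lemma R1_lam (lam Br Rt V : ℝ) (h : lam * Br = Rt) (hBr : 99 / 100 ≤ Br) (hRt : |Rt| ≤ 101 / 100 * V)
    (hV : 0 ≤ V) : |lam| ≤ 11 / 10 * V := by
  have h1 : |lam| * Br = |Rt| := by
    rw [← h, abs_mul, abs_of_nonneg (by linarith : (0 : ℝ) ≤ Br)]
  have h2 := mul_le_mul_of_nonneg_left hBr (abs_nonneg lam)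
  linarith

private lemma R1_frac (x1 x2 x3 y1 y2 z : ℝ) (h1 : y1 ≠ 0) (h2 : y2 ≠ 0) (h3 : z ≠ 0) :
    x3 / (-z) - x1 / y1 - x2 / y2 = -((x1 * y2 * z + x2 * y1 * z + x3 * y1 * y2) / (y1 * y2 * z)) := by
  field_simp
  ring

/-- real form of the row -/
private lemma R1_core (A B a x1 y1 x2 y2 x3 y3 l c : ℝ) (ha : 2 ≤ a) (hA : |A| ≤ a) (hB : |B| ≤ a)
    (hy1 : y1 ≠ 0) (hy2 : y2 ≠ 0) (e1 : y1 = l * x1 + c) (e2 : y2 = l * x2 + c)
    (hx3 : x3 = l ^ 2 - x1 - x2) (hy3 : y3 = -(l * x3 + c))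
    (V1 : x1 * x2 + x1 * x3 + x2 * x3 = A - 2 * l * c) (V2 : x1 * x2 * x3 = c ^ 2 - B)
    (n1 : |1 / y1| ≤ 2 * |x1 / y1| ^ 3) (n2 : |1 / y2| ≤ 2 * |x2 / y2| ^ 3)
    (hU : a * (|x1 / y1| + |x2 / y2|) ^ 2 ≤ 1 / 1000) :
    (y3 ≠ 0 ∧ |1 / y3| ≤ 2 * |x3 / y3| ^ 3) ∧
      |x3 / y3 - x1 / y1 - x2 / y2| ≤ 1000 * a * (|x1 / y1| + |x2 / y2|) ^ 5 := by
  obtain ⟨u1, hu1⟩ : ∃ u, u = x1 / y1 := ⟨_, rfl⟩
  obtain ⟨u2, hu2⟩ : ∃ u, u = x2 / y2 := ⟨_, rfl⟩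
  obtain ⟨w1, hw1⟩ : ∃ u, u = 1 / y1 := ⟨_, rfl⟩
  obtain ⟨w2, hw2⟩ : ∃ u, u = 1 / y2 := ⟨_, rfl⟩
  rw [← hu1, ← hw1] at n1
  rw [← hu2, ← hw2] at n2
  rw [← hu1, ← hu2] at hU ⊢
  obtain ⟨U, hUd⟩ : ∃ U, U = |u1| + |u2| := ⟨_, rfl⟩
  rw [← hUd] at hU ⊢
  have hp1 := abs_nonneg u1
  have hp2 := abs_nonneg u2
  have hU0 : 0 ≤ U := by linarith
  have hU1 : |u1| ≤ U := by linarith
  have hU2 : |u2| ≤ U := by linarith
  have ha0 : 0 ≤ a := by linarith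
  have hUU : U ^ 2 ≤ 1 / 2000 := R1_small a U ha hU
  have hV0 : 0 ≤ U ^ 2 := sq_nonneg U
  have hU3 : U ^ 3 ≥ 0 := by positivity
  -- bounds for w1, w2
  have hb1 : |w1| ≤ 2 * U ^ 3 := n1.trans (by gcongr)
  have hb2 : |w2| ≤ 2 * U ^ 3 := n2.trans (by gcongr)
  have hb12 : |w1| + |w2| ≤ 2 * U ^ 3 := by
    have h1 : |u1| ^ 3 + |u2| ^ 3 ≤ U ^ 3 := by
      rw [hUd]
      exact R1_cube _ _ hp1 hp2
    linarith
  have haU : a * U ^ 2 ≤ 1 / 1000 := hU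
  -- the line
  have hl1 : l * u1 + c * w1 = 1 := by
    rw [hu1, hw1]; field_simp; linarith
  -- the bracket
  have key : -l * (1 - A * u2 * (w1 + w2) - B * (w1 ^ 2 + w1 * w2 + w2 ^ 2)) =
      c * (u1 ^ 2 + u1 * u2 + u2 ^ 2 + A * w1 ^ 2) := by
    have h := R1_ident A B x1 y1 x2 y2 x3 l c e1 e2 hx3 V1 V2
    rw [hu1, hu2, hw1, hw2]
    field_simp
    linarith
  have hBr1 : |A * u2 * (w1 + w2)| ≤ 1 / 1000 := by
    rw [abs_mul, abs_mul]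
    have h1 : |w1 + w2| ≤ 2 * U ^ 3 := (abs_add_le _ _).trans hb12
    calc |A| * |u2| * |w1 + w2| ≤ a * U * (2 * U ^ 3) := by gcongr
      _ = 2 * (a * U ^ 2) * U ^ 2 := by ring
      _ ≤ 2 * (1 / 1000) * (1 / 2000) := by gcongr
      _ ≤ 1 / 1000 := by norm_num
  have hq : |w1 ^ 2 + w1 * w2 + w2 ^ 2| ≤ (2 * U ^ 3) ^ 2 := by
    refine (R1_form w1 w2).trans ?_
    have := abs_nonneg w1
    have := abs_nonneg w2
    gcongr
  have hBr2 : |B * (w1 ^ 2 + w1 * w2 + w2 ^ 2)| ≤ 1 / 1000 := by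
    rw [abs_mul]
    calc |B| * |w1 ^ 2 + w1 * w2 + w2 ^ 2| ≤ a * (2 * U ^ 3) ^ 2 := by gcongr
      _ = 4 * (a * U ^ 2) * U ^ 2 * U ^ 2 := by ring
      _ ≤ 4 * (1 / 1000) * (1 / 2000) * (1 / 2000) := by gcongr
      _ ≤ 1 / 1000 := by norm_num
  obtain ⟨Br, hBrd⟩ : ∃ Br, Br = 1 - A * u2 * (w1 + w2) - B * (w1 ^ 2 + w1 * w2 + w2 ^ 2) := ⟨_, rfl⟩
  have hBr : 99 / 100 ≤ Br := by
    have h1 := (abs_le.mp hBr1).2
    have h2 := (abs_le.mp hBr2).2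
    rw [hBrd]
    linarith
  obtain ⟨Rt, hRtd⟩ : ∃ Rt, Rt = u1 ^ 2 + u1 * u2 + u2 ^ 2 + A * w1 ^ 2 := ⟨_, rfl⟩
  rw [← hBrd, ← hRtd] at key
  have hRt : |Rt| ≤ 101 / 100 * U ^ 2 := by
    have h1 : |u1 ^ 2 + u1 * u2 + u2 ^ 2| ≤ U ^ 2 := by
      rw [hUd]
      exact R1_form u1 u2
    have h2 : |A * w1 ^ 2| ≤ 1 / 100 * U ^ 2 := by
      rw [abs_mul, abs_pow]
      calc |A| * |w1| ^ 2 ≤ a * (2 * U ^ 3) ^ 2 := by gcongr
        _ = 4 * (a * U ^ 2) * U ^ 2 * U ^ 2 := by ring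
        _ ≤ 4 * (1 / 1000) * (1 / 2000) * U ^ 2 := by gcongr
        _ ≤ 1 / 100 * U ^ 2 := by linarith
    rw [hRtd]
    calc |u1 ^ 2 + u1 * u2 + u2 ^ 2 + A * w1 ^ 2| ≤ |u1 ^ 2 + u1 * u2 + u2 ^ 2| + |A * w1 ^ 2| := abs_add_le _ _
      _ ≤ 101 / 100 * U ^ 2 := by linarith
  have hc : c ≠ 0 := by
    intro hc
    rw [hc, zero_mul] at key
    have hl : l = 0 := by
      rcases mul_eq_zero.mp key with h | h
      · linarith
      · linarith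
    rw [hc, hl] at hl1
    linarith
  obtain ⟨lam, hlam⟩ : ∃ lam, lam = -l / c := ⟨_, rfl⟩
  obtain ⟨nu, hnu⟩ : ∃ nu, nu = 1 / c := ⟨_, rfl⟩
  have hlB : lam * Br = Rt := by
    rw [hlam, div_mul_eq_mul_div, key, mul_comm c Rt, mul_div_assoc, div_self hc, mul_one]
  have hlamb : |lam| ≤ 11 / 10 * U ^ 2 := R1_lam lam Br Rt (U ^ 2) hlB hBr hRt hV0
  have hnu1 : nu = w1 - lam * u1 := by
    rw [hnu, hlam]
    field_simp
    linarith
  have hnub : |nu| ≤ 4 * U ^ 3 := by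
    rw [hnu1]
    calc |w1 - lam * u1| ≤ |w1| + |lam * u1| := abs_sub _ _
      _ ≤ 2 * U ^ 3 + 11 / 10 * U ^ 2 * U := by
        rw [abs_mul]
        gcongr
      _ = 31 / 10 * U ^ 3 := by ring
      _ ≤ 4 * U ^ 3 := by linarith
  -- the third ordinate
  obtain ⟨K0, hK0d⟩ : ∃ K0, K0 = 1 + A * lam ^ 2 + B * lam ^ 3 := ⟨_, rfl⟩
  have hK0 : 9 / 10 ≤ K0 := by
    have h1 : |A * lam ^ 2| ≤ 1 / 100 := by
      rw [abs_mul, abs_pow]
      calc |A| * |lam| ^ 2 ≤ a * (11 / 10 * U ^ 2) ^ 2 := by gcongr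
        _ = 121 / 100 * (a * U ^ 2) * U ^ 2 := by ring
        _ ≤ 121 / 100 * (1 / 1000) * (1 / 2000) := by gcongr
        _ ≤ 1 / 100 := by norm_num
    have h2 : |B * lam ^ 3| ≤ 1 / 100 := by
      rw [abs_mul, abs_pow]
      calc |B| * |lam| ^ 3 ≤ a * (11 / 10 * U ^ 2) ^ 3 := by gcongr
        _ = 1331 / 1000 * (a * U ^ 2) * U ^ 2 * U ^ 2 := by ring
        _ ≤ 1331 / 1000 * (1 / 1000) * (1 / 2000) * (1 / 2000) := by gcongr
        _ ≤ 1 / 100 := by norm_num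
    have h3 := (abs_le.mp h1).1
    have h4 := (abs_le.mp h2).1
    rw [hK0d]
    linarith
  have hprod : y1 * y2 * (l * x3 + c) = c ^ 3 * K0 := by
    rw [e1, e2, R1_prod A B x1 x2 x3 l c hx3 V1 V2, hK0d, hlam]
    field_simp
    ring
  have hl3 : l * x3 + c ≠ 0 := by
    intro h
    rw [h, mul_zero] at hprod
    have : c ^ 3 * K0 ≠ 0 := mul_ne_zero (pow_ne_zero 3 hc) (by linarith)
    exact this hprod.symm
  have hy3' : y3 ≠ 0 := by
    rw [hy3]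
    exact neg_ne_zero.mpr hl3
  -- the sum of the parameters
  have hsum : x3 / y3 - u1 - u2 = (2 * A * lam + 3 * B * lam ^ 2) * nu / K0 := by
    have hK0' : K0 ≠ 0 := by linarith
    have hn := R1_num A B x1 x2 x3 l c hx3 V1 V2
    have h1 : x3 / y3 - u1 - u2 = -((x1 * (l * x2 + c) * (l * x3 + c) + x2 * (l * x1 + c) * (l * x3 + c) +
        x3 * (l * x1 + c) * (l * x2 + c)) / (y1 * y2 * (l * x3 + c))) := by
      rw [hy3, hu1, hu2, ← e1, ← e2]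
      exact R1_frac x1 x2 x3 y1 y2 (l * x3 + c) hy1 hy2 hl3
    rw [h1, hn, hprod, hlam, hnu]
    field_simp
    ring
  have herr : |x3 / y3 - u1 - u2| ≤ 20 * a * U ^ 5 := by
    rw [hsum, abs_div, abs_of_pos (by linarith : (0 : ℝ) < K0), div_le_iff₀ (by linarith), abs_mul]
    have h1 : |2 * A * lam + 3 * B * lam ^ 2| ≤ 3 * a * U ^ 2 := by
      calc |2 * A * lam + 3 * B * lam ^ 2| ≤ |2 * A * lam| + |3 * B * lam ^ 2| := abs_add_le _ _
        _ = 2 * |A| * |lam| + 3 * |B| * |lam| ^ 2 := by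
          rw [abs_mul, abs_mul, abs_mul, abs_mul, abs_pow, abs_of_pos (by norm_num : (0 : ℝ) < 2),
            abs_of_pos (by norm_num : (0 : ℝ) < 3)]
        _ ≤ 2 * a * (11 / 10 * U ^ 2) + 3 * a * (11 / 10 * U ^ 2) ^ 2 := by gcongr
        _ = a * U ^ 2 * (22 / 10 + 363 / 100 * U ^ 2) := by ring
        _ ≤ a * U ^ 2 * (22 / 10 + 363 / 100 * (1 / 2000)) := by gcongr
        _ ≤ 3 * a * U ^ 2 := by linarith [mul_nonneg ha0 (sq_nonneg U)]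
    calc |2 * A * lam + 3 * B * lam ^ 2| * |nu| ≤ 3 * a * U ^ 2 * (4 * U ^ 3) := by gcongr
      _ = 20 * a * U ^ 5 * (6 / 10) := by ring
      _ ≤ 20 * a * U ^ 5 * K0 := by
        have : 0 ≤ 20 * a * U ^ 5 := by positivity
        gcongr
        linarith
  have hu3 : |x3 / y3| ≤ 11 / 10 * U := by
    have h1 : |x3 / y3| ≤ |x3 / y3 - u1 - u2| + (|u1| + |u2|) := by
      calc |x3 / y3| = |(x3 / y3 - u1 - u2) + (u1 + u2)| := by congr 1; ring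
        _ ≤ |x3 / y3 - u1 - u2| + |u1 + u2| := abs_add_le _ _
        _ ≤ _ := by gcongr; exact abs_add_le _ _
    have h2 : 20 * a * U ^ 5 ≤ 1 / 10 * U := by
      calc 20 * a * U ^ 5 = 20 * (a * U ^ 2) * U ^ 2 * U := by ring
        _ ≤ 20 * (1 / 1000) * (1 / 2000) * U := by gcongr
        _ ≤ 1 / 10 * U := by linarith
    rw [← hUd] at h1
    linarith
  obtain ⟨u3, hu3d⟩ : ∃ u, u = x3 / y3 := ⟨_, rfl⟩
  obtain ⟨w3, hw3d⟩ : ∃ u, u = 1 / y3 := ⟨_, rfl⟩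
  have hw3 : w3 = lam * u3 - nu := by
    rw [hw3d, hu3d, hlam, hnu]
    field_simp
    rw [hy3]
    ring
  have hw3b : |w3| ≤ 6 * U ^ 3 := by
    rw [hw3]
    rw [← hu3d] at hu3
    calc |lam * u3 - nu| ≤ |lam * u3| + |nu| := abs_sub _ _
      _ ≤ 11 / 10 * U ^ 2 * (11 / 10 * U) + 4 * U ^ 3 := by
        rw [abs_mul]
        gcongr
      _ = 521 / 100 * U ^ 3 := by ring
      _ ≤ 6 * U ^ 3 := by linarith
  have hcv : w3 = u3 ^ 3 + A * u3 * w3 ^ 2 + B * w3 ^ 3 := by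
    have h := R1_third A B x1 x2 x3 l c hx3 V1 V2
    have h2 : y3 ^ 2 = x3 ^ 3 + A * x3 + B := by rw [hy3, neg_sq]; exact h
    rw [hw3d, hu3d]
    field_simp
    linarith
  refine ⟨⟨hy3', ?_⟩, herr.trans ?_⟩
  · rw [← hu3d, ← hw3d]
    rw [← hu3d] at hu3
    have h1 : |w3| ≤ |u3| ^ 3 + |A| * |u3| * |w3| ^ 2 + |B| * |w3| ^ 3 := by
      calc |w3| = |u3 ^ 3 + A * u3 * w3 ^ 2 + B * w3 ^ 3| := by rw [← hcv]
        _ ≤ |u3 ^ 3 + A * u3 * w3 ^ 2| + |B * w3 ^ 3| := abs_add_le _ _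
        _ ≤ |u3 ^ 3| + |A * u3 * w3 ^ 2| + |B * w3 ^ 3| := by gcongr; exact abs_add_le _ _
        _ = _ := by rw [abs_mul, abs_mul, abs_mul, abs_pow, abs_pow, abs_pow]
    have h2 : |A| * |u3| * |w3| ^ 2 ≤ 1 / 4 * |w3| := by
      calc |A| * |u3| * |w3| ^ 2 = |A| * |u3| * |w3| * |w3| := by ring
        _ ≤ a * (11 / 10 * U) * (6 * U ^ 3) * |w3| := by gcongr
        _ = 66 / 10 * (a * U ^ 2) * U ^ 2 * |w3| := by ring
        _ ≤ 66 / 10 * (1 / 1000) * (1 / 2000) * |w3| := by gcongr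
        _ ≤ 1 / 4 * |w3| := by linarith [abs_nonneg w3]
    have h3 : |B| * |w3| ^ 3 ≤ 1 / 4 * |w3| := by
      calc |B| * |w3| ^ 3 = |B| * |w3| ^ 2 * |w3| := by ring
        _ ≤ a * (6 * U ^ 3) ^ 2 * |w3| := by gcongr
        _ = 36 * (a * U ^ 2) * U ^ 2 * U ^ 2 * |w3| := by ring
        _ ≤ 36 * (1 / 1000) * (1 / 2000) * (1 / 2000) * |w3| := by gcongr
        _ ≤ 1 / 4 * |w3| := by linarith [abs_nonneg w3]
    linarith
  · have : 0 ≤ a * U ^ 5 := by positivity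
    linarith

private lemma R1_eq {A B : ℤ} {x y : ℚ} (h : (E A B).toAffine.Nonsingular x y) :
    y ^ 2 = x ^ 3 + A * x + B := by
  have h1 := (Affine.equation_iff _ _).mp h.left
  simp only at h1
  linarith

theorem near_add {A B : ℤ} (R S : Pt A B) (hR : Near R) (hS : Near S)
    (h : aa A B * (|uu R| + |uu S|) ^ 2 ≤ 1 / 1000) :
    Near (R + S) ∧ |uu (R + S) - uu R - uu S| ≤ 1000 * aa A B * (|uu R| + |uu S|) ^ 5 := by
  have ha := aa_ge A B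
  have hpos : 0 ≤ 1000 * aa A B * (|uu R| + |uu S|) ^ 5 := by positivity
  rcases R with _ | ⟨x1, y1, h1⟩
  · have e : ((Affine.Point.zero : Pt A B) + S) = S := zero_add S
    rw [e]
    refine ⟨hS, ?_⟩
    have e2 : uu (Affine.Point.zero : Pt A B) = 0 := rfl
    rw [e2] at hpos ⊢
    rw [sub_zero, sub_self, abs_zero (α := ℝ)]
    rw [abs_zero] at hpos
    exact hpos
  rcases S with _ | ⟨x2, y2, h2⟩
  · have e : ((Affine.Point.some x1 y1 h1 : Pt A B) + Affine.Point.zero) = Affine.Point.some x1 y1 h1 :=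
      add_zero _
    rw [e]
    refine ⟨hR, ?_⟩
    have e2 : uu (Affine.Point.zero : Pt A B) = 0 := rfl
    rw [e2] at hpos ⊢
    rw [sub_zero, sub_self, abs_zero (α := ℝ)]
    rw [abs_zero] at hpos
    exact hpos
  have q1 := R1_eq h1
  have q2 := R1_eq h2
  obtain ⟨hy1, n1⟩ := hR
  obtain ⟨hy2, n2⟩ := hS
  have hAa : |(A : ℝ)| ≤ aa A B := by
    unfold aa
    linarith [abs_nonneg (B : ℝ)]
  have hBa : |(B : ℝ)| ≤ aa A B := by
    unfold aa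
    linarith [abs_nonneg (A : ℝ)]
  by_cases hxy : x1 = x2 ∧ y1 = (E A B).toAffine.negY x2 y2
  · have e : (Affine.Point.some x1 y1 h1 : Pt A B) + Affine.Point.some x2 y2 h2 = 0 :=
      Affine.Point.add_of_Y_eq hxy.1 hxy.2
    rw [e]
    refine ⟨trivial, ?_⟩
    have e2 : uu (0 : Pt A B) = 0 := rfl
    have e3 : y1 = -y2 := by
      have := hxy.2
      simp only [Affine.negY] at this
      linarith
    have e4 : uu (Affine.Point.some x1 y1 h1 : Pt A B) = ((x1 : ℚ) : ℝ) / ((y1 : ℚ) : ℝ) := rfl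
    have e5 : uu (Affine.Point.some x2 y2 h2 : Pt A B) = ((x2 : ℚ) : ℝ) / ((y2 : ℚ) : ℝ) := rfl
    have e6 : uu (0 : Pt A B) - uu (Affine.Point.some x1 y1 h1 : Pt A B) -
        uu (Affine.Point.some x2 y2 h2 : Pt A B) = 0 := by
      rw [e2, e4, e5, hxy.1, e3]
      push_cast
      rw [div_neg]
      ring
    rw [e6, abs_zero]
    exact hpos
  · -- the line through the two points
    have e : (Affine.Point.some x1 y1 h1 : Pt A B) + Affine.Point.some x2 y2 h2 = _ :=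
      Affine.Point.add_some hxy
    rw [e]
    obtain ⟨l, hl⟩ : ∃ l, l = (E A B).toAffine.slope x1 x2 y1 y2 := ⟨_, rfl⟩
    obtain ⟨x3, hx3⟩ : ∃ x3, x3 = (E A B).toAffine.addX x1 x2 ((E A B).toAffine.slope x1 x2 y1 y2) := ⟨_, rfl⟩
    obtain ⟨y3, hy3⟩ : ∃ y3, y3 = (E A B).toAffine.addY x1 x2 y1 ((E A B).toAffine.slope x1 x2 y1 y2) := ⟨_, rfl⟩
    obtain ⟨c, hc⟩ : ∃ c, c = y1 - l * x1 := ⟨_, rfl⟩
    have hx3' : x3 = l ^ 2 - x1 - x2 := by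
      rw [hx3, ← hl]
      simp only [Affine.addX]
      ring
    have hy3' : y3 = -(l * x3 + c) := by
      rw [hy3, ← hl]
      simp only [Affine.addY, Affine.negY, Affine.negAddY]
      rw [← hl] at hx3
      rw [← hx3, hc]
      ring
    have e1 : y1 = l * x1 + c := by rw [hc]; ring
    -- slope
    have hsl : y2 = l * x2 + c ∧ x1 * x2 + x1 * x3 + x2 * x3 = A - 2 * l * c := by
      by_cases hx : x1 = x2
      · have hy : y1 ≠ (E A B).toAffine.negY x2 y2 := fun hy => hxy ⟨hx, hy⟩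
        have hyy : y1 = y2 := by
          have h3 : (y1 - y2) * (y1 + y2) = 0 := by
            have : y1 ^ 2 = y2 ^ 2 := by rw [q1, q2, hx]
            linarith
          rcases mul_eq_zero.mp h3 with h4 | h4
          · linarith
          · exfalso
            apply hy
            simp only [Affine.negY]
            linarith
        have hl' : l * (2 * y1) = 3 * x1 ^ 2 + A := by
          rw [hl, Affine.slope_of_Y_ne hx hy]
          simp only [Affine.negY]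
          have h2y : y1 - (-y1 - 0 * x1 - 0) ≠ 0 := by
            intro h5
            apply hy1
            linarith
          rw [div_mul_eq_mul_div, div_eq_iff h2y]
          ring
        refine ⟨by rw [← hyy, ← hx]; exact e1, ?_⟩
        rw [hx3', ← hx, hc]
        linarith
      · have hl' : l * (x1 - x2) = y1 - y2 := by
          rw [hl, Affine.slope_of_X_ne hx, div_mul_cancel₀ _ (sub_ne_zero.mpr hx)]
        have e2 : y2 = l * x2 + c := by rw [hc]; linarith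
        refine ⟨e2, ?_⟩
        have h3 : (x1 - x2) * (x1 * x2 + x1 * x3 + x2 * x3 - (A - 2 * l * c)) = 0 := by
          rw [hx3']
          have h4 : (l * x1 + c) ^ 2 - (l * x2 + c) ^ 2 = (x1 ^ 3 + A * x1 + B) - (x2 ^ 3 + A * x2 + B) := by
            rw [← e1, ← e2, q1, q2]
          linarith
        rcases mul_eq_zero.mp h3 with h4 | h4
        · exact absurd (sub_eq_zero.mp h4) hx
        · linarith
    obtain ⟨e2, V1⟩ := hsl
    have V2 : x1 * x2 * x3 = c ^ 2 - B := by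
      have h4 : (l * x1 + c) ^ 2 = x1 ^ 3 + A * x1 + B := by rw [← e1, q1]
      have h5 : (A : ℚ) = x1 * x2 + x1 * x3 + x2 * x3 + 2 * l * c := by linarith
      rw [h5] at h4
      rw [hx3'] at h4 ⊢
      linarith
    have hmain := R1_core (A : ℝ) (B : ℝ) (aa A B) (x1 : ℝ) (y1 : ℝ) (x2 : ℝ) (y2 : ℝ) (x3 : ℝ) (y3 : ℝ) (l : ℝ) (c : ℝ)
      ha hAa hBa (by exact_mod_cast hy1) (by exact_mod_cast hy2) (by exact_mod_cast e1) (by exact_mod_cast e2)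
      (by exact_mod_cast hx3') (by exact_mod_cast hy3') (by exact_mod_cast V1) (by exact_mod_cast V2) n1 n2 h
    obtain ⟨⟨g1, g2⟩, g3⟩ := hmain
    refine ⟨?_, ?_⟩
    · show (E A B).toAffine.addY x1 x2 y1 ((E A B).toAffine.slope x1 x2 y1 y2) ≠ 0 ∧ _
      rw [← hy3, ← hx3]
      exact ⟨by exact_mod_cast g1, g2⟩
    · show |(((E A B).toAffine.addX x1 x2 ((E A B).toAffine.slope x1 x2 y1 y2) : ℚ) : ℝ) /
        (((E A B).toAffine.addY x1 x2 y1 ((E A B).toAffine.slope x1 x2 y1 y2) : ℚ) : ℝ) - _ - _| ≤ _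
      rw [← hy3, ← hx3]
      exact g3

end Pool.Agent.LibDP24
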