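import Pool.Agent.LibDP24.R1

/-!
ROW R2 (SHORT/MEDIUM). Sums of many points near infinity (cites R1 as stated).

PLAN. `near_neg`, `uu_neg`: `-(some x y) = some x (negY x y)`, `negY x y = -y` for this curve.
`near_list`: prove by induction on `l` (S fixed, a = aa A B): if `(l.map |uu|).sum ≤ S` and `10^6 * a * n * S² ≤ 1`, `l.length ≤ n`, then
`Near l.sum` and `|uu l.sum - (l.map uu).sum| ≤ l.length * (243000 * a * S^5)`. Step: `R + l.sum`, `|uu R| ≤ S`,
`|uu l.sum| ≤ S + n * 243000 * a * S^5 ≤ 2 S`, so `U ≤ 3 S`, `a U² ≤ 9 a S² ≤ 1/1000`, new error `1000 a (3S)^5 = 243000 a S^5`. At the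
end `n * 243000 * a * S^5 ≤ S³`. (`l = []`: `S ≥ 0`.)
`near_zsum`: the list `(List.finRange m).flatMap fun i => List.replicate (a i).natAbs ((a i).sign • P i)` has sum `∑ a i • P i`,
length `∑ natAbs (a i) ≤ n`, `∑ |uu| = ∑ |a i| |uu (P i)|`, `∑ uu = ∑ a i uu (P i)`. (Or direct induction; free choice.)
-/

set_option autoImplicit false

open WeierstrassCurve

namespace Pool.Agent.LibDP24

private theorem R2_zero_near {A B : ℤ} : Near (0 : Pt A B) := trivial

private theorem R2_zero_uu {A B : ℤ} : uu (0 : Pt A B) = 0 := rfl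

theorem near_neg {A B : ℤ} {R : Pt A B} (hR : Near R) : Near (-R) := by
  rcases R with _ | ⟨x, y, hxy⟩
  · exact hR
  · rw [Affine.Point.neg_some]
    have hneg : (E A B).toAffine.negY x y = -y := by simp [Affine.negY]
    obtain ⟨h1, h2⟩ := hR
    refine ⟨by rw [hneg]; exact neg_ne_zero.2 h1, ?_⟩
    rw [hneg]
    push_cast
    rw [div_neg, div_neg, abs_neg, abs_neg]
    exact h2

theorem uu_neg {A B : ℤ} (R : Pt A B) : uu (-R) = -uu R := by
  rcases R with _ | ⟨x, y, hxy⟩
  · show (0 : ℝ) = -0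
    simp
  · rw [Affine.Point.neg_some]
    have hneg : (E A B).toAffine.negY x y = -y := by simp [Affine.negY]
    show ((x : ℚ) : ℝ) / (((E A B).toAffine.negY x y : ℚ) : ℝ) = -(((x : ℚ) : ℝ) / ((y : ℚ) : ℝ))
    rw [hneg]
    push_cast
    rw [div_neg]

private theorem R2_abs {A B : ℤ} (t : List (Pt A B)) :
    |(t.map uu).sum| ≤ (t.map fun R => |uu R|).sum := by
  induction t with
  | nil => simp
  | cons R t ih =>
    rw [List.map_cons, List.sum_cons, List.map_cons, List.sum_cons]
    have := abs_add_le (uu R) ((t.map uu).sum)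
    linarith

private theorem R2_step {A B : ℤ} (S : ℝ) (n : ℕ) (hS0 : 0 ≤ S)
    (h : 10 ^ 6 * aa A B * n * S ^ 2 ≤ 1) (l : List (Pt A B)) :
    (∀ R ∈ l, Near R) → (l.map fun R => |uu R|).sum ≤ S → l.length ≤ n →
    Near l.sum ∧ |uu l.sum - (l.map uu).sum| ≤ l.length * (243000 * aa A B * S ^ 5) := by
  have ha := aa_ge A B
  have ha0 : 0 ≤ aa A B := by linarith
  have he0 : 0 ≤ 243000 * aa A B * S ^ 5 := by positivity
  induction l with
  | nil =>
    intro _ _ _
    refine ⟨R2_zero_near, ?_⟩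
    simp [R2_zero_uu]
  | cons R t ih =>
    intro hl hs hn
    have hn1 : (1 : ℝ) ≤ n := by
      have : 1 ≤ n := by
        have h1 := hn
        simp only [List.length_cons] at h1
        omega
      exact_mod_cast this
    have hRn : Near R := hl R (by simp)
    have htn : ∀ R ∈ t, Near R := fun Q hQ => hl Q (by simp [hQ])
    rw [List.map_cons, List.sum_cons] at hs
    have habs : 0 ≤ |uu R| := abs_nonneg _
    have habs2 : 0 ≤ (t.map fun R => |uu R|).sum := by
      apply List.sum_nonneg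
      intro x hx
      simp only [List.mem_map] at hx
      obtain ⟨q, _, rfl⟩ := hx
      exact abs_nonneg _
    have hts : (t.map fun R => |uu R|).sum ≤ S := by linarith
    have htl : t.length ≤ n := by
      simp only [List.length_cons] at hn
      omega
    obtain ⟨h1, h2⟩ := ih htn hts htl
    have htl' : (t.length : ℝ) ≤ n := by exact_mod_cast htl
    -- `a S² ≤ 10^-6`
    have haS : aa A B * S ^ 2 ≤ 1 / 10 ^ 6 := by
      have h3 : aa A B * S ^ 2 * 1 ≤ aa A B * S ^ 2 * n :=
        mul_le_mul_of_nonneg_left hn1 (by positivity)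
      have h4 : 10 ^ 6 * aa A B * n * S ^ 2 = 10 ^ 6 * (aa A B * S ^ 2 * n) := by ring
      rw [h4] at h
      linarith
    have hS1 : S ≤ 1 := by
      by_contra hc
      push Not at hc
      have h3 : (1 : ℝ) ≤ S ^ 2 := by nlinarith
      nlinarith
    -- `t.length * e ≤ S`
    have hte : (t.length : ℝ) * (243000 * aa A B * S ^ 5) ≤ S := by
      have h3 : (t.length : ℝ) * (243000 * aa A B * S ^ 5) ≤ n * (243000 * aa A B * S ^ 5) :=
        mul_le_mul_of_nonneg_right htl' he0
      have h4 : (n : ℝ) * (243000 * aa A B * S ^ 5) =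
          (10 ^ 6 * aa A B * n * S ^ 2) * (243 / 1000 * S ^ 3) := by ring
      have h5 : (10 ^ 6 * aa A B * n * S ^ 2) * (243 / 1000 * S ^ 3) ≤ 1 * (243 / 1000 * S ^ 3) :=
        mul_le_mul_of_nonneg_right h (by positivity)
      have h6 : S ^ 3 ≤ S := by
        have : S ^ 3 = S * S ^ 2 := by ring
        rw [this]
        have h7 : S ^ 2 ≤ 1 := by nlinarith
        nlinarith
      linarith
    have hsum : |(t.map uu).sum| ≤ (t.map fun R => |uu R|).sum := R2_abs t
    have hut : |uu t.sum| ≤ 2 * S := by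
      have h3 : |uu t.sum| ≤ |uu t.sum - (t.map uu).sum| + |(t.map uu).sum| := by
        have := abs_add_le (uu t.sum - (t.map uu).sum) ((t.map uu).sum)
        simpa using this
      linarith
    have hU : |uu R| + |uu t.sum| ≤ 3 * S := by linarith
    have hU0 : 0 ≤ |uu R| + |uu t.sum| := by positivity
    have hU2 : aa A B * (|uu R| + |uu t.sum|) ^ 2 ≤ 1 / 1000 := by
      have h3 : (|uu R| + |uu t.sum|) ^ 2 ≤ (3 * S) ^ 2 := pow_le_pow_left₀ hU0 hU 2
      have h4 := mul_le_mul_of_nonneg_left h3 ha0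
      have h5 : aa A B * (3 * S) ^ 2 = 9 * (aa A B * S ^ 2) := by ring
      rw [h5] at h4
      have : (9 : ℝ) * (1 / 10 ^ 6) ≤ 1 / 1000 := by norm_num
      linarith
    obtain ⟨h6, h7⟩ := near_add R t.sum hRn h1 hU2
    have hU5 : 1000 * aa A B * (|uu R| + |uu t.sum|) ^ 5 ≤ 243000 * aa A B * S ^ 5 := by
      have h3 : (|uu R| + |uu t.sum|) ^ 5 ≤ (3 * S) ^ 5 := pow_le_pow_left₀ hU0 hU 5
      have h4 := mul_le_mul_of_nonneg_left h3 (show 0 ≤ 1000 * aa A B by positivity)
      have h5 : 1000 * aa A B * (3 * S) ^ 5 = 243000 * aa A B * S ^ 5 := by ring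
      linarith
    refine ⟨by rw [List.sum_cons]; exact h6, ?_⟩
    rw [List.sum_cons, List.map_cons, List.sum_cons, List.length_cons]
    push_cast
    have h8 : uu (R + t.sum) - (uu R + (t.map uu).sum) =
        (uu (R + t.sum) - uu R - uu t.sum) + (uu t.sum - (t.map uu).sum) := by ring
    rw [h8]
    have h9 := abs_add_le (uu (R + t.sum) - uu R - uu t.sum) (uu t.sum - (t.map uu).sum)
    linarith

theorem near_list {A B : ℤ} (l : List (Pt A B)) (hl : ∀ R ∈ l, Near R) (S : ℝ)
    (hS : (l.map fun R => |uu R|).sum ≤ S) (h : 10 ^ 6 * aa A B * l.length * S ^ 2 ≤ 1) :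
    Near l.sum ∧ |uu l.sum - (l.map uu).sum| ≤ S ^ 3 := by
  have habs2 : 0 ≤ (l.map fun R => |uu R|).sum := by
    apply List.sum_nonneg
    intro x hx
    simp only [List.mem_map] at hx
    obtain ⟨q, _, rfl⟩ := hx
    exact abs_nonneg _
  have hS0 : 0 ≤ S := habs2.trans hS
  obtain ⟨h1, h2⟩ := R2_step S l.length hS0 h l hl hS le_rfl
  refine ⟨h1, h2.trans ?_⟩
  have ha := aa_ge A B
  have h4 : (l.length : ℝ) * (243000 * aa A B * S ^ 5) =
      (10 ^ 6 * aa A B * l.length * S ^ 2) * (243 / 1000 * S ^ 3) := by ring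
  have h5 : (10 ^ 6 * aa A B * l.length * S ^ 2) * (243 / 1000 * S ^ 3) ≤
      1 * (243 / 1000 * S ^ 3) :=
    mul_le_mul_of_nonneg_right h (by positivity)
  have h6 : 0 ≤ S ^ 3 := by positivity
  linarith

private theorem R2_flat {X M : Type*} [AddCommMonoid M] {m : ℕ} (k : Fin m → ℕ) (Q : Fin m → X)
    (g : X → M) :
    (((List.finRange m).flatMap fun i => List.replicate (k i) (Q i)).map g).sum =
      ∑ i, k i • g (Q i) := by
  rw [Fin.sum_univ_def]
  induction (List.finRange m) with
  | nil => simp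
  | cons i t ih =>
    rw [List.flatMap_cons, List.map_append, List.sum_append, ih, List.map_cons, List.sum_cons,
      List.map_replicate, List.sum_replicate]

theorem near_zsum {A B : ℤ} {m : ℕ} (P : Fin m → Pt A B) (a : Fin m → ℤ) (hP : ∀ i, Near (P i))
    (S : ℝ) (hS : ∑ i, |(a i : ℝ)| * |uu (P i)| ≤ S) (n : ℕ) (hn : ∑ i, |a i| ≤ (n : ℤ))
    (h : 10 ^ 6 * aa A B * n * S ^ 2 ≤ 1) :
    Near (∑ i, a i • P i) ∧ |uu (∑ i, a i • P i) - ∑ i, (a i : ℝ) * uu (P i)| ≤ S ^ 3 := by
  classical
  set Q : Fin m → Pt A B := fun i => if a i < 0 then -P i else P i with hQ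
  set L : List (Pt A B) := (List.finRange m).flatMap fun i => List.replicate (a i).natAbs (Q i)
    with hL
  have hsum : L.sum = ∑ i, a i • P i := by
    have h1 := R2_flat (fun i => (a i).natAbs) Q (id : Pt A B → Pt A B)
    rw [List.map_id] at h1
    rw [hL, h1]
    refine Finset.sum_congr rfl fun i _ => ?_
    simp only [id, hQ]
    rcases lt_or_ge (a i) 0 with h0 | h0
    · rw [if_pos h0]
      have h2 : a i = -((a i).natAbs : ℤ) := by omega
      conv_rhs => rw [h2]
      rw [neg_smul, natCast_zsmul, neg_nsmul]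
    · rw [if_neg (not_lt.2 h0)]
      have h2 : a i = ((a i).natAbs : ℤ) := by omega
      conv_rhs => rw [h2]
      rw [natCast_zsmul]
  have huu : (L.map uu).sum = ∑ i, (a i : ℝ) * uu (P i) := by
    rw [hL, R2_flat (fun i => (a i).natAbs) Q uu]
    refine Finset.sum_congr rfl fun i _ => ?_
    simp only [hQ]
    rcases lt_or_ge (a i) 0 with h0 | h0
    · rw [if_pos h0, uu_neg, nsmul_eq_mul]
      have h2 : (a i : ℝ) = -((a i).natAbs : ℝ) := by
        have h3 : a i = -((a i).natAbs : ℤ) := by omega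
        have h4 := congrArg (fun z : ℤ => (z : ℝ)) h3
        push_cast at h4
        simpa using h4
      rw [h2]
      ring
    · rw [if_neg (not_lt.2 h0), nsmul_eq_mul]
      have h2 : (a i : ℝ) = ((a i).natAbs : ℝ) := by
        have h3 : a i = ((a i).natAbs : ℤ) := by omega
        have h4 := congrArg (fun z : ℤ => (z : ℝ)) h3
        push_cast at h4
        simpa using h4
      rw [h2]
  have habs : (L.map fun R => |uu R|).sum = ∑ i, |(a i : ℝ)| * |uu (P i)| := by
    rw [hL, R2_flat (fun i => (a i).natAbs) Q (fun R => |uu R|)]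
    refine Finset.sum_congr rfl fun i _ => ?_
    have h1 : |uu (Q i)| = |uu (P i)| := by
      simp only [hQ]
      split_ifs
      · rw [uu_neg, abs_neg]
      · rfl
    show (a i).natAbs • |uu (Q i)| = |(a i : ℝ)| * |uu (P i)|
    rw [h1, nsmul_eq_mul, Nat.cast_natAbs, Int.cast_abs]
  have hlen : (L.length : ℤ) = ∑ i, |a i| := by
    have h1 := R2_flat (fun i => (a i).natAbs) Q (fun _ => (1 : ℤ))
    have h2 : (L.map (fun _ => (1 : ℤ))).sum = L.length := by
      simp
    rw [← h2, hL, h1]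
    refine Finset.sum_congr rfl fun i _ => ?_
    simp
  have hlen' : (L.length : ℝ) ≤ n := by
    have : (L.length : ℤ) ≤ n := by rw [hlen]; exact hn
    exact_mod_cast this
  have hnear : ∀ R ∈ L, Near R := by
    intro R hR
    rw [hL, List.mem_flatMap] at hR
    obtain ⟨i, _, hi⟩ := hR
    rw [List.eq_of_mem_replicate hi]
    simp only [hQ]
    split_ifs
    · exact near_neg (hP i)
    · exact hP i
  have ha := aa_ge A B
  have hfin : 10 ^ 6 * aa A B * L.length * S ^ 2 ≤ 1 := by
    refine le_trans ?_ h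
    have h1 : 10 ^ 6 * aa A B * L.length ≤ 10 ^ 6 * aa A B * n :=
      mul_le_mul_of_nonneg_left hlen' (by positivity)
    exact mul_le_mul_of_nonneg_right h1 (sq_nonneg S)
  have := near_list L hnear S (by rw [habs]; exact hS) hfin
  rw [hsum, huu] at this
  exact this

end Pool.Agent.LibDP24
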