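import Mathlib

/-!
ROW D1 (SHORT/MEDIUM). Simultaneous Dirichlet approximation (pigeonhole).

PLAN. `r = 0` trivial (`t = 1`). Map `{0, ..., L^r} → (Fin r → Fin L)`, `t ↦ (⌊L * fract (t c_i)⌋)_i`; two different `t < t'`
have the same image (`Finset.exists_ne_map_eq_of_card_lt_of_maps_to` or `Fintype.exists_ne_map_eq_of_card_lt`,
`card (Fin (L^r+1)) > card (Fin r → Fin L)`), so `|fract (t' c_i) - fract (t c_i)| < 1/L`; take `t' - t` and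
`a_i = ⌊t' c_i⌋ - ⌊t c_i⌋`.
-/

set_option autoImplicit false

namespace Pool.Agent.LibDP24

private theorem D1_aux (r : ℕ) (c : Fin r → ℝ) (L : ℕ) (hL : 0 < L) (s t : ℕ) (hst : s < t) (ht : t ≤ L ^ r)
    (h : ∀ i, ⌊(L : ℝ) * Int.fract ((s : ℝ) * c i)⌋₊ = ⌊(L : ℝ) * Int.fract ((t : ℝ) * c i)⌋₊) :
    ∃ t : ℕ, 1 ≤ t ∧ t ≤ L ^ r ∧ ∃ a : Fin r → ℤ, ∀ i, |(t : ℝ) * c i - a i| ≤ 1 / L := by
  have hL' : (0 : ℝ) < L := by exact_mod_cast hL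
  refine ⟨t - s, by omega, by omega, fun i => ⌊(t : ℝ) * c i⌋ - ⌊(s : ℝ) * c i⌋, fun i => ?_⟩
  have e1 : ((t - s : ℕ) : ℝ) * c i - ((⌊(t : ℝ) * c i⌋ - ⌊(s : ℝ) * c i⌋ : ℤ) : ℝ) =
      Int.fract ((t : ℝ) * c i) - Int.fract ((s : ℝ) * c i) := by
    rw [Nat.cast_sub hst.le, Int.cast_sub, Int.fract, Int.fract]
    ring
  rw [e1]
  have h1 := Int.fract_nonneg ((t : ℝ) * c i)
  have h2 := Int.fract_nonneg ((s : ℝ) * c i)
  have a1 := Nat.floor_le (mul_nonneg hL'.le h1)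
  have a2 := Nat.floor_le (mul_nonneg hL'.le h2)
  have b1 := Nat.lt_floor_add_one ((L : ℝ) * Int.fract ((t : ℝ) * c i))
  have b2 := Nat.lt_floor_add_one ((L : ℝ) * Int.fract ((s : ℝ) * c i))
  rw [h i] at a2 b2
  rw [abs_le, le_div_iff₀ hL', neg_le, ← neg_sub, neg_neg, le_div_iff₀ hL']
  constructor <;> nlinarith

theorem dirichlet (r : ℕ) (c : Fin r → ℝ) (L : ℕ) (hL : 0 < L) :
    ∃ t : ℕ, 1 ≤ t ∧ t ≤ L ^ r ∧ ∃ a : Fin r → ℤ, ∀ i, |(t : ℝ) * c i - a i| ≤ 1 / L := by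
  have hL' : (0 : ℝ) < L := by exact_mod_cast hL
  have key : ∀ (t : ℕ) (i : Fin r), ⌊(L : ℝ) * Int.fract ((t : ℝ) * c i)⌋₊ < L := by
    intro t i
    rw [Nat.floor_lt (mul_nonneg hL'.le (Int.fract_nonneg _))]
    have := Int.fract_lt_one ((t : ℝ) * c i)
    nlinarith
  obtain ⟨s, t, hne, heq⟩ := Fintype.exists_ne_map_eq_of_card_lt
    (fun (t : Fin (L ^ r + 1)) (i : Fin r) => (⟨⌊(L : ℝ) * Int.fract (((t : ℕ) : ℝ) * c i)⌋₊, key t i⟩ : Fin L))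
    (by simp)
  have h : ∀ i, ⌊(L : ℝ) * Int.fract (((s : ℕ) : ℝ) * c i)⌋₊ = ⌊(L : ℝ) * Int.fract (((t : ℕ) : ℝ) * c i)⌋₊ := by
    intro i
    have := congrFun heq i
    exact congrArg Fin.val this
  rcases lt_or_gt_of_ne (fun hh : (s : ℕ) = t => hne (Fin.ext hh)) with h1 | h1
  · exact D1_aux r c L hL s t h1 (by omega) h
  · exact D1_aux r c L hL t s h1 (by omega) (fun i => (h i).symm)

end Pool.Agent.LibDP24
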