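import Mathlib

/-!
ROW G4A (STRONG, pure algebra). Among `t ≥ 2^s` elements of rank `≤ s` of an abelian group, modulo torsion one is
twice, or two are congruent modulo twice, a combination with SMALL coefficients (Hamming bound for the relations modulo 2).

PLAN. (1) Let `I ⊆ Fin t` be a maximal subset with `P` restricted to `I` linearly independent, `|I| = n ≤ s` (hrank). For every `k ∉ I` the family
`P_k, P_i (i ∈ I)` (a map `Fin (n+1) → Fin t`) is dependent, so `hrel` gives `v_k ∈ ℤ^t`, supported on `I ∪ {k}`, entries `≤ B`, `b_k := (v_k)_k ≠ 0`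
(otherwise `I` would be dependent: a torsion relation multiplied by its order is a relation), `∑_j (v_k)_j P_j` torsion.
(2) `R = {m ∈ ℤ^t : ∑ m_j P_j torsion}`. For `m ∈ R`: `m = ∑_{k ∉ I} q_k v_k` in `ℚ^t`, `q_k = m_k / b_k` (the difference is supported on `I` and a
multiple of it lies in `R`, so it is 0 by independence). Put `m'' = m - 2 ∑ ⌊q_k/2⌋ v_k = ∑ (q_k - 2⌊q_k/2⌋) v_k`: `m'' ∈ R`, `m'' ≡ m mod 2`,
entries `≤ 2 t B`.
(3) Parity: the homomorphism `ψ : ℤ^t → ℚ^I`, `e_i ↦ e_i (i ∈ I)`, `e_k ↦ -((v_k)_i / b_k)_i (k ∉ I)` has kernel `R`. Its range `Λ` is a finitely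
generated torsion-free `ℤ`-module, so free (`Module.Free`, `Module.Finite`), of rank `≤ |I| ≤ s` (linearly independent over `ℤ` in `ℚ^I` implies over `ℚ`:
`LinearIndependent.iff_fractionRing`). With a basis, the coordinates modulo 2 of `ψ(e_j)`, `j : Fin t`, are `t ≥ 2^s` elements of `(ZMod 2)^(rank)`:
either one is `0` or two are equal (`i ≠ j`), i.e. `ψ(e_i - δ e_j) = 2 ψ(d)`, `δ ∈ {0, 1}`, so `m := e_i - δ e_j - 2 d ∈ R`.
(Other ways to get `m ∈ R` with `m ≡ e_i + δ e_j mod 2` are welcome, e.g. the quotient `span / torsion` directly.)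
(4) With `m''` from (2): `c := (e_i - δ e_j - m'')/2` is integral, `|c_k| ≤ t B + 1`, and `P_i - δ P_j - 2 ∑ c_k P_k = ∑ m''_k P_k` is torsion.
-/

set_option autoImplicit false

namespace Pool.Agent.LibDP24

section G4A

variable {t : ℕ} (I : Finset (Fin t)) (v : Fin t → Fin t → ℤ)

/-- the map `ψ` with kernel `R` -/
private noncomputable def G4A_psi : (Fin t → ℤ) →ₗ[ℤ] (Fin t → ℚ) where
  toFun m := fun j => (m j : ℚ) - ∑ k ∈ Iᶜ, (m k : ℚ) / (v k k : ℚ) * (v k j : ℚ)
  map_add' m m' := by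
    funext j
    simp only [Pi.add_apply, Int.cast_add, add_div, add_mul, Finset.sum_add_distrib]
    ring
  map_smul' c m := by
    funext j
    simp only [Pi.smul_apply, smul_eq_mul, Int.cast_mul, RingHom.id_apply, zsmul_eq_mul, mul_sub,
      Finset.mul_sum]
    congr 1
    exact Finset.sum_congr rfl fun k _ => by ring

private theorem G4A_psi_apply (m : Fin t → ℤ) (j : Fin t) :
    G4A_psi I v m j = (m j : ℚ) - ∑ k ∈ Iᶜ, (m k : ℚ) / (v k k : ℚ) * (v k j : ℚ) := rfl

variable (hv0 : ∀ k ∉ I, v k k ≠ 0) (hvs : ∀ k ∉ I, ∀ j ∉ I, j ≠ k → v k j = 0)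

include hv0 hvs in
private theorem G4A_psi_out (m : Fin t → ℤ) (j : Fin t) (hj : j ∉ I) : G4A_psi I v m j = 0 := by
  rw [G4A_psi_apply, Finset.sum_eq_single j]
  · have : (v j j : ℚ) ≠ 0 := by exact_mod_cast hv0 j hj
    field_simp
    ring
  · intro k hk hkj
    rw [hvs k (Finset.mem_compl.1 hk) j hj (Ne.symm hkj)]
    simp
  · intro h
    exact absurd (Finset.mem_compl.2 hj) h

private theorem G4A_N (m : Fin t → ℤ) (hv0' : ∀ k ∈ Iᶜ, v k k ≠ 0) (j : Fin t) :
    (((∏ k ∈ Iᶜ, v k k) * m j - ∑ k ∈ Iᶜ, (m k * ∏ l ∈ Iᶜ.erase k, v l l) * v k j : ℤ) : ℚ) =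
      ((∏ k ∈ Iᶜ, v k k : ℤ) : ℚ) * G4A_psi I v m j := by
  rw [G4A_psi_apply, mul_sub, Finset.mul_sum]
  push_cast
  congr 1
  refine Finset.sum_congr rfl fun k hk => ?_
  have h0 : (v k k : ℚ) ≠ 0 := by exact_mod_cast hv0' k hk
  rw [← Finset.mul_prod_erase _ _ hk]
  field_simp

variable (R : AddSubgroup (Fin t → ℤ)) (hsat : ∀ n : ℤ, n ≠ 0 → ∀ m, n • m ∈ R → m ∈ R)
  (hind : ∀ m ∈ R, (∀ j ∉ I, m j = 0) → m = 0) (hvR : ∀ k ∉ I, v k ∈ R)

include hv0 hvs hsat hind hvR in
private theorem G4A_ker (m : Fin t → ℤ) : m ∈ R ↔ G4A_psi I v m = 0 := by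
  have hv0' : ∀ k ∈ Iᶜ, v k k ≠ 0 := fun k hk => hv0 k (Finset.mem_compl.1 hk)
  set D : ℤ := ∏ k ∈ Iᶜ, v k k with hD
  have hD0 : D ≠ 0 := Finset.prod_ne_zero_iff.2 hv0'
  have hDq : (D : ℚ) ≠ 0 := by exact_mod_cast hD0
  have hsum : (∑ k ∈ Iᶜ, (m k * ∏ l ∈ Iᶜ.erase k, v l l) • v k) ∈ R :=
    AddSubgroup.sum_mem _ fun k hk => AddSubgroup.zsmul_mem _ (hvR k (Finset.mem_compl.1 hk)) _
  have hN : ∀ j, (((D • m - ∑ k ∈ Iᶜ, (m k * ∏ l ∈ Iᶜ.erase k, v l l) • v k : Fin t → ℤ) j : ℤ) : ℚ) =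
      (D : ℚ) * G4A_psi I v m j := by
    intro j
    rw [← G4A_N I v m hv0' j]
    congr 1
    simp [Finset.sum_apply, hD]
  constructor
  · intro hm
    have h1 : (D • m - ∑ k ∈ Iᶜ, (m k * ∏ l ∈ Iᶜ.erase k, v l l) • v k : Fin t → ℤ) ∈ R :=
      AddSubgroup.sub_mem _ (AddSubgroup.zsmul_mem _ hm _) hsum
    have h2 := hind _ h1 (by
      intro j hj
      have := hN j
      rw [G4A_psi_out I v hv0 hvs m j hj, mul_zero] at this
      exact_mod_cast this)
    funext j
    have h3 := hN j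
    rw [h2] at h3
    have h4 : (D : ℚ) * G4A_psi I v m j = 0 := by rw [← h3]; simp
    rcases mul_eq_zero.1 h4 with h | h
    · exact absurd h hDq
    · exact h
  · intro hm
    have h2 : (D • m - ∑ k ∈ Iᶜ, (m k * ∏ l ∈ Iᶜ.erase k, v l l) • v k : Fin t → ℤ) = 0 := by
      funext j
      have h3 := hN j
      rw [hm] at h3
      simp only [Pi.zero_apply, mul_zero] at h3
      have : (((D • m - ∑ k ∈ Iᶜ, (m k * ∏ l ∈ Iᶜ.erase k, v l l) • v k : Fin t → ℤ) j : ℤ)) = 0 := by
        exact_mod_cast h3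
      exact this
    apply hsat D hD0
    rw [sub_eq_zero.1 h2]
    exact hsum

include hv0 hvs hsat hind hvR in
private theorem G4A_small (B : ℕ) (hvB : ∀ k ∉ I, ∀ j, |v k j| ≤ (B : ℤ))
    (u d : Fin t → ℤ) (hu : ∀ k, |u k| ≤ 1) (hm : u - (2 : ℤ) • d ∈ R) :
    ∃ c : Fin t → ℤ, (∀ k, |c k| ≤ (t : ℤ) * B + 2) ∧ u - (2 : ℤ) • c ∈ R := by
  set m := u - (2 : ℤ) • d with hmdef
  set q : Fin t → ℚ := fun k => (m k : ℚ) / (v k k : ℚ) with hq
  set F : Fin t → ℤ := ∑ k ∈ Iᶜ, ⌊q k / 2⌋ • v k with hF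
  have hFR : F ∈ R := AddSubgroup.sum_mem _ fun k hk =>
    AddSubgroup.zsmul_mem _ (hvR k (Finset.mem_compl.1 hk)) _
  refine ⟨d + F, fun j => ?_, ?_⟩
  · have hker := (G4A_ker I v hv0 hvs R hsat hind hvR m).1 hm
    have h1 : (m j : ℚ) = ∑ k ∈ Iᶜ, q k * (v k j : ℚ) := by
      have := congrFun hker j
      rw [G4A_psi_apply, Pi.zero_apply, sub_eq_zero] at this
      exact this
    have h2 : ((m j - 2 * F j : ℤ) : ℚ) = ∑ k ∈ Iᶜ, (q k - 2 * (⌊q k / 2⌋ : ℚ)) * (v k j : ℚ) := by
      push_cast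
      rw [h1, hF]
      simp only [Finset.sum_apply, Pi.smul_apply, smul_eq_mul]
      push_cast
      rw [Finset.mul_sum, ← Finset.sum_sub_distrib]
      exact Finset.sum_congr rfl fun k _ => by ring
    have h3 : |((m j - 2 * F j : ℤ) : ℚ)| ≤ 2 * ((t : ℚ) * B) := by
      rw [h2]
      refine (Finset.abs_sum_le_sum_abs _ _).trans ?_
      have : ∀ k ∈ Iᶜ, |(q k - 2 * (⌊q k / 2⌋ : ℚ)) * (v k j : ℚ)| ≤ 2 * (B : ℚ) := by
        intro k hk
        rw [abs_mul]
        have e1 : |(q k - 2 * (⌊q k / 2⌋ : ℚ))| ≤ 2 := by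
          have a1 := Int.floor_le (q k / 2)
          have a2 := Int.lt_floor_add_one (q k / 2)
          rw [abs_le]
          constructor <;> linarith
        have e2 : |(v k j : ℚ)| ≤ B := by
          exact_mod_cast hvB k (Finset.mem_compl.1 hk) j
        exact mul_le_mul e1 e2 (abs_nonneg _) (by norm_num)
      refine (Finset.sum_le_sum this).trans ?_
      rw [Finset.sum_const, nsmul_eq_mul]
      have hc : ((Iᶜ.card : ℕ) : ℚ) ≤ t := by
        have : Iᶜ.card ≤ t := (Finset.card_le_univ _).trans (by simp)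
        exact_mod_cast this
      nlinarith [Nat.cast_nonneg (α := ℚ) B]
    have h4 : |m j - 2 * F j| ≤ 2 * ((t : ℤ) * B) := by exact_mod_cast h3
    have h5 : m j = u j - 2 * d j := by simp [hmdef]
    have h6 := abs_le.1 h4
    have h7 := abs_le.1 (hu j)
    rw [h5] at h6
    rw [Pi.add_apply, abs_le]
    constructor <;> linarith [h6.1, h6.2, h7.1, h7.2]
  · have : u - (2 : ℤ) • (d + F) = m - (2 : ℤ) • F := by
      rw [hmdef, smul_add]; abel
    rw [this]
    exact AddSubgroup.sub_mem _ hm (AddSubgroup.zsmul_mem _ hFR _)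

include hv0 hvs hsat hind hvR in
private theorem G4A_core {s : ℕ} (hts : 2 ^ s ≤ t) (hI : I.card ≤ s) :
    ∃ (i j : Fin t) (d : Fin t → ℤ), (Pi.single i 1 - (2 : ℤ) • d ∈ R) ∨
      (i ≠ j ∧ (Pi.single i 1 - Pi.single j 1 - (2 : ℤ) • d) ∈ R) := by
  classical
  let ψ : (Fin t → ℤ) →ₗ[ℤ] (I → ℚ) :=
    { toFun := fun m i => G4A_psi I v m i
      map_add' := fun m m' => by funext i; simp [map_add]
      map_smul' := fun c m => by
        funext i
        exact congrFun (map_smul (G4A_psi I v) c m) i }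
  have hψ : ∀ m, ψ m = 0 → m ∈ R := by
    intro m hm
    rw [G4A_ker I v hv0 hvs R hsat hind hvR]
    funext j
    by_cases hj : j ∈ I
    · exact congrFun hm ⟨j, hj⟩
    · exact G4A_psi_out I v hv0 hvs m j hj
  let Λ : Submodule ℤ (I → ℚ) := LinearMap.range ψ
  have : Module.Finite ℤ Λ := Module.Finite.range ψ
  have : Module.Free ℤ Λ := Module.free_of_finite_type_torsion_free'
  let b := Module.Free.chooseBasis ℤ Λ
  let ι := Module.Free.ChooseBasisIndex ℤ Λ
  have hli : LinearIndependent ℤ (fun i => (b i : I → ℚ)) :=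
    b.linearIndependent.map' Λ.subtype (Submodule.ker_subtype _)
  have hliq : LinearIndependent ℚ (fun i => (b i : I → ℚ)) :=
    (LinearIndependent.iff_fractionRing ℤ ℚ).1 hli
  have hcard : Fintype.card ι ≤ s := by
    have := hliq.fintype_card_le_finrank
    rw [Module.finrank_fintype_fun_eq_card, Fintype.card_coe] at this
    exact this.trans hI
  let mk : (Fin t → ℤ) → Λ := fun m => ⟨ψ m, ⟨m, rfl⟩⟩
  have hmk : ∀ m m', mk (m - m') = mk m - mk m' := fun m m' => by
    apply Subtype.ext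
    show ψ (m - m') = ψ m - ψ m'
    exact map_sub _ _ _
  have heven : ∀ u : Fin t → ℤ, (∀ l, ((b.repr (mk u) l : ℤ) : ZMod 2) = 0) →
      ∃ d : Fin t → ℤ, u - (2 : ℤ) • d ∈ R := by
    intro u hu
    have h1 : ∀ l, ∃ z : ℤ, b.repr (mk u) l = 2 * z := by
      intro l
      have := (ZMod.intCast_zmod_eq_zero_iff_dvd _ 2).1 (hu l)
      exact_mod_cast this
    choose z hz using h1
    obtain ⟨d, hd⟩ := (∑ l, z l • b l : Λ).2
    refine ⟨d, hψ _ ?_⟩
    have h2 : mk u = (2 : ℤ) • ∑ l, z l • b l := by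
      conv_lhs => rw [← b.sum_repr (mk u)]
      rw [Finset.smul_sum]
      exact Finset.sum_congr rfl fun l _ => by rw [hz l, mul_smul]
    have h3 : ψ u = (2 : ℤ) • ψ d := by
      have := congrArg Subtype.val h2
      rw [hd]
      exact this
    rw [map_sub, map_smul, h3, sub_self]
  let cc : Option (Fin t) → (ι → ZMod 2) := fun o =>
    match o with
    | none => 0
    | some j => fun l => ((b.repr (mk (Pi.single j 1)) l : ℤ) : ZMod 2)
  have hninj : ¬ Function.Injective cc := by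
    intro hinj
    have h1 := Fintype.card_le_of_injective cc hinj
    rw [Fintype.card_option, Fintype.card_fin, Fintype.card_fun, ZMod.card] at h1
    have h2 : 2 ^ Fintype.card ι ≤ 2 ^ s := Nat.pow_le_pow_right (by norm_num) hcard
    omega
  have hpos : 0 < t := lt_of_lt_of_le (by positivity) hts
  unfold Function.Injective at hninj
  push Not at hninj
  obtain ⟨x, y, hxy, hne⟩ := hninj
  have key1 : ∀ j, cc (some j) = 0 → ∃ (i j : Fin t) (d : Fin t → ℤ), (Pi.single i 1 - (2 : ℤ) • d ∈ R) ∨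
      (i ≠ j ∧ (Pi.single i 1 - Pi.single j 1 - (2 : ℤ) • d) ∈ R) := by
    intro j hj
    obtain ⟨d, hd⟩ := heven (Pi.single j 1) (fun l => congrFun hj l)
    exact ⟨j, j, d, Or.inl hd⟩
  cases x with
  | none =>
    cases y with
    | none => exact absurd rfl hne
    | some j => exact key1 j hxy.symm
  | some i =>
    cases y with
    | none => exact key1 i hxy
    | some j =>
      have hij : i ≠ j := fun h => hne (by rw [h])
      obtain ⟨d, hd⟩ := heven (Pi.single i 1 - Pi.single j 1) (fun l => by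
        rw [hmk, map_sub, Finsupp.sub_apply, Int.cast_sub, sub_eq_zero]
        exact congrFun hxy l)
      exact ⟨i, j, d, Or.inr ⟨hij, hd⟩⟩

end G4A

theorem parity {G : Type*} [AddCommGroup G] {t s : ℕ} (hts : 2 ^ s ≤ t) (P : Fin t → G)
    (hrank : ∀ f : Fin (s + 1) → Fin t, ¬ LinearIndependent ℤ (P ∘ f)) (B : ℕ)
    (hrel : ∀ (n : ℕ) (f : Fin (n + 1) → Fin t), n ≤ s → ¬ LinearIndependent ℤ (P ∘ f) →
      ∃ a : Fin (n + 1) → ℤ, a ≠ 0 ∧ (∀ i, |a i| ≤ (B : ℤ)) ∧
        IsOfFinAddOrder (∑ i, a i • P (f i))) :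
    ∃ (i j : Fin t) (c : Fin t → ℤ), (∀ k, |c k| ≤ (t : ℤ) * B + 2) ∧
      (IsOfFinAddOrder (P i - (2 : ℤ) • ∑ k, c k • P k) ∨
        (i ≠ j ∧ IsOfFinAddOrder (P i - P j - (2 : ℤ) • ∑ k, c k • P k))) := by
  classical
  -- the combination map
  let L : (Fin t → ℤ) →+ G :=
    { toFun := fun m => ∑ k, m k • P k
      map_zero' := by simp
      map_add' := fun m m' => by simp [add_smul, Finset.sum_add_distrib] }
  have hL : ∀ m, L m = ∑ k, m k • P k := fun m => rfl
  let R : AddSubgroup (Fin t → ℤ) := (AddCommGroup.torsion G).comap L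
  have hR : ∀ m, m ∈ R ↔ IsOfFinAddOrder (L m) := fun m => Iff.rfl
  have htor : ∀ x : G, IsOfFinAddOrder x ↔ ∃ n : ℤ, n ≠ 0 ∧ n • x = 0 := fun x =>
    isOfFinAddOrder_iff_zsmul_eq_zero
  have hsat : ∀ n : ℤ, n ≠ 0 → ∀ m, n • m ∈ R → m ∈ R := by
    intro n hn m hm
    rw [hR, htor] at hm ⊢
    obtain ⟨k, hk, h⟩ := hm
    refine ⟨k * n, mul_ne_zero hk hn, ?_⟩
    rw [map_zsmul] at h
    rw [mul_smul]
    exact h
  -- a maximal independent set
  obtain ⟨I, hImem, hImax⟩ := Finset.exists_max_image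
    ((Finset.univ : Finset (Finset (Fin t))).filter
      (fun I : Finset (Fin t) => LinearIndependent ℤ (fun i : I => P i))) Finset.card
    ⟨∅, by
      rw [Finset.mem_filter]
      exact ⟨Finset.mem_univ _, linearIndependent_empty_type⟩⟩
  have hIli : LinearIndependent ℤ (fun i : I => P i) := (Finset.mem_filter.1 hImem).2
  have hIs : I.card ≤ s := by
    by_contra hcon
    push Not at hcon
    have hle : s + 1 ≤ I.card := hcon
    let f : Fin (s + 1) → I := fun x => I.equivFin.symm (Fin.castLE hle x)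
    have hf : Function.Injective f := fun x y h => by
      have := I.equivFin.symm.injective h
      exact Fin.castLE_injective hle this
    exact hrank (fun x => (f x : Fin t)) (hIli.comp f hf)
  have hind : ∀ m ∈ R, (∀ j ∉ I, m j = 0) → m = 0 := by
    intro m hm hj
    rw [hR, htor] at hm
    obtain ⟨n, hn, h⟩ := hm
    rw [hL, Finset.smul_sum] at h
    have h1 : ∑ i : I, (n * m i) • P i = 0 := by
      rw [Finset.sum_coe_sort I (fun i => (n * m i) • P i)]
      rw [← h, Finset.sum_subset (Finset.subset_univ I)]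
      · exact Finset.sum_congr rfl fun i _ => by rw [mul_smul]
      · intro x _ hx
        rw [hj x hx]; simp
    have h2 := Fintype.linearIndependent_iff.1 hIli (fun i => n * m i) h1
    funext j
    by_cases hjI : j ∈ I
    · rcases mul_eq_zero.1 (h2 ⟨j, hjI⟩) with h3 | h3
      · exact absurd h3 hn
      · exact h3
    · exact hj j hjI
  -- the small relations
  have hv : ∀ k, k ∉ I → ∃ v : Fin t → ℤ, v ∈ R ∧ v k ≠ 0 ∧ (∀ j ∉ I, j ≠ k → v j = 0) ∧
      ∀ j, |v j| ≤ (B : ℤ) := by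
    intro k hk
    have hcard : (insert k I).card = I.card + 1 := Finset.card_insert_of_notMem hk
    have hnli : ¬ LinearIndependent ℤ (fun i : (insert k I : Finset (Fin t)) => P i) := by
      intro hcon
      have := hImax (insert k I) (Finset.mem_filter.2 ⟨Finset.mem_univ _, hcon⟩)
      omega
    let e : (insert k I : Finset (Fin t)) ≃ Fin (I.card + 1) := Finset.equivFinOfCardEq hcard
    let f : Fin (I.card + 1) → Fin t := fun x => (e.symm x : Fin t)
    have hnf : ¬ LinearIndependent ℤ (P ∘ f) := by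
      intro hcon
      apply hnli
      have := hcon.comp e e.injective
      have heq : (P ∘ f) ∘ e = fun i : (insert k I : Finset (Fin t)) => P i := by
        funext i
        simp [f]
      rw [heq] at this
      exact this
    obtain ⟨a, ha0, haB, hator⟩ := hrel I.card f hIs hnf
    let v : Fin t → ℤ := fun j => if h : j ∈ insert k I then a (e ⟨j, h⟩) else 0
    have hvin : ∀ x : (insert k I : Finset (Fin t)), v x = a (e x) := by
      intro x
      show (if h : (x : Fin t) ∈ insert k I then a (e ⟨x, h⟩) else 0) = _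
      rw [dif_pos x.2]
    have hvout : ∀ j, j ∉ insert k I → v j = 0 := by
      intro j hj
      show (if h : j ∈ insert k I then a (e ⟨j, h⟩) else 0) = _
      rw [dif_neg hj]
    have hsum : L v = ∑ i, a i • P (f i) := by
      rw [hL]
      rw [← Finset.sum_subset (Finset.subset_univ (insert k I)) (fun x _ hx => by
        rw [hvout x hx, zero_smul])]
      rw [← Finset.sum_coe_sort (insert k I) (fun j => v j • P j)]
      rw [← Equiv.sum_comp e (fun i => a i • P (f i))]
      refine Finset.sum_congr rfl fun x _ => ?_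
      rw [hvin x]
      simp [f]
    have hvR : v ∈ R := by
      rw [hR, hsum]; exact hator
    have hvs : ∀ j ∉ I, j ≠ k → v j = 0 := by
      intro j hj hjk
      exact hvout j (by simp [hj, hjk])
    refine ⟨v, hvR, ?_, hvs, ?_⟩
    · intro h0
      have := hind v hvR (fun j hj => by
        by_cases hjk : j = k
        · rw [hjk, h0]
        · exact hvs j hj hjk)
      apply ha0
      funext i
      have h1 := hvin (e.symm i)
      rw [e.apply_symm_apply] at h1
      rw [← h1, this]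
      rfl
    · intro j
      by_cases hj : j ∈ insert k I
      · rw [hvin ⟨j, hj⟩]; exact haB _
      · rw [hvout j hj, abs_zero]; positivity
  choose! v hvR hv0 hvs hvB using hv
  obtain ⟨i, j, d, hd⟩ := G4A_core I v hv0 hvs R hsat hind hvR hts hIs
  have hLs : ∀ i, L (Pi.single i 1) = P i := by
    intro i
    rw [hL, Finset.sum_eq_single i]
    · simp
    · intro k _ hk
      simp [Pi.single_eq_of_ne hk]
    · intro h; exact absurd (Finset.mem_univ _) h
  have hLz : ∀ c : Fin t → ℤ, L ((2 : ℤ) • c) = (2 : ℤ) • ∑ k, c k • P k := by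
    intro c
    rw [map_zsmul, hL]
  rcases hd with hd | ⟨hij, hd⟩
  · obtain ⟨c, hc, hcR⟩ := G4A_small I v hv0 hvs R hsat hind hvR B hvB (Pi.single i 1) d (by
      intro k
      by_cases hk : k = i
      · subst hk; simp
      · simp [Pi.single_eq_of_ne hk]) hd
    refine ⟨i, j, c, hc, Or.inl ?_⟩
    rw [hR, map_sub, hLs, hLz] at hcR
    exact hcR
  · obtain ⟨c, hc, hcR⟩ := G4A_small I v hv0 hvs R hsat hind hvR B hvB
      (Pi.single i 1 - Pi.single j 1) d (by
      intro k
      by_cases hk : k = i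
      · subst hk; simp [Pi.single_eq_of_ne hij]
      · by_cases hk' : k = j
        · subst hk'; simp [Pi.single_eq_of_ne hk]
        · simp [Pi.single_eq_of_ne hk, Pi.single_eq_of_ne hk']) hd
    refine ⟨i, j, c, hc, Or.inr ⟨hij, ?_⟩⟩
    rw [hR, map_sub, map_sub, hLs, hLs, hLz] at hcR
    exact hcR

end Pool.Agent.LibDP24
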