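import Pool.Agent.LibDP24.H3
import Pool.Agent.LibDP24.D1

/-!
ROW D2 (MEDIUM). A relation with small coefficients from any relation.

`G` an abelian group, `hh` an exact quadratic form `≥ 0` on `G` with `hh R ≥ lam > 0` for every `R` of infinite order,
`P₀, ..., P_r` linearly dependent with `hh (P i) ≤ Q`. Then there are integers `a i`, not all `0`,
`|a i| ≤ L ^ (r+1) + 1`, with `∑ a i • P i` of finite order, whenever `L` is a natural number with
`(r+1)² Q < lam * L²`, `L ≥ 1`.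

PLAN. `m : Fin (r+1) → ℤ`, `m ≠ 0`, `∑ m i • P i = 0` (`Fintype.not_linearIndependent_iff`). Take `i₀` with `|m i₀|` maximal, so
`m i₀ ≠ 0`, `c i = m i / m i₀`, `|c i| ≤ 1`, `c i₀ = 1`. `dirichlet (r+1) c L` gives `t, a` with `|t c i - a i| ≤ 1/L`;
change `a i₀` to `t` (the error there becomes 0), `a i₀ = t ≥ 1`. Put `S = ∑ a i • P i`. Then
`m i₀ • S = ∑ (m i₀ * a i - t * m i) • P i` (subtract `t • ∑ m i • P i = 0`) and `|m i₀ a i - t m i| ≤ |m i₀| / L`, so with `sqrt_hh_sum`: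
`|m i₀| √hh S = √hh (m i₀ • S) ≤ (r+1) (|m i₀|/L) √Q`, i.e. `hh S ≤ (r+1)² Q / L² < lam`: `S` has finite order.
`|a i| ≤ t |c i| + 1 ≤ L^(r+1) + 1`.
-/

set_option autoImplicit false

namespace Pool.Agent.LibDP24

theorem small_relation {G : Type*} [AddCommGroup G] {hh : G → ℝ}
    (par : ∀ R S, hh (R + S) + hh (R - S) = 2 * hh R + 2 * hh S) (nonneg : ∀ R, 0 ≤ hh R)
    {lam Q : ℝ} (hlow : ∀ R, ¬ IsOfFinAddOrder R → lam ≤ hh R)
    {r : ℕ} (P : Fin (r + 1) → G) (hP : ¬ LinearIndependent ℤ P) (hQ : ∀ i, hh (P i) ≤ Q)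
    (L : ℕ) (hL : 0 < L) (hLQ : ((r : ℝ) + 1) ^ 2 * Q < lam * (L : ℝ) ^ 2) :
    ∃ a : Fin (r + 1) → ℤ, a ≠ 0 ∧ (∀ i, |a i| ≤ (L : ℤ) ^ (r + 1) + 1) ∧
      IsOfFinAddOrder (∑ i, a i • P i) := by
  classical
  obtain ⟨m, hm, i1, hi1⟩ := Fintype.not_linearIndependent_iff.1 hP
  obtain ⟨i₀, -, hmax⟩ := Finset.exists_max_image (Finset.univ : Finset (Fin (r + 1))) (fun i => |m i|)
    ⟨0, Finset.mem_univ _⟩
  have hm0 : m i₀ ≠ 0 := by
    intro h
    have h1 := hmax i1 (Finset.mem_univ _)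
    simp only [h, abs_zero] at h1
    exact hi1 (abs_eq_zero.1 (le_antisymm h1 (abs_nonneg _)))
  have hm0R : (m i₀ : ℝ) ≠ 0 := by exact_mod_cast hm0
  have hm0P : 0 < |(m i₀ : ℝ)| := abs_pos.2 hm0R
  have hmaxR : ∀ i, |(m i : ℝ)| ≤ |(m i₀ : ℝ)| := by
    intro i
    have h1 := hmax i (Finset.mem_univ _)
    exact_mod_cast h1
  obtain ⟨t, ht1, ht2, a, ha⟩ := dirichlet (r + 1) (fun i => (m i : ℝ) / m i₀) L hL
  have hLR : (0 : ℝ) < L := by exact_mod_cast hL
  have hL1 : (1 : ℝ) / L ≤ 1 := by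
    rw [div_le_one hLR]
    exact_mod_cast hL
  have hQ0 : 0 ≤ Q := (nonneg (P 0)).trans (hQ 0)
  have htR : (t : ℝ) ≤ (L : ℝ) ^ (r + 1) := by exact_mod_cast ht2
  have ht0 : (0 : ℝ) ≤ t := by positivity
  -- the new coefficients
  have key : ∀ i, |(t : ℝ) * ((m i : ℝ) / m i₀) - (Function.update a i₀ (t : ℤ) i : ℤ)| ≤ 1 / L := by
    intro i
    by_cases h : i = i₀
    · subst h
      rw [Function.update_self, div_self hm0R]
      simp
    · rw [Function.update_of_ne h]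
      exact ha i
  refine ⟨Function.update a i₀ (t : ℤ), ?_, ?_, ?_⟩
  · intro h
    have h1 := congrFun h i₀
    rw [Function.update_self, Pi.zero_apply] at h1
    have : t = 0 := by exact_mod_cast h1
    omega
  · intro i
    have h1 := key i
    have h2 : |(t : ℝ) * ((m i : ℝ) / m i₀)| ≤ t := by
      rw [abs_mul, abs_of_nonneg ht0, abs_div]
      have h3 : |(m i : ℝ)| / |(m i₀ : ℝ)| ≤ 1 := (div_le_one hm0P).2 (hmaxR i)
      nlinarith
    have h3 : |((Function.update a i₀ (t : ℤ) i : ℤ) : ℝ)| ≤ (L : ℝ) ^ (r + 1) + 1 := by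
      have h4 := abs_sub_abs_le_abs_sub ((Function.update a i₀ (t : ℤ) i : ℤ) : ℝ)
        ((t : ℝ) * ((m i : ℝ) / m i₀))
      rw [abs_sub_comm] at h4
      linarith
    have h5 : ((|Function.update a i₀ (t : ℤ) i| : ℤ) : ℝ) ≤ (((L : ℤ) ^ (r + 1) + 1 : ℤ) : ℝ) := by
      push_cast
      exact h3
    exact_mod_cast h5
  · by_contra hS
    have h1 := hlow _ hS
    have h2 : m i₀ • ∑ i, Function.update a i₀ (t : ℤ) i • P i =
        ∑ i, (m i₀ * Function.update a i₀ (t : ℤ) i - t * m i) • P i := by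
      rw [Finset.smul_sum]
      have h3 : ∀ i, (m i₀ * Function.update a i₀ (t : ℤ) i - t * m i) • P i =
          m i₀ • Function.update a i₀ (t : ℤ) i • P i - (t : ℤ) • m i • P i := by
        intro i
        rw [sub_smul, mul_smul, mul_smul]
      rw [Finset.sum_congr rfl fun i _ => h3 i, Finset.sum_sub_distrib, ← Finset.smul_sum (r := (t : ℤ)), hm,
        smul_zero, sub_zero]
    have h4 := sqrt_hh_sum par nonneg Finset.univ
      (fun i => m i₀ * Function.update a i₀ (t : ℤ) i - t * m i) P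
    rw [← h2, hh_zsmul par, Real.sqrt_mul (sq_nonneg _), Real.sqrt_sq_eq_abs] at h4
    have h5 : ∀ i ∈ (Finset.univ : Finset (Fin (r + 1))),
        |((m i₀ * Function.update a i₀ (t : ℤ) i - t * m i : ℤ) : ℝ)| * √(hh (P i)) ≤
          |(m i₀ : ℝ)| / L * √Q := by
      intro i _
      have h6 : |((m i₀ * Function.update a i₀ (t : ℤ) i - t * m i : ℤ) : ℝ)| ≤ |(m i₀ : ℝ)| / L := by
        have e : ((m i₀ * Function.update a i₀ (t : ℤ) i - t * m i : ℤ) : ℝ) =
            -((m i₀ : ℝ) * ((t : ℝ) * ((m i : ℝ) / m i₀) - (Function.update a i₀ (t : ℤ) i : ℤ))) := by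
          push_cast
          field_simp
          ring
        rw [e, abs_neg, abs_mul]
        have h7 := mul_le_mul_of_nonneg_left (key i) (abs_nonneg (m i₀ : ℝ))
        calc |(m i₀ : ℝ)| * |(t : ℝ) * ((m i : ℝ) / m i₀) - (Function.update a i₀ (t : ℤ) i : ℤ)|
            ≤ |(m i₀ : ℝ)| * (1 / L) := h7
          _ = |(m i₀ : ℝ)| / L := by ring
      exact mul_le_mul h6 (Real.sqrt_le_sqrt (hQ i)) (Real.sqrt_nonneg _) (by positivity)
    have h8 := Finset.sum_le_sum h5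
    rw [Finset.sum_const, Finset.card_univ, Fintype.card_fin, nsmul_eq_mul] at h8
    have h9 : |(m i₀ : ℝ)| * √(hh (∑ i, Function.update a i₀ (t : ℤ) i • P i)) ≤
        |(m i₀ : ℝ)| * (((r : ℝ) + 1) * √Q / L) := by
      refine h4.trans (h8.trans (le_of_eq ?_))
      push_cast
      ring
    have h10 := le_of_mul_le_mul_left h9 hm0P
    have h11 := pow_le_pow_left₀ (Real.sqrt_nonneg _) h10 2
    rw [Real.sq_sqrt (nonneg _), div_pow, mul_pow, Real.sq_sqrt hQ0] at h11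
    have h12 : ((r : ℝ) + 1) ^ 2 * Q / (L : ℝ) ^ 2 < lam := by
      rw [div_lt_iff₀ (by positivity)]
      exact hLQ
    linarith

end Pool.Agent.LibDP24
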