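import Mathlib

/-!
MP_a1107e_nt, linearly dependent integral points of `y² = x³ + A x + B`: definitions.
-/

set_option autoImplicit false

open WeierstrassCurve Height

namespace Pool.Agent.LibDP24

/-- the curve `y² = x³ + A x + B` over `ℚ` -/
abbrev E (A B : ℤ) : WeierstrassCurve ℚ := ⟨0, 0, 0, (A : ℚ), (B : ℚ)⟩

/-- its rational points -/
abbrev Pt (A B : ℤ) : Type := (E A B).toAffine.Point

/-- `2 + |A| + |B|` -/
noncomputable def aa (A B : ℤ) : ℝ := 2 + |(A : ℝ)| + |(B : ℝ)|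

/-- `log (2 + |A| + |B|)` -/
noncomputable def ell (A B : ℤ) : ℝ := Real.log (aa A B)

/-- naive logarithmic height of the `x`-coordinate, `0` at infinity -/
noncomputable def nh {A B : ℤ} (R : Pt A B) : ℝ := logHeight R.xRep

/-- a canonical height at distance at most `C * ell` from the naive one -/
structure IsCan (C : ℝ) {A B : ℤ} (hh : Pt A B → ℝ) : Prop where
  close : ∀ R, |hh R - nh R| ≤ C * ell A B
  par : ∀ R S, hh (R + S) + hh (R - S) = 2 * hh R + 2 * hh S
  nonneg : ∀ R, 0 ≤ hh R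

/-- the local parameter `x / y` at infinity, as a real number -/
noncomputable def uu {A B : ℤ} (R : Pt A B) : ℝ :=
  match R with
  | .zero => 0
  | .some x y _ => ((x : ℚ) : ℝ) / ((y : ℚ) : ℝ)

/-- close to the point at infinity: `1 / y` is close to `(x / y) ^ 3` (used for small `uu R`) -/
def Near {A B : ℤ} (R : Pt A B) : Prop :=
  match R with
  | .zero => True
  | .some x y _ => y ≠ 0 ∧ |1 / ((y : ℚ) : ℝ)| ≤ 2 * |((x : ℚ) : ℝ) / ((y : ℚ) : ℝ)| ^ 3

/-- Baker type bound for all integral points (proved in H6; hypothesis elsewhere, to keep the imports light) -/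
def PB : Prop := ∃ C : ℝ, 0 ≤ C ∧ ∀ A B x y : ℤ, 4 * A ^ 3 + 27 * B ^ 2 ≠ 0 →
    y ^ 2 = x ^ 3 + A * x + B → Real.log (max |(x : ℝ)| |(y : ℝ)|) ≤ Real.exp (C * ell A B)

theorem aa_ge (A B : ℤ) : 2 ≤ aa A B := by
  unfold aa
  have := abs_nonneg (A : ℝ)
  have := abs_nonneg (B : ℝ)
  linarith

theorem ell_ge (A B : ℤ) : 1 / 2 ≤ ell A B := by
  have h2 : (1 : ℝ) / 2 ≤ Real.log 2 := by
    have := Real.log_two_gt_d9
    linarith
  exact h2.trans (Real.log_le_log (by norm_num) (aa_ge A B))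

theorem exp_ell (A B : ℤ) : Real.exp (ell A B) = aa A B :=
  Real.exp_log (by linarith [aa_ge A B])

end Pool.Agent.LibDP24
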