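import Pool.Agent.LibDP24.Defs

/-!
MP_a1107e_nt, linearly dependent integral points: points with integral coordinates.
-/

set_option autoImplicit false

open WeierstrassCurve

namespace Pool.Agent.LibDP24

/-- `R` is the integral point with `x`-coordinate `x` (and some integral `y`) -/
def IsInt {A B : ℤ} (R : Pt A B) (x : ℤ) : Prop :=
  ∃ (y : ℤ) (h : (E A B).toAffine.Nonsingular (x : ℚ) (y : ℚ)),
    R = Affine.Point.some (x : ℚ) (y : ℚ) h

end Pool.Agent.LibDP24
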