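import Pool.Agent.LibDP24.H5

/-!
ROW R3 (SHORT/MEDIUM). Sizes of points near infinity; torsion points are not near infinity (cites H3, H5 as stated).

PLAN. `near_x`: u = x/y, w = 1/y, `|w| ≤ 2|u|³`, `w = u³ + A u w² + B w³`, so `|w - u³| ≤ |u|³ (4 |A| u⁴ + 8 |B| u⁶) ≤ |u|³/10`
(`u ≠ 0` because `w ≠ 0`), and `x u² = u³ / w`.
`near_int`: `|A x + B| ≤ a x ≤ x²/100`, so `y² ∈ [0.99 x³, 1.01 x³]`, `x u² = x³/y²`; `|1/y| ≤ 2 |x|³/|y|³` iff `y² ≤ 2x³`.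
`x_ge`: `x < -a` would give `x³ + A x + B < 0`. `max_le`: `y² ≤ a m³ ≤ (a m²)²`, `m = max |x| 1`.
`torsion_zero`: `hh T = 0` (`hh_of_finite`), so `nh T ≤ C₀ ell`. If `T = some x y`: `u² < exp (-(2 C₀ + 20) ell)`, `ell = log aa`, so
`aa u² ≤ aa^(-19) ≤ 1/1000`, `near_x`: `x ≥ 1/(2u²) > exp (C₀ ell)`, against `log_x_le_nh`.
-/

set_option autoImplicit false

open WeierstrassCurve

namespace Pool.Agent.LibDP24

private theorem R3_eqn {A B : ℤ} {x y : ℚ} (h : (E A B).toAffine.Nonsingular x y) :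
    (y : ℝ) ^ 2 = (x : ℝ) ^ 3 + (A : ℝ) * (x : ℝ) + (B : ℝ) := by
  have h1 := (Affine.equation_iff _ _).mp h.1
  have h2 : y ^ 2 = x ^ 3 + (A : ℚ) * x + (B : ℚ) := by
    simpa using h1
  exact_mod_cast congrArg (fun q : ℚ => (q : ℝ)) h2

private theorem R3_absAB (A B : ℤ) : 2 + |(A : ℝ)| + |(B : ℝ)| = aa A B := rfl

private theorem R3_nearx_real {a b c x y u : ℝ} (hE : y ^ 2 = x ^ 3 + a * x + b) (hy : y ≠ 0)
    (hc : 2 + |a| + |b| = c) (hu : u = x / y) (hN : |1 / y| ≤ 2 * |u| ^ 3)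
    (hs : c * u ^ 2 ≤ 1 / 1000) : 1 / 2 ≤ x * u ^ 2 ∧ x * u ^ 2 ≤ 2 := by
  have ha := abs_nonneg a
  have hb := abs_nonneg b
  obtain ⟨w, hw⟩ : ∃ w, w = 1 / y := ⟨_, rfl⟩
  have hw0 : w ≠ 0 := by rw [hw]; exact one_div_ne_zero hy
  rw [← hw] at hN
  have hyw : y = 1 / w := by rw [hw]; field_simp
  have hx : x = u / w := by
    rw [hu, hw]; field_simp
  have hW : w = u ^ 3 + a * u * w ^ 2 + b * w ^ 3 := by
    rw [hyw, hx] at hE
    field_simp at hE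
    linarith
  have hu0 : u ≠ 0 := by
    intro h0
    rw [h0] at hN
    have : |w| ≤ 0 := by simpa using hN
    exact hw0 (abs_eq_zero.mp (le_antisymm this (abs_nonneg w)))
  have hup : 0 < |u| := abs_pos.mpr hu0
  have hs1 : |u| ^ 2 = u ^ 2 := sq_abs u
  have hu2 : 0 < u ^ 2 := by positivity
  have hcu2 : u ^ 2 ≤ 1 / 2000 := by nlinarith
  have hau : |a| * u ^ 2 ≤ 1 / 1000 := by nlinarith
  have hbu : |b| * u ^ 2 ≤ 1 / 1000 := by nlinarith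
  have hw2 : w ^ 2 ≤ 4 * |u| ^ 6 := by
    have h1 : |w| ^ 2 ≤ (2 * |u| ^ 3) ^ 2 := pow_le_pow_left₀ (abs_nonneg w) hN 2
    rw [sq_abs] at h1
    calc w ^ 2 ≤ (2 * |u| ^ 3) ^ 2 := h1
      _ = 4 * |u| ^ 6 := by ring
  have hw3 : |w| ^ 3 ≤ 8 * |u| ^ 9 := by
    have h1 : |w| ^ 3 ≤ (2 * |u| ^ 3) ^ 3 := pow_le_pow_left₀ (abs_nonneg w) hN 3
    calc |w| ^ 3 ≤ (2 * |u| ^ 3) ^ 3 := h1
      _ = 8 * |u| ^ 9 := by ring
  have e1 : |a * u * w ^ 2| ≤ |u| ^ 3 * (4 * (|a| * u ^ 2) * u ^ 2) := by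
    rw [abs_mul, abs_mul, abs_of_nonneg (sq_nonneg w)]
    calc |a| * |u| * w ^ 2 ≤ |a| * |u| * (4 * |u| ^ 6) := by gcongr
      _ = |u| ^ 3 * (4 * (|a| * |u| ^ 2) * |u| ^ 2) := by ring
      _ = |u| ^ 3 * (4 * (|a| * u ^ 2) * u ^ 2) := by rw [hs1]
  have e2 : |b * w ^ 3| ≤ |u| ^ 3 * (8 * (|b| * u ^ 2) * (u ^ 2 * u ^ 2)) := by
    rw [abs_mul, abs_pow]
    calc |b| * |w| ^ 3 ≤ |b| * (8 * |u| ^ 9) := by gcongr
      _ = |u| ^ 3 * (8 * (|b| * |u| ^ 2) * (|u| ^ 2 * |u| ^ 2)) := by ring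
      _ = |u| ^ 3 * (8 * (|b| * u ^ 2) * (u ^ 2 * u ^ 2)) := by rw [hs1]
  have e3 : 4 * (|a| * u ^ 2) * u ^ 2 ≤ 1 / 100 := by
    have h0 : 0 ≤ |a| * u ^ 2 := by positivity
    nlinarith
  have e4 : 8 * (|b| * u ^ 2) * (u ^ 2 * u ^ 2) ≤ 1 / 100 := by
    have h0 : 0 ≤ |b| * u ^ 2 := by positivity
    have h1 : u ^ 2 * u ^ 2 ≤ 1 := by nlinarith
    have h2 : 0 ≤ u ^ 2 * u ^ 2 := by positivity
    nlinarith
  have hu3 : 0 < |u| ^ 3 := by positivity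
  have e5 : |w - u ^ 3| ≤ |u| ^ 3 * (1 / 50) := by
    have h1 : w - u ^ 3 = a * u * w ^ 2 + b * w ^ 3 := by linarith
    rw [h1]
    calc |a * u * w ^ 2 + b * w ^ 3| ≤ |a * u * w ^ 2| + |b * w ^ 3| := abs_add_le _ _
      _ ≤ |u| ^ 3 * (4 * (|a| * u ^ 2) * u ^ 2) +
          |u| ^ 3 * (8 * (|b| * u ^ 2) * (u ^ 2 * u ^ 2)) := add_le_add e1 e2
      _ ≤ |u| ^ 3 * (1 / 100) + |u| ^ 3 * (1 / 100) := by gcongr
      _ = |u| ^ 3 * (1 / 50) := by ring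
  have hu3' : u ^ 3 ≠ 0 := pow_ne_zero 3 hu0
  obtain ⟨q, hq⟩ : ∃ q, q = w / u ^ 3 := ⟨_, rfl⟩
  have hwq : w = q * u ^ 3 := by rw [hq]; field_simp
  have e6 : |q - 1| ≤ 1 / 50 := by
    have h1 : |w - u ^ 3| = |q - 1| * |u| ^ 3 := by
      rw [← abs_pow, ← abs_mul, hwq]
      congr 1
      ring
    rw [h1] at e5
    have h2 : |q - 1| * |u| ^ 3 ≤ (1 / 50) * |u| ^ 3 := by linarith
    exact le_of_mul_le_mul_right h2 hu3
  obtain ⟨q1, q2⟩ := abs_le.mp e6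
  have hqp : 0 < q := by linarith
  have hxu : x * u ^ 2 = 1 / q := by
    rw [hx, hwq]
    field_simp
  rw [hxu]
  constructor
  · rw [div_le_div_iff₀ (by norm_num) hqp]
    linarith
  · rw [div_le_iff₀ hqp]
    linarith

theorem near_x {A B : ℤ} {x y : ℚ} (h : (E A B).toAffine.Nonsingular x y)
    (hN : Near (Affine.Point.some x y h : Pt A B))
    (hu : aa A B * uu (Affine.Point.some x y h : Pt A B) ^ 2 ≤ 1 / 1000) :
    1 / 2 ≤ (x : ℝ) * uu (Affine.Point.some x y h : Pt A B) ^ 2 ∧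
      (x : ℝ) * uu (Affine.Point.some x y h : Pt A B) ^ 2 ≤ 2 := by
  obtain ⟨hy, hN⟩ := hN
  have hy' : (y : ℝ) ≠ 0 := by exact_mod_cast hy
  exact R3_nearx_real (a := (A : ℝ)) (b := (B : ℝ)) (c := aa A B) (x := (x : ℝ)) (y := (y : ℝ))
    (u := uu (Affine.Point.some x y h : Pt A B)) (R3_eqn h) hy' rfl rfl hN hu

private theorem R3_int_real {a b c x y : ℝ} (hE : y ^ 2 = x ^ 3 + a * x + b)
    (hc : 2 + |a| + |b| = c) (hx : 100 * c ≤ x) :
    y ≠ 0 ∧ |1 / y| ≤ 2 * |x / y| ^ 3 ∧ 1 / 2 ≤ x * (x / y) ^ 2 ∧ x * (x / y) ^ 2 ≤ 2 := by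
  have ha := abs_nonneg a
  have hb := abs_nonneg b
  have hx0 : 200 ≤ x := by linarith
  have hxp : 0 < x := by linarith
  have h1 : |a * x + b| ≤ x ^ 2 / 100 := by
    calc |a * x + b| ≤ |a * x| + |b| := abs_add_le _ _
      _ = |a| * x + |b| := by rw [abs_mul, abs_of_pos hxp]
      _ ≤ c * x := by nlinarith
      _ ≤ x ^ 2 / 100 := by nlinarith
  have h2 : x ^ 2 / 100 ≤ x ^ 3 / 100 := by
    have : x ^ 2 ≤ x ^ 3 := by nlinarith [sq_nonneg x]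
    linarith
  have hx3 : 0 < x ^ 3 := by positivity
  obtain ⟨h3, h4⟩ := abs_le.mp (h1.trans h2)
  have hy1 : 99 / 100 * x ^ 3 ≤ y ^ 2 := by rw [hE]; linarith
  have hy2 : y ^ 2 ≤ 101 / 100 * x ^ 3 := by rw [hE]; linarith
  have hyp : 0 < y ^ 2 := by linarith
  have hy0 : y ≠ 0 := by
    intro h0
    rw [h0] at hyp
    simp at hyp
  have hay : 0 < |y| := abs_pos.mpr hy0
  refine ⟨hy0, ?_, ?_, ?_⟩
  · rw [abs_div, abs_div, abs_one, abs_of_pos hxp, div_pow, ← mul_div_assoc,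
      div_le_div_iff₀ hay (by positivity)]
    have : |y| ^ 2 = y ^ 2 := sq_abs y
    calc 1 * |y| ^ 3 = |y| ^ 2 * |y| := by ring
      _ = y ^ 2 * |y| := by rw [this]
      _ ≤ (2 * x ^ 3) * |y| := by
        apply mul_le_mul_of_nonneg_right _ hay.le
        linarith
  · rw [div_pow, ← mul_div_assoc, div_le_div_iff₀ (by norm_num) hyp]
    nlinarith
  · rw [div_pow, ← mul_div_assoc, div_le_iff₀ hyp]
    nlinarith

theorem near_int {A B x y : ℤ} (h : (E A B).toAffine.Nonsingular (x : ℚ) (y : ℚ))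
    (hx : 100 * aa A B ≤ x) :
    Near (Affine.Point.some (x : ℚ) (y : ℚ) h : Pt A B) ∧
      1 / 2 ≤ (x : ℝ) * uu (Affine.Point.some (x : ℚ) (y : ℚ) h : Pt A B) ^ 2 ∧
      (x : ℝ) * uu (Affine.Point.some (x : ℚ) (y : ℚ) h : Pt A B) ^ 2 ≤ 2 := by
  have hE := R3_eqn h
  have e1 : (((x : ℚ) : ℝ)) = (x : ℝ) := by push_cast; rfl
  have e2 : (((y : ℚ) : ℝ)) = (y : ℝ) := by push_cast; rfl
  rw [e1, e2] at hE
  obtain ⟨h1, h2, h3, h4⟩ := R3_int_real (a := (A : ℝ)) (b := (B : ℝ)) (c := aa A B) hE rfl hx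
  have hu : uu (Affine.Point.some (x : ℚ) (y : ℚ) h : Pt A B) = (x : ℝ) / (y : ℝ) := by
    unfold uu
    simp only [e1, e2]
  refine ⟨⟨?_, ?_⟩, ?_, ?_⟩
  · intro h0
    apply h1
    have : y = 0 := by exact_mod_cast h0
    rw [this]; simp
  · rw [e1, e2]; exact h2
  · rw [hu]; exact h3
  · rw [hu]; exact h4

theorem x_ge {A B x y : ℤ} (hE : y ^ 2 = x ^ 3 + A * x + B) : -(aa A B) ≤ x := by
  by_contra hlt
  push Not at hlt
  have hE' : (y : ℝ) ^ 2 = (x : ℝ) ^ 3 + (A : ℝ) * (x : ℝ) + (B : ℝ) := by exact_mod_cast hE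
  have ha := abs_nonneg (A : ℝ)
  have hb := abs_nonneg (B : ℝ)
  have haa : aa A B = 2 + |(A : ℝ)| + |(B : ℝ)| := rfl
  obtain ⟨t, ht⟩ : ∃ t : ℝ, t = -(x : ℝ) := ⟨_, rfl⟩
  have hxt : (x : ℝ) = -t := by rw [ht]; ring
  rw [hxt] at hE' hlt
  have h1 : 2 + |(A : ℝ)| + |(B : ℝ)| < t := by rw [← haa]; linarith
  have h2 : -(A : ℝ) * t ≤ |(A : ℝ)| * t := by
    have : -(A : ℝ) ≤ |(A : ℝ)| := neg_le_abs _
    have ht0 : 0 ≤ t := by linarith
    exact mul_le_mul_of_nonneg_right this ht0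
  have h3 : (B : ℝ) ≤ |(B : ℝ)| := le_abs_self _
  have h4 : |(A : ℝ)| * t + |(B : ℝ)| < t ^ 2 := by nlinarith
  have h5 : t ^ 2 ≤ t ^ 3 := by nlinarith [sq_nonneg t]
  have h6 : 0 ≤ (y : ℝ) ^ 2 := sq_nonneg _
  have h7 : (-t) ^ 3 = -(t ^ 3) := by ring
  rw [h7] at hE'
  nlinarith

theorem max_le {A B x y : ℤ} (hE : y ^ 2 = x ^ 3 + A * x + B) :
    max |(x : ℝ)| |(y : ℝ)| ≤ aa A B * (max |(x : ℝ)| 1) ^ 2 := by
  have hE' : (y : ℝ) ^ 2 = (x : ℝ) ^ 3 + (A : ℝ) * (x : ℝ) + (B : ℝ) := by exact_mod_cast hE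
  have ha := abs_nonneg (A : ℝ)
  have hb := abs_nonneg (B : ℝ)
  have haa : aa A B = 2 + |(A : ℝ)| + |(B : ℝ)| := rfl
  obtain ⟨m, hm⟩ : ∃ m : ℝ, m = max |(x : ℝ)| 1 := ⟨_, rfl⟩
  rw [← hm]
  have hm1 : 1 ≤ m := by rw [hm]; exact le_max_right _ _
  have hmx : |(x : ℝ)| ≤ m := by rw [hm]; exact le_max_left _ _
  have hA2 : 2 ≤ aa A B := aa_ge A B
  have hmm : m ≤ m ^ 2 := by nlinarith
  have hm2p : 0 < m ^ 2 := by positivity
  apply _root_.max_le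
  · nlinarith
  · have h1 : (x : ℝ) ^ 3 ≤ m ^ 3 := by
      calc (x : ℝ) ^ 3 ≤ |(x : ℝ) ^ 3| := le_abs_self _
        _ = |(x : ℝ)| ^ 3 := abs_pow _ _
        _ ≤ m ^ 3 := pow_le_pow_left₀ (abs_nonneg _) hmx 3
    have h2 : (A : ℝ) * (x : ℝ) ≤ |(A : ℝ)| * m := by
      calc (A : ℝ) * (x : ℝ) ≤ |(A : ℝ) * (x : ℝ)| := le_abs_self _
        _ = |(A : ℝ)| * |(x : ℝ)| := abs_mul _ _
        _ ≤ |(A : ℝ)| * m := mul_le_mul_of_nonneg_left hmx ha
    have h3 : (B : ℝ) ≤ |(B : ℝ)| := le_abs_self _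
    have hm3 : m ≤ m ^ 3 := by nlinarith [mul_nonneg (by linarith : (0:ℝ) ≤ m) (by linarith : (0:ℝ) ≤ m - 1)]
    have hm3' : 1 ≤ m ^ 3 := by linarith
    have h4 : (y : ℝ) ^ 2 ≤ aa A B * m ^ 3 := by
      rw [hE', haa]
      nlinarith
    have h5 : aa A B * m ^ 3 ≤ (aa A B * m ^ 2) ^ 2 := by
      have e1 : m ^ 3 ≤ m ^ 4 := by
        have : 0 < m ^ 3 := by linarith
        calc m ^ 3 = m ^ 3 * 1 := by ring
          _ ≤ m ^ 3 * m := mul_le_mul_of_nonneg_left hm1 this.le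
          _ = m ^ 4 := by ring
      have e2 : aa A B ≤ aa A B ^ 2 := by nlinarith
      calc aa A B * m ^ 3 ≤ aa A B ^ 2 * m ^ 4 := by
            apply mul_le_mul e2 e1 (by positivity) (by positivity)
        _ = (aa A B * m ^ 2) ^ 2 := by ring
    exact abs_le_of_sq_le_sq (h4.trans h5) (by positivity)

theorem torsion_zero {C₀ : ℝ} (hC₀ : 0 ≤ C₀) {A B : ℤ} {hh : Pt A B → ℝ} (hc : IsCan C₀ hh)
    {T : Pt A B} (hT : IsOfFinAddOrder T) (hN : Near T)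
    (hu : |uu T| < Real.exp (-((C₀ + 10) * ell A B))) : T = 0 := by
  have h0 : hh T = 0 := hh_of_finite hc.par hT
  have hcl := hc.close T
  rw [h0, zero_sub, abs_neg] at hcl
  have hnh : nh T ≤ C₀ * ell A B := (le_abs_self _).trans hcl
  cases T with
  | zero => rfl
  | some x y h =>
    exfalso
    obtain ⟨L, hL⟩ : ∃ L, L = ell A B := ⟨_, rfl⟩
    have hLge : 1 / 2 ≤ L := by rw [hL]; exact ell_ge A B
    have hea : Real.exp L = aa A B := by rw [hL]; exact exp_ell A B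
    have haa2 := aa_ge A B
    rw [← hL] at hu hnh
    obtain ⟨u, hudef⟩ : ∃ u, u = uu (Affine.Point.some x y h : Pt A B) := ⟨_, rfl⟩
    rw [← hudef] at hu
    have hu2 : u ^ 2 ≤ Real.exp (-((2 * C₀ + 20) * L)) := by
      have h1 : |u| ^ 2 ≤ (Real.exp (-((C₀ + 10) * L))) ^ 2 :=
        pow_le_pow_left₀ (abs_nonneg u) hu.le 2
      rw [sq_abs, ← Real.exp_nat_mul] at h1
      refine h1.trans (le_of_eq ?_)
      congr 1
      push_cast
      ring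
    have hlog2 : (0.69 : ℝ) < L := by
      have h1 : Real.log 2 ≤ L := by
        rw [hL]
        exact Real.log_le_log (by norm_num) haa2
      have h2 := Real.log_two_gt_d9
      linarith
    have hsmall : aa A B * u ^ 2 ≤ 1 / 1000 := by
      rw [← hea]
      calc Real.exp L * u ^ 2 ≤ Real.exp L * Real.exp (-((2 * C₀ + 20) * L)) := by gcongr
        _ = Real.exp (L + -((2 * C₀ + 20) * L)) := (Real.exp_add _ _).symm
        _ ≤ Real.exp (-(10 : ℝ)) := by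
          apply Real.exp_le_exp.mpr
          nlinarith [mul_nonneg hC₀ (by linarith : (0 : ℝ) ≤ L)]
        _ ≤ 1 / 1000 := by
          rw [Real.exp_neg, ← one_div]
          apply one_div_le_one_div_of_le (by norm_num)
          have h1 : (2 : ℝ) ≤ Real.exp 1 := by
            have := Real.add_one_le_exp (1 : ℝ)
            linarith
          calc (1000 : ℝ) ≤ 2 ^ 10 := by norm_num
            _ ≤ (Real.exp 1) ^ 10 := pow_le_pow_left₀ (by norm_num) h1 10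
            _ = Real.exp 10 := by
              rw [← Real.exp_nat_mul]
              norm_num
    have hx := (near_x h hN (by rw [← hudef]; exact hsmall)).1
    rw [← hudef] at hx
    have hu0 : 0 < u ^ 2 := by
      rcases (sq_nonneg u).lt_or_eq with h1 | h1
      · exact h1
      · rw [← h1] at hx
        norm_num at hx
    have hxlow : Real.exp (C₀ * L) < (x : ℝ) := by
      have h1 : Real.exp (C₀ * L) * u ^ 2 < (x : ℝ) * u ^ 2 := by
        have h2 : Real.exp (C₀ * L) * u ^ 2 ≤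
            Real.exp (C₀ * L) * Real.exp (-((2 * C₀ + 20) * L)) := by gcongr
        have h3 : Real.exp (C₀ * L) * Real.exp (-((2 * C₀ + 20) * L)) ≤ Real.exp (-(10 : ℝ)) := by
          rw [← Real.exp_add]
          apply Real.exp_le_exp.mpr
          nlinarith [mul_nonneg hC₀ (by linarith : (0 : ℝ) ≤ L)]
        have h4 : Real.exp (-(10 : ℝ)) < 1 / 2 := by
          rw [Real.exp_neg, ← one_div]
          apply one_div_lt_one_div_of_lt (by norm_num)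
          have := Real.add_one_le_exp (10 : ℝ)
          linarith
        linarith
      exact lt_of_mul_lt_mul_right h1 hu0.le
    have hlogx : C₀ * L < Real.log |(x : ℝ)| := by
      rw [Real.lt_log_iff_exp_lt (by
        have := Real.exp_pos (C₀ * L)
        exact abs_pos.mpr (by linarith))]
      exact hxlow.trans_le (le_abs_self _)
    have := log_x_le_nh h
    linarith

end Pool.Agent.LibDP24
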