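import Pool.Agent.LibDP24.H3

/-!
ROW H4 (MEDIUM). Counting points of bounded height; the canonical height of a point of infinite order is at least
`exp (-C ell)` (pigeonhole).

PLAN. `count`: a point is `0` or `some x y`, `nh (some x y) = logHeight ![x, 1] = logHeight₁ x = log max(|num x|, den x)`
(`Rat.logHeight₁_eq_log_max`, `logHeight₁_eq_logHeight`), and for given `x` there are at most 2 points (`R = S ∨ R = -S`:
`Affine.Point.eq_or_eq_neg_of_xRep_eq_xRep`, see also `finite_nh_le` in LibBH2/ApproxPar.lean). `num ∈ [-Y, Y]`, `den ∈ [1, Y]`: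
at most `1 + 2 (2Y+1) Y ≤ 7 Y²` points, `Y ≥ 1`. (A cruder count is fine if you change `8` consistently in your proof of
`can_lower`; the statement `count` may be weakened to any absolute constant and exponent, tell helper24.)
`can_lower`: `Y = exp (1 + C₀ ell)`; let `N` be the natural number with `8 Y² < N + 1 ≤ 8 Y² + 1`. If `N² hh R ≤ 1` then
`hh (k • R) = k² hh R ≤ 1` and `nh (k • R) ≤ 1 + C₀ ell = log Y` for `0 ≤ k ≤ N`; these `N + 1` points are pairwise different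
(`(k - k') • R ≠ 0`), contradiction with `count`. So `hh R > 1 / N² ≥ 1 / (9 Y²)² ≥ exp (-C ell)` (`ell ≥ 1/2`).
-/

set_option autoImplicit false

open WeierstrassCurve Height

namespace Pool.Agent.LibDP24

/-- numerator and denominator of the `x`-coordinate -/
private noncomputable def H4_key {A B : ℤ} (R : Pt A B) : ℤ × ℤ := ((R.xRep 0).num, ((R.xRep 0).den : ℤ))

private theorem H4_xRep {A B : ℤ} {R : Pt A B} (hR : R ≠ 0) : R.xRep = ![R.xRep 0, 1] := by
  rcases R with _ | ⟨x, y, h⟩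
  · exact absurd rfl hR
  · rfl

private theorem H4_fibre {A B : ℤ} {R S : Pt A B} (hR : R ≠ 0) (hS : S ≠ 0) (h : H4_key R = H4_key S) :
    R = S ∨ R = -S := by
  have h1 : R.xRep 0 = S.xRep 0 := by
    have h2 := (Prod.mk.inj h).1
    have h3 := (Prod.mk.inj h).2
    exact Rat.ext h2 (by exact_mod_cast h3)
  refine Affine.Point.eq_or_eq_neg_of_xRep_eq_xRep ?_
  rw [H4_xRep hR, H4_xRep hS, h1]

private theorem H4_bound {A B : ℤ} {Y : ℝ} (hY : 1 ≤ Y) {R : Pt A B} (hR : R ≠ 0) (h : nh R ≤ Real.log Y) :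
    (R.xRep 0).num.natAbs ≤ ⌊Y⌋₊ ∧ (R.xRep 0).den ≤ ⌊Y⌋₊ := by
  have h1 : nh R = Real.log ((max (R.xRep 0).num.natAbs (R.xRep 0).den : ℕ) : ℝ) := by
    unfold nh
    rw [H4_xRep hR, ← logHeight₁_eq_logHeight, Rat.logHeight₁_eq_log_max]
    rfl
  rw [h1] at h
  have hd : 0 < (R.xRep 0).den := (R.xRep 0).den_pos
  have h2 : (0 : ℝ) < ((max (R.xRep 0).num.natAbs (R.xRep 0).den : ℕ) : ℝ) := by
    exact_mod_cast lt_of_lt_of_le hd (le_max_right _ _)
  have h3 : ((max (R.xRep 0).num.natAbs (R.xRep 0).den : ℕ) : ℝ) ≤ Y :=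
    (Real.log_le_log_iff h2 (by linarith)).1 h
  have h4 : max (R.xRep 0).num.natAbs (R.xRep 0).den ≤ ⌊Y⌋₊ := Nat.le_floor h3
  exact ⟨(le_max_left _ _).trans h4, (le_max_right _ _).trans h4⟩

theorem count {A B : ℤ} (Y : ℝ) (hY : 1 ≤ Y) (s : Finset (Pt A B))
    (hs : ∀ R ∈ s, nh R ≤ Real.log Y) : (s.card : ℝ) ≤ 8 * Y ^ 2 := by
  classical
  set N : ℕ := ⌊Y⌋₊ with hN
  have hNY : (N : ℝ) ≤ Y := Nat.floor_le (by linarith)
  have h1 : ((s.erase 0).image H4_key) ⊆ (Finset.Icc (-(N : ℤ)) N) ×ˢ (Finset.Icc (1 : ℤ) N) := by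
    intro a ha
    obtain ⟨R, hR, rfl⟩ := Finset.mem_image.1 ha
    have hR0 : R ≠ 0 := Finset.ne_of_mem_erase hR
    obtain ⟨h2, h3⟩ := H4_bound hY hR0 (hs R (Finset.mem_of_mem_erase hR))
    have h4 : 0 < (R.xRep 0).den := (R.xRep 0).den_pos
    rw [Finset.mem_product, Finset.mem_Icc, Finset.mem_Icc]
    change (-(N : ℤ) ≤ (R.xRep 0).num ∧ (R.xRep 0).num ≤ N) ∧ ((1 : ℤ) ≤ ((R.xRep 0).den : ℤ) ∧
      ((R.xRep 0).den : ℤ) ≤ N)
    omega
  have h2 : (s.erase 0).card ≤ 2 * ((s.erase 0).image H4_key).card := by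
    refine Finset.card_le_mul_card_image _ _ fun a ha => ?_
    obtain ⟨R, hR, rfl⟩ := Finset.mem_image.1 ha
    have h3 : (s.erase 0).filter (fun S => H4_key S = H4_key R) ⊆ ({R, -R} : Finset (Pt A B)) := by
      intro S hS
      rw [Finset.mem_filter] at hS
      rw [Finset.mem_insert, Finset.mem_singleton]
      exact H4_fibre (Finset.ne_of_mem_erase hS.1) (Finset.ne_of_mem_erase hR) hS.2
    exact (Finset.card_le_card h3).trans Finset.card_le_two
  have h3 : ((s.erase 0).image H4_key).card ≤ (2 * N + 1) * N := by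
    refine (Finset.card_le_card h1).trans (le_of_eq ?_)
    rw [Finset.card_product, Int.card_Icc, Int.card_Icc]
    congr 1 <;> omega
  have h4 : s.card ≤ (s.erase 0).card + 1 := by
    have := Finset.pred_card_le_card_erase (s := s) (a := 0)
    omega
  have h5 : s.card ≤ 2 * ((2 * N + 1) * N) + 1 := by
    have := Nat.mul_le_mul_left 2 h3
    omega
  have h6 : (s.card : ℝ) ≤ 2 * ((2 * (N : ℝ) + 1) * N) + 1 := by exact_mod_cast h5
  have h7 : (0 : ℝ) ≤ N := Nat.cast_nonneg N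
  nlinarith

theorem can_lower (C₀ : ℝ) (hC₀ : 0 ≤ C₀) : ∃ C : ℝ, 0 ≤ C ∧ ∀ A B : ℤ, ∀ hh : Pt A B → ℝ, IsCan C₀ hh →
    ∀ R : Pt A B, ¬ IsOfFinAddOrder R → Real.exp (-(C * ell A B)) ≤ hh R := by
  refine ⟨170 + 4 * C₀, by linarith, fun A B hh hcan R hR => ?_⟩
  classical
  set L : ℝ := ell A B with hL
  have hL2 : 1 / 2 ≤ L := ell_ge A B
  set Y : ℝ := Real.exp (1 + C₀ * L) with hYdef
  have hCL : 0 ≤ C₀ * L := mul_nonneg hC₀ (by linarith)
  have hY : 1 ≤ Y := Real.one_le_exp (by linarith)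
  have hlog : Real.log Y = 1 + C₀ * L := Real.log_exp _
  set N : ℕ := ⌈8 * Y ^ 2⌉₊ with hN
  have hN1 : 8 * Y ^ 2 ≤ N := Nat.le_ceil _
  have hN2 : (N : ℝ) < 8 * Y ^ 2 + 1 := Nat.ceil_lt_add_one (by positivity)
  have hYsq : 1 ≤ Y ^ 2 := one_le_pow₀ hY
  have hN3 : (N : ℝ) ≤ 9 * Y ^ 2 := by linarith
  have hN0 : (0 : ℝ) < N := by linarith
  have hR0 : 0 ≤ hh R := hcan.nonneg R
  have key : 1 < (N : ℝ) ^ 2 * hh R := by
    by_contra hcon
    rw [not_lt] at hcon
    have hinj : Function.Injective (fun n : ℕ => n • R) := injective_nsmul_iff_not_isOfFinAddOrder.2 hR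
    have hcard : ((Finset.range (N + 1)).image fun n : ℕ => n • R).card = N + 1 := by
      rw [Finset.card_image_of_injective _ hinj, Finset.card_range]
    have h1 := count Y hY ((Finset.range (N + 1)).image fun n : ℕ => n • R) ?_
    · rw [hcard] at h1
      push_cast at h1
      linarith
    · intro S hS
      obtain ⟨k, hk, rfl⟩ := Finset.mem_image.1 hS
      rw [Finset.mem_range] at hk
      have h2 : hh (k • R) = (k : ℝ) ^ 2 * hh R := by
        have h3 := hh_zsmul hcan.par (k : ℤ) R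
        rw [natCast_zsmul] at h3
        rw [h3]
        push_cast
        ring
      have h3 : (k : ℝ) ≤ N := by exact_mod_cast Nat.lt_succ_iff.1 hk
      have h4 : (k : ℝ) ^ 2 ≤ (N : ℝ) ^ 2 := by
        have h5 : (0 : ℝ) ≤ k := Nat.cast_nonneg k
        nlinarith
      have h5 : hh (k • R) ≤ 1 := by
        rw [h2]
        exact (mul_le_mul_of_nonneg_right h4 hR0).trans hcon
      have h6 := (abs_le.1 (hcan.close (k • R))).1
      rw [hlog]
      change nh (k • R) ≤ 1 + C₀ * L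
      linarith
  have h1 : (N : ℝ) ^ 2 ≤ 81 * Y ^ 4 := by
    have h2 : (N : ℝ) * N ≤ (9 * Y ^ 2) * (9 * Y ^ 2) := mul_le_mul hN3 hN3 hN0.le (by positivity)
    nlinarith
  have h2 : 81 * Y ^ 4 ≤ Real.exp ((170 + 4 * C₀) * L) := by
    have h3 : Y ^ 4 = Real.exp (4 * (1 + C₀ * L)) := by
      rw [hYdef, ← Real.exp_nat_mul]
      norm_num
    have h4 : (81 : ℝ) ≤ Real.exp 81 := by
      have := Real.add_one_le_exp (81 : ℝ)
      linarith
    rw [h3]
    refine (mul_le_mul_of_nonneg_right h4 (Real.exp_pos _).le).trans ?_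
    rw [← Real.exp_add]
    refine Real.exp_le_exp.2 ?_
    nlinarith
  have h3 : 1 < Real.exp ((170 + 4 * C₀) * L) * hh R :=
    key.trans_le (mul_le_mul_of_nonneg_right (h1.trans h2) hR0)
  rw [Real.exp_neg, inv_le_iff_one_le_mul₀ (Real.exp_pos _), mul_comm]
  exact h3.le

end Pool.Agent.LibDP24
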