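import Pool.Agent.LibDP24.G1
import Pool.Agent.LibDP24.H4
import Pool.Agent.LibDP24.D2

/-!
ROW G2 (MEDIUM). Exact relations with small coefficients between dependent large integral points; comparison of sizes.

PLAN. `zero_relation`: `C₁` from `can_int_upper hPB C₀`, `C₂` from `can_lower C₀`; `Q = exp (C₁ ℓ)`, `lam = exp (-C₂ ℓ)`,
`L = ⌈(s+1) exp ((C₁+C₂) ℓ / 2)⌉₊ + 1 ≤ exp (C₃ ℓ)`, so `(s+1)² Q < lam L²`, `small_relation`: `|a i| ≤ L^(s+1) + 1 ≤ exp (c ℓ)`. Then `combo C₀ c (s+1)`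
(second claim) gives the last part.
`compare`: relation `a` for `Fin.cons P₀ Q` (`K ≥` the one of `zero_relation`): `a 0 • P₀ + ∑ a (i+1) • Q i = 0`, `a 0 ≠ 0` because `Q` is
independent and `a ≠ 0`. First claim of `combo`: `|a 0 u₀| ≤ ∑ |a (i+1)| |u_i| + (1/4) (|a 0 u₀| + ∑ |a (i+1)| |u_i|)`, so
`|u₀| ≤ |a 0 u₀| ≤ 2 ∑ |a (i+1)||u_i| ≤ 2 s exp (c ℓ) max |u_i|`, with `1/2 ≤ x u² ≤ 2` (`near_int`) `1/(2 x₀) ≤ u₀² ≤ 4 s² exp (2cℓ) * 2 / X` (`X > 0`; for `X ≤ 0` the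
claim is trivial because `x₀ > 0`). For `s = 0` the inequality `|a 0 u₀| ≤ (1/4)|a 0 u₀|` is absurd (`u₀ ≠ 0`).
-/

set_option autoImplicit false

open WeierstrassCurve

namespace Pool.Agent.LibDP24

private theorem G2_const {c t : ℝ} (hc : 1 ≤ c) (ht : 1 / 2 ≤ t) : c ≤ Real.exp (2 * Real.log c * t) := by
  have h1 : 0 ≤ Real.log c := Real.log_nonneg hc
  calc c = Real.exp (Real.log c) := (Real.exp_log (by linarith)).symm
    _ ≤ _ := Real.exp_le_exp.2 (by nlinarith)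

/-- the size of the multiplier -/
private theorem G2_size (r : ℕ) {C t : ℝ} (hC : 0 ≤ C) (ht : 1 / 2 ≤ t) :
    ∃ L : ℕ, 0 < L ∧ ((r : ℝ) + 1) * Real.exp (C * t) < L ∧
      (((r + 1) * (L ^ (r + 1) + 1) : ℕ) : ℝ) ≤
        Real.exp ((2 * Real.log (2 * ((r : ℝ) + 1) * ((r : ℝ) + 3) ^ (r + 1)) + ((r : ℝ) + 1) * C) * t) := by
  have hr : (0 : ℝ) ≤ r := Nat.cast_nonneg r
  obtain ⟨e, he⟩ : ∃ e, e = Real.exp (C * t) := ⟨_, rfl⟩
  have he1 : 1 ≤ e := by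
    rw [he]
    exact Real.one_le_exp (by nlinarith)
  refine ⟨⌈((r : ℝ) + 1) * e⌉₊ + 1, Nat.succ_pos _, ?_, ?_⟩
  · rw [← he]
    push_cast
    have := Nat.le_ceil (((r : ℝ) + 1) * e)
    linarith
  · obtain ⟨L, hL⟩ : ∃ L : ℕ, L = ⌈((r : ℝ) + 1) * e⌉₊ + 1 := ⟨_, rfl⟩
    rw [← hL]
    have hL1 : (1 : ℝ) ≤ L := by
      rw [hL]
      push_cast
      have : (0 : ℝ) ≤ (⌈((r : ℝ) + 1) * e⌉₊ : ℝ) := Nat.cast_nonneg _
      linarith
    have hL2 : (L : ℝ) ≤ ((r : ℝ) + 3) * e := by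
      rw [hL]
      push_cast
      have := Nat.ceil_lt_add_one (show (0 : ℝ) ≤ ((r : ℝ) + 1) * e by positivity)
      nlinarith
    have hLp : (L : ℝ) ^ (r + 1) ≤ ((r : ℝ) + 3) ^ (r + 1) * e ^ (r + 1) := by
      rw [← mul_pow]
      exact pow_le_pow_left₀ (by linarith) hL2 _
    have hL3 : (1 : ℝ) ≤ (L : ℝ) ^ (r + 1) := one_le_pow₀ hL1
    have hc : (1 : ℝ) ≤ 2 * ((r : ℝ) + 1) * ((r : ℝ) + 3) ^ (r + 1) := by
      have h1 : (1 : ℝ) ≤ ((r : ℝ) + 3) ^ (r + 1) := one_le_pow₀ (by linarith)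
      nlinarith
    have hex : e ^ (r + 1) = Real.exp (((r : ℝ) + 1) * C * t) := by
      rw [he, ← Real.exp_nat_mul]
      congr 1
      push_cast
      ring
    calc (((r + 1) * (L ^ (r + 1) + 1) : ℕ) : ℝ) = ((r : ℝ) + 1) * ((L : ℝ) ^ (r + 1) + 1) := by
          push_cast
          ring
      _ ≤ ((r : ℝ) + 1) * (2 * (((r : ℝ) + 3) ^ (r + 1) * e ^ (r + 1))) := by
          apply mul_le_mul_of_nonneg_left _ (by linarith)
          linarith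
      _ = (2 * ((r : ℝ) + 1) * ((r : ℝ) + 3) ^ (r + 1)) * e ^ (r + 1) := by ring
      _ ≤ Real.exp (2 * Real.log (2 * ((r : ℝ) + 1) * ((r : ℝ) + 3) ^ (r + 1)) * t) *
          Real.exp (((r : ℝ) + 1) * C * t) := by
          rw [hex]
          exact mul_le_mul_of_nonneg_right (G2_const hc ht) (Real.exp_pos _).le
      _ = _ := by
          rw [← Real.exp_add]
          congr 1
          ring

theorem zero_relation (hPB : PB) (C₀ : ℝ) (hC₀ : 0 ≤ C₀) (s : ℕ) : ∃ K c : ℝ, 1 ≤ K ∧ 0 ≤ c ∧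
    ∀ A B : ℤ, 4 * A ^ 3 + 27 * B ^ 2 ≠ 0 → ∀ hh : Pt A B → ℝ, IsCan C₀ hh →
    ∀ (P : Fin (s + 1) → Pt A B) (x : Fin (s + 1) → ℤ), (∀ i, IsInt (P i) (x i)) →
      ¬ LinearIndependent ℤ P →
      ∃ a : Fin (s + 1) → ℤ, a ≠ 0 ∧ (∀ i, |(a i : ℝ)| ≤ Real.exp (c * ell A B)) ∧
        IsOfFinAddOrder (∑ i, a i • P i) ∧
        ((∀ i, Real.exp (K * ell A B) ≤ x i) → ∑ i, a i • P i = 0) := by
  obtain ⟨C₁, hC₁, hup⟩ := can_int_upper hPB C₀ hC₀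
  obtain ⟨C₂, hC₂, hlo⟩ := can_lower C₀ hC₀
  have hs : (0 : ℝ) ≤ s := Nat.cast_nonneg s
  obtain ⟨c, hc⟩ : ∃ c, c = 2 * Real.log (2 * ((s : ℝ) + 1) * ((s : ℝ) + 3) ^ (s + 1)) +
    ((s : ℝ) + 1) * ((C₁ + C₂) / 2) := ⟨_, rfl⟩
  have hc0 : 0 ≤ c := by
    have h1 : (1 : ℝ) ≤ ((s : ℝ) + 3) ^ (s + 1) := one_le_pow₀ (by linarith)
    have h2 : 0 ≤ Real.log (2 * ((s : ℝ) + 1) * ((s : ℝ) + 3) ^ (s + 1)) :=
      Real.log_nonneg (by nlinarith)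
    have h3 : 0 ≤ ((s : ℝ) + 1) * ((C₁ + C₂) / 2) := by positivity
    rw [hc]
    linarith
  obtain ⟨K, C₃, hK, -, hcomb⟩ := combo C₀ c hC₀ hc0 (s + 1)
  refine ⟨K, c, hK, hc0, fun A B hD hh hcan P x hP hdep => ?_⟩
  have ht := ell_ge A B
  obtain ⟨L, hL, hL1, hL2⟩ := G2_size s (C := (C₁ + C₂) / 2) (t := ell A B) (by linarith) ht
  rw [← hc] at hL2
  obtain ⟨a, ha0, ha, hT⟩ := small_relation (hh := hh) hcan.par hcan.nonneg
    (lam := Real.exp (-(C₂ * ell A B))) (Q := Real.exp (C₁ * ell A B))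
    (fun R hR => hlo A B hh hcan R hR) P hdep (fun i => by
      obtain ⟨y, h, hPi⟩ := hP i
      rw [hPi]
      exact hup A B hD hh hcan (x i) y h) L hL (by
      have h1 : Real.exp (C₁ * ell A B) =
          Real.exp (-(C₂ * ell A B)) * Real.exp ((C₁ + C₂) / 2 * ell A B) ^ 2 := by
        rw [← Real.exp_nat_mul, ← Real.exp_add]
        congr 1
        push_cast
        ring
      have h2 : (((s : ℝ) + 1) * Real.exp ((C₁ + C₂) / 2 * ell A B)) ^ 2 < (L : ℝ) ^ 2 :=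
        pow_lt_pow_left₀ hL1 (by positivity) (by norm_num)
      rw [h1]
      calc ((s : ℝ) + 1) ^ 2 * (Real.exp (-(C₂ * ell A B)) *
            Real.exp ((C₁ + C₂) / 2 * ell A B) ^ 2) =
          Real.exp (-(C₂ * ell A B)) *
            (((s : ℝ) + 1) * Real.exp ((C₁ + C₂) / 2 * ell A B)) ^ 2 := by ring
        _ < Real.exp (-(C₂ * ell A B)) * (L : ℝ) ^ 2 := mul_lt_mul_of_pos_left h2 (Real.exp_pos _))
  have hac : ∀ i, |(a i : ℝ)| ≤ Real.exp (c * ell A B) := fun i => by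
    have h1 : |(a i : ℝ)| ≤ (L : ℝ) ^ (s + 1) + 1 := by exact_mod_cast ha i
    refine h1.trans (le_trans ?_ hL2)
    push_cast
    have h2 : (0 : ℝ) ≤ (L : ℝ) ^ (s + 1) := by positivity
    nlinarith
  exact ⟨a, ha0, hac, hT, fun hx => (hcomb A B hh hcan P x hP hx a hac).2.1 hT⟩

/-- the comparison of sizes, only real numbers -/
private theorem G2_real {s : ℕ} {e X x₀ a₀ u₀ : ℝ} {b u x : Fin s → ℝ} (he : 0 < e) (hX : 0 < X)
    (hx₀ : 0 < x₀) (ha₀ : 1 ≤ |a₀|) (h0 : 1 / 2 ≤ x₀ * u₀ ^ 2) (hb : ∀ i, |b i| ≤ e)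
    (hx : ∀ i, X ≤ x i) (hu : ∀ i, x i * u i ^ 2 ≤ 2)
    (h : |a₀ * u₀ + ∑ i, b i * u i| ≤ 1 / 4 * (|a₀| * |u₀| + ∑ i, |b i| * |u i|)) :
    X ≤ 16 * (s : ℝ) ^ 2 * e ^ 2 * x₀ := by
  obtain ⟨v, hv, hv2⟩ : ∃ v : ℝ, 0 ≤ v ∧ v ^ 2 = 2 / X :=
    ⟨√(2 / X), Real.sqrt_nonneg _, Real.sq_sqrt (by positivity)⟩
  have hui : ∀ i, |u i| ≤ v := fun i => by
    apply abs_le_of_sq_le_sq _ hv
    rw [hv2, le_div_iff₀ hX]
    have h1 := hu i
    have h2 : X * u i ^ 2 ≤ x i * u i ^ 2 := mul_le_mul_of_nonneg_right (hx i) (sq_nonneg _)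
    linarith
  obtain ⟨U, hU⟩ : ∃ U, U = ∑ i, |b i| * |u i| := ⟨_, rfl⟩
  have hU1 : U ≤ s * (e * v) := by
    rw [hU]
    refine (Finset.sum_le_sum fun i _ => mul_le_mul (hb i) (hui i) (abs_nonneg _) he.le).trans ?_
    rw [Finset.sum_const, Finset.card_univ, Fintype.card_fin, nsmul_eq_mul]
  have hU2 : |∑ i, b i * u i| ≤ U := by
    rw [hU]
    refine (Finset.abs_sum_le_sum_abs _ _).trans (le_of_eq ?_)
    exact Finset.sum_congr rfl fun i _ => abs_mul _ _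
  have h1 : |a₀| * |u₀| ≤ |a₀ * u₀ + ∑ i, b i * u i| + |∑ i, b i * u i| := by
    rw [← abs_mul]
    have h2 := abs_sub (a₀ * u₀ + ∑ i, b i * u i) (∑ i, b i * u i)
    rwa [add_sub_cancel_right] at h2
  have h2 : |u₀| ≤ |a₀| * |u₀| := le_mul_of_one_le_left (abs_nonneg _) ha₀
  have hU0 : 0 ≤ U := (abs_nonneg _).trans hU2
  have h3 : |u₀| ≤ 2 * (s * (e * v)) := by
    rw [← hU] at h
    linarith
  have h4 : u₀ ^ 2 ≤ (2 * (s * (e * v))) ^ 2 := by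
    rw [← sq_abs u₀]
    exact pow_le_pow_left₀ (abs_nonneg _) h3 2
  have h5 : (2 * (s * (e * v))) ^ 2 = 8 * (s : ℝ) ^ 2 * e ^ 2 / X := by
    have : (2 * (s * (e * v))) ^ 2 = 4 * (s : ℝ) ^ 2 * e ^ 2 * v ^ 2 := by ring
    rw [this, hv2]
    ring
  rw [h5] at h4
  have h6 : 1 / 2 ≤ x₀ * (8 * (s : ℝ) ^ 2 * e ^ 2 / X) :=
    h0.trans (mul_le_mul_of_nonneg_left h4 hx₀.le)
  have h7 : x₀ * (8 * (s : ℝ) ^ 2 * e ^ 2 / X) = (8 * (s : ℝ) ^ 2 * e ^ 2 * x₀) / X := by ring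
  rw [h7, le_div_iff₀ hX] at h6
  linarith

theorem compare (hPB : PB) (C₀ : ℝ) (hC₀ : 0 ≤ C₀) (s : ℕ) : ∃ K : ℝ, 1 ≤ K ∧
    ∀ A B : ℤ, 4 * A ^ 3 + 27 * B ^ 2 ≠ 0 → ∀ hh : Pt A B → ℝ, IsCan C₀ hh →
    ∀ (P₀ : Pt A B) (x₀ : ℤ) (Q : Fin s → Pt A B) (x : Fin s → ℤ), IsInt P₀ x₀ →
      (∀ i, IsInt (Q i) (x i)) → Real.exp (K * ell A B) ≤ x₀ →
      (∀ i, Real.exp (K * ell A B) ≤ x i) → LinearIndependent ℤ Q →
      ¬ LinearIndependent ℤ (Fin.cons P₀ Q : Fin (s + 1) → Pt A B) →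
      ∀ X : ℝ, (∀ i, X ≤ x i) → X ≤ Real.exp (K * ell A B) * x₀ := by
  obtain ⟨K₁, c, hK₁, hc, hrel⟩ := zero_relation hPB C₀ hC₀ s
  obtain ⟨K₂, C₃, hK₂, -, hcomb⟩ := combo C₀ c hC₀ hc (s + 1)
  have hs : (0 : ℝ) ≤ s := Nat.cast_nonneg s
  obtain ⟨d, hd⟩ : ∃ d, d = 2 * Real.log (16 * ((s : ℝ) + 1) ^ 2) := ⟨_, rfl⟩
  have hd1 : (1 : ℝ) ≤ 16 * ((s : ℝ) + 1) ^ 2 := by nlinarith
  have hd0 : 0 ≤ d := by
    rw [hd]
    have := Real.log_nonneg hd1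
    linarith
  have hl : 0 ≤ Real.log 100 := Real.log_nonneg (by norm_num)
  refine ⟨K₁ + K₂ + (1 + 2 * Real.log 100) + 2 * c + d, by linarith,
    fun A B hD hh hcan P₀ x₀ Q x hP₀ hQ hx₀ hx hind hdep X hX => ?_⟩
  have ht := ell_ge A B
  obtain ⟨t, htt⟩ : ∃ t, t = ell A B := ⟨_, rfl⟩
  have hexp : ∀ k : ℝ, k ≤ K₁ + K₂ + (1 + 2 * Real.log 100) + 2 * c + d →
      Real.exp (k * ell A B) ≤
        Real.exp ((K₁ + K₂ + (1 + 2 * Real.log 100) + 2 * c + d) * ell A B) := fun k hk =>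
    Real.exp_le_exp.2 (mul_le_mul_of_nonneg_right hk (by linarith))
  have hx₀p : (0 : ℝ) < x₀ := lt_of_lt_of_le (Real.exp_pos _) hx₀
  rcases le_or_gt X 0 with hX0 | hX0
  · exact hX0.trans (by positivity)
  have h100 : 100 * aa A B ≤ Real.exp ((1 + 2 * Real.log 100) * ell A B) := by
    have h1 := G2_const (c := 100) (by norm_num) ht
    rw [← exp_ell, show (1 + 2 * Real.log 100) * ell A B = 2 * Real.log 100 * ell A B + ell A B by ring,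
      Real.exp_add]
    exact mul_le_mul_of_nonneg_right h1 (Real.exp_pos _).le
  have hP : ∀ i, IsInt ((Fin.cons P₀ Q : Fin (s + 1) → Pt A B) i) ((Fin.cons x₀ x : Fin (s + 1) → ℤ) i) := by
    intro i
    refine Fin.cases ?_ (fun j => ?_) i
    · simpa using hP₀
    · simpa using hQ j
  have hxx : ∀ i, Real.exp ((K₁ + K₂ + (1 + 2 * Real.log 100) + 2 * c + d) * ell A B) ≤
      (((Fin.cons x₀ x : Fin (s + 1) → ℤ) i : ℤ) : ℝ) := by
    intro i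
    refine Fin.cases ?_ (fun j => ?_) i
    · simpa using hx₀
    · simpa using hx j
  obtain ⟨a, ha0, hac, hT, hzero⟩ := hrel A B hD hh hcan _ _ hP hdep
  have hz := hzero fun i => (hexp K₁ (by linarith)).trans (hxx i)
  have hco := (hcomb A B hh hcan _ _ hP (fun i => (hexp K₂ (by linarith)).trans (hxx i)) a hac).1
  rw [hz] at hco
  rw [Fin.sum_univ_succ] at hz
  simp only [Fin.cons_zero, Fin.cons_succ] at hz
  have ha00 : a 0 ≠ 0 := by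
    intro h0
    rw [h0, zero_zsmul, zero_add] at hz
    have h1 := Fintype.linearIndependent_iff.1 hind (fun i => a i.succ) hz
    apply ha0
    funext i
    refine Fin.cases ?_ (fun j => ?_) i
    · exact h0
    · exact h1 j
  have hu0 : uu (0 : Pt A B) = 0 := rfl
  rw [hu0, Fin.sum_univ_succ, Fin.sum_univ_succ] at hco
  simp only [Fin.cons_zero, Fin.cons_succ] at hco
  rw [zero_sub, abs_neg] at hco
  have hni : ∀ (R : Pt A B) (z : ℤ), IsInt R z →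
      Real.exp ((K₁ + K₂ + (1 + 2 * Real.log 100) + 2 * c + d) * ell A B) ≤ z →
      1 / 2 ≤ (z : ℝ) * uu R ^ 2 ∧ (z : ℝ) * uu R ^ 2 ≤ 2 := by
    rintro R z ⟨y, h, rfl⟩ hz'
    have h1 := near_int h (h100.trans ((hexp _ (by linarith)).trans hz'))
    exact h1.2
  have hmain := G2_real (s := s) (e := Real.exp (c * ell A B)) (X := X) (x₀ := x₀) (a₀ := a 0)
    (u₀ := uu P₀) (b := fun i => (a i.succ : ℝ)) (u := fun i => uu (Q i)) (x := fun i => (x i : ℝ))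
    (Real.exp_pos _) hX0 hx₀p (by
      have h1 : 1 ≤ |a 0| := Int.one_le_abs ha00
      exact_mod_cast h1) (hni _ _ hP₀ hx₀).1 (fun i => hac i.succ) hX
    (fun i => (hni _ _ (hQ i) (hx i)).2) hco
  refine hmain.trans (mul_le_mul_of_nonneg_right ?_ hx₀p.le)
  have h1 : 16 * (s : ℝ) ^ 2 ≤ Real.exp (d * ell A B) := by
    have h2 := G2_const hd1 ht
    rw [← hd] at h2
    refine le_trans ?_ h2
    nlinarith
  calc 16 * (s : ℝ) ^ 2 * Real.exp (c * ell A B) ^ 2 ≤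
        Real.exp (d * ell A B) * Real.exp (c * ell A B) ^ 2 :=
        mul_le_mul_of_nonneg_right h1 (by positivity)
    _ = Real.exp ((2 * c + d) * ell A B) := by
        rw [← Real.exp_nat_mul, ← Real.exp_add]
        congr 1
        push_cast
        ring
    _ ≤ _ := hexp _ (by linarith)

end Pool.Agent.LibDP24
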