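import Pool.Agent.LibDP24.G2
import Pool.Agent.LibDP24.G4A

/-!
ROW G4 (MEDIUM/STRONG). `2^s` integral points of comparable size in rank `≤ s` are small (cites H3, G1, G2, G4A as stated).

PLAN. `t = 2^s`. `zero_relation hPB C₀ n` for all `n ≤ s`: a common `c` with `|a i| ≤ exp (c ℓ)`, `B = ⌊exp (c ℓ)⌋₊`. Suppose `X ≥ exp (K ℓ)`. `parity` gives
`i, j, c` with `|c k| ≤ t B + 2 ≤ exp (c' ℓ)`; `R = ∑ c k • P k`. All combinations below (`R`, `P i - R`, `P i - 2 R`, `P i - P j - 2 R`) are `∑ a k • P k`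
with `|a k| ≤ 2 exp (c' ℓ) + 2 ≤ exp (c'' ℓ)`: apply `combo C₀ c'' t` (`K`, `C₁`). By its second claim the torsion element is 0.
Case `P i = 2 R`: `R ≠ 0`, `hh (P i) = 4 hh R ≥ 4 (log X - C₁ ℓ)`, but `hh (P i) ≤ nh + C₀ ℓ = log x_i + C₀ ℓ ≤ log X + (c₁ + C₀) ℓ` (`nh_int`).
Case `P i - P j = 2 R`, `i ≠ j`: `S = P i - R`, `S + R = P i`, `S - R = P j`; `R ≠ 0` and `S ≠ 0` because `x i ≠ x j` (`S = 0` gives `P j = - P i`, same x). `par`:
`hh (P i) + hh (P j) = 2 hh S + 2 hh R ≥ 4 (log X - C₁ ℓ)`, and `≤ 2 (log X + (c₁ + C₀) ℓ)`. Both cases: `log X ≤ (4 C₁ + 2 c₁ + 2 C₀) ℓ`; take `K` larger.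
-/

set_option autoImplicit false

open WeierstrassCurve

namespace Pool.Agent.LibDP24

private theorem G4_abs {a : ℤ} {b : ℝ} (h : |(a : ℝ)| ≤ b) : |a| ≤ ((⌊b⌋₊ : ℕ) : ℤ) := by
  have h1 : ((a.natAbs : ℕ) : ℝ) ≤ b := by
    rw [Nat.cast_natAbs]
    push_cast
    exact h
  have h2 : a.natAbs ≤ ⌊b⌋₊ := Nat.le_floor h1
  have h3 : |a| = ((a.natAbs : ℕ) : ℤ) := Int.abs_eq_natAbs a
  rw [h3]
  exact_mod_cast h2

private theorem G4_sum_single {G : Type*} [AddCommGroup G] {t : ℕ} (P : Fin t → G) (i : Fin t) :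
    ∑ k, (if k = i then (1 : ℤ) else 0) • P k = P i := by
  rw [Finset.sum_eq_single i]
  · simp
  · intro b _ hb
    simp [hb]
  · intro h
    exact absurd (Finset.mem_univ i) h

private theorem G4_hh_le {C₀ : ℝ} {A B : ℤ} {hh : Pt A B → ℝ} (hc : IsCan C₀ hh)
    {R : Pt A B} {x : ℤ} (hR : IsInt R x) (hx : 1 ≤ (x : ℝ)) : hh R ≤ Real.log x + C₀ * ell A B := by
  obtain ⟨y, h, rfl⟩ := hR
  have h1 := (abs_le.1 (hc.close (Affine.Point.some (x : ℚ) (y : ℚ) h))).2
  have h2 := nh_int h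
  have h3 : max |(x : ℝ)| 1 = (x : ℝ) := by
    rw [abs_of_nonneg (by linarith), max_eq_left hx]
  rw [h3] at h2
  linarith

private theorem G4_ne_zero {A B : ℤ} {R : Pt A B} {x : ℤ} (hR : IsInt R x) : R ≠ 0 := by
  obtain ⟨y, h, rfl⟩ := hR
  exact Affine.Point.some_ne_zero h

private theorem G4_x_eq {A B : ℤ} {R S : Pt A B} {x x' : ℤ} (hR : IsInt R x) (hS : IsInt S x')
    (h : R = S ∨ R = -S) : x = x' := by
  obtain ⟨y, h1, rfl⟩ := hR
  obtain ⟨y', h2, rfl⟩ := hS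
  have : (x : ℚ) = (x' : ℚ) := by
    rcases h with h | h
    · exact (Affine.Point.some.inj h).1
    · rw [Affine.Point.neg_some] at h
      exact (Affine.Point.some.inj h).1
  exact_mod_cast this

theorem class_window (hPB : PB) (C₀ : ℝ) (hC₀ : 0 ≤ C₀) (s : ℕ) (c₁ : ℝ) (hc₁ : 0 ≤ c₁) :
    ∃ K : ℝ, 1 ≤ K ∧
    ∀ A B : ℤ, 4 * A ^ 3 + 27 * B ^ 2 ≠ 0 → ∀ hh : Pt A B → ℝ, IsCan C₀ hh →
    ∀ (P : Fin (2 ^ s) → Pt A B) (x : Fin (2 ^ s) → ℤ), (∀ i, IsInt (P i) (x i)) →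
      Function.Injective x →
      (∀ f : Fin (s + 1) → Fin (2 ^ s), ¬ LinearIndependent ℤ (P ∘ f)) →
      ∀ X : ℝ, (∀ i, X ≤ x i) → (∀ i, (x i : ℝ) ≤ Real.exp (c₁ * ell A B) * X) →
        X < Real.exp (K * ell A B) := by
  choose Kf cf hK1 hc0 hrelf using fun n => zero_relation hPB C₀ hC₀ n
  set c : ℝ := ∑ n ∈ Finset.range (s + 1), cf n with hcdef
  have hcle : ∀ n ≤ s, cf n ≤ c := fun n hn =>
    Finset.single_le_sum (f := cf) (fun i _ => hc0 i) (Finset.mem_range.2 (by omega))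
  have hc : 0 ≤ c := Finset.sum_nonneg fun i _ => hc0 i
  set t : ℕ := 2 ^ s with ht
  set c' : ℝ := c + 2 * Real.log ((t : ℝ) + 2) with hc'def
  set c'' : ℝ := c' + 2 * Real.log 4 with hc''def
  have htr : (0 : ℝ) ≤ (t : ℝ) := Nat.cast_nonneg t
  have hlt : 0 ≤ Real.log ((t : ℝ) + 2) := Real.log_nonneg (by linarith)
  have hl4 : 0 ≤ Real.log (4 : ℝ) := Real.log_nonneg (by norm_num)
  have hc' : 0 ≤ c' := by rw [hc'def]; linarith
  have hc'' : 0 ≤ c'' := by rw [hc''def]; linarith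
  obtain ⟨K', C₁, hK', hC₁, hcombo⟩ := combo C₀ c'' hC₀ hc'' t
  refine ⟨K' + 4 * C₁ + 2 * c₁ + 2 * C₀ + 1, by linarith, ?_⟩
  intro A B hD hh hcan P x hint hinj hrank X hX hX'
  by_contra hcon
  push Not at hcon
  set l : ℝ := ell A B with hl
  have hl2 : 1 / 2 ≤ l := ell_ge A B
  have hXpos : 0 < X := lt_of_lt_of_le (Real.exp_pos _) hcon
  have hlogX : (K' + 4 * C₁ + 2 * c₁ + 2 * C₀ + 1) * l ≤ Real.log X := (Real.le_log_iff_exp_le hXpos).2 hcon
  have hbig : ∀ i, Real.exp (K' * l) ≤ x i := by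
    intro i
    refine le_trans ?_ (hcon.trans (hX i))
    apply Real.exp_le_exp.2
    have : 0 ≤ (4 * C₁ + 2 * c₁ + 2 * C₀ + 1) * l := by positivity
    nlinarith
  have hx1 : ∀ i, 1 ≤ (x i : ℝ) := by
    intro i
    refine le_trans ?_ (hbig i)
    exact Real.one_le_exp (by positivity)
  have hupp : ∀ i, hh (P i) ≤ Real.log X + (c₁ + C₀) * l := by
    intro i
    have h1 := G4_hh_le hcan (hint i) (hx1 i)
    have h2 : Real.log (x i) ≤ c₁ * l + Real.log X := by
      have h3 := Real.log_le_log (by linarith [hx1 i]) (hX' i)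
      rw [Real.log_mul (Real.exp_pos _).ne' hXpos.ne', Real.log_exp] at h3
      exact h3
    rw [← hl] at h1
    linarith
  have hcb := hcombo A B hh hcan P x hint hbig
  -- the parity relation
  obtain ⟨i, j, d, hd, hpar⟩ := parity (le_refl (2 ^ s)) P hrank ⌊Real.exp (c * l)⌋₊ (by
    intro n f hn hnl
    obtain ⟨a, ha0, hab, hat, _⟩ := hrelf n A B hD hh hcan (P ∘ f) (x ∘ f) (fun i => hint (f i)) hnl
    refine ⟨a, ha0, fun i => G4_abs ((hab i).trans ?_), hat⟩
    apply Real.exp_le_exp.2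
    exact mul_le_mul_of_nonneg_right (hcle n hn) (by linarith))
  have hexp1 : 1 ≤ Real.exp (c * l) := Real.one_le_exp (by positivity)
  have hE' : ((t : ℝ) + 2) * Real.exp (c * l) ≤ Real.exp (c' * l) := by
    rw [hc'def, show (c + 2 * Real.log ((t : ℝ) + 2)) * l = c * l + 2 * Real.log ((t : ℝ) + 2) * l by ring, Real.exp_add,
      mul_comm ((t : ℝ) + 2)]
    apply mul_le_mul_of_nonneg_left _ (Real.exp_pos _).le
    have h1 : Real.log ((t : ℝ) + 2) ≤ 2 * Real.log ((t : ℝ) + 2) * l := by nlinarith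
    calc (t : ℝ) + 2 = Real.exp (Real.log ((t : ℝ) + 2)) := (Real.exp_log (by linarith)).symm
      _ ≤ _ := Real.exp_le_exp.2 h1
  have hE'' : 4 * Real.exp (c' * l) ≤ Real.exp (c'' * l) := by
    rw [hc''def, show (c' + 2 * Real.log 4) * l = c' * l + 2 * Real.log 4 * l by ring, Real.exp_add,
      mul_comm (4 : ℝ)]
    apply mul_le_mul_of_nonneg_left _ (Real.exp_pos _).le
    have h1 : Real.log (4 : ℝ) ≤ 2 * Real.log 4 * l := by nlinarith
    calc (4 : ℝ) = Real.exp (Real.log 4) := (Real.exp_log (by norm_num)).symm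
      _ ≤ _ := Real.exp_le_exp.2 h1
  have hE1 : 1 ≤ Real.exp (c' * l) := Real.one_le_exp (by positivity)
  have hdk : ∀ k, |(d k : ℝ)| ≤ Real.exp (c' * l) := by
    intro k
    have h1 : ((|d k| : ℤ) : ℝ) ≤ (((2 ^ s : ℕ) : ℤ) * ((⌊Real.exp (c * l)⌋₊ : ℕ) : ℤ) + 2 : ℤ) := by
      exact_mod_cast hd k
    have h2 : ((⌊Real.exp (c * l)⌋₊ : ℕ) : ℝ) ≤ Real.exp (c * l) := Nat.floor_le (Real.exp_pos _).le
    have h3 : |(d k : ℝ)| ≤ (t : ℝ) * ((⌊Real.exp (c * l)⌋₊ : ℕ) : ℝ) + 2 := by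
      rw [ht]
      push_cast at h1 ⊢
      exact h1
    have h4 : (t : ℝ) * ((⌊Real.exp (c * l)⌋₊ : ℕ) : ℝ) ≤ (t : ℝ) * Real.exp (c * l) :=
      mul_le_mul_of_nonneg_left h2 htr
    linarith
  set R : Pt A B := ∑ k, d k • P k with hR
  have hlow : ∀ a : Fin (2 ^ s) → ℤ, (∀ k, |(a k : ℝ)| ≤ 2 * Real.exp (c' * l) + 2) →
      (IsOfFinAddOrder (∑ i, a i • P i) → ∑ i, a i • P i = 0) ∧
      (∑ i, a i • P i ≠ 0 → Real.log X - C₁ * l ≤ hh (∑ i, a i • P i)) := by
    intro a ha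
    obtain ⟨_, h2, h3⟩ := hcb a (fun k => (ha k).trans (by linarith))
    exact ⟨h2, fun h => h3 h X hXpos hX⟩
  have hlowR : R ≠ 0 → Real.log X - C₁ * l ≤ hh R :=
    (hlow d (fun k => (hdk k).trans (by linarith))).2
  have hδ : ∀ k i : Fin (2 ^ s), |(((if k = i then (1 : ℤ) else 0) : ℤ) : ℝ)| ≤ 1 := by
    intro k i
    split_ifs <;> simp
  have hz2 : (2 : ℤ) • (0 : Pt A B) = 0 := by
    rw [two_zsmul]
    exact add_zero _
  have hlX : 0 ≤ (4 * C₁ + 2 * c₁ + 2 * C₀) * l := by positivity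
  have hK'l : 0 ≤ K' * l := by positivity
  have hprodC : 0 ≤ C₁ * l := by positivity
  have hprodc : 0 ≤ c₁ * l := by positivity
  have hprodC0 : 0 ≤ C₀ * l := by positivity
  rcases hpar with hpar | ⟨hij, hpar⟩
  · -- case P i = 2 R
    have e1 : P i - (2 : ℤ) • R = ∑ k, ((if k = i then (1 : ℤ) else 0) - 2 * d k) • P k := by
      simp only [sub_smul, Finset.sum_sub_distrib, G4_sum_single, mul_smul]
      rw [hR, Finset.smul_sum]
    have e2 : P i - (2 : ℤ) • R = 0 := by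
      have h1 := (hlow (fun k => (if k = i then (1 : ℤ) else 0) - 2 * d k) (fun k => by
        push_cast
        have ha := abs_sub ((if k = i then (1 : ℤ) else 0 : ℤ) : ℝ) (2 * (d k : ℝ))
        have hb := hδ k i
        have hc2 : |2 * (d k : ℝ)| = 2 * |(d k : ℝ)| := by rw [abs_mul, abs_two]
        have hd2 := hdk k
        push_cast at ha hb
        linarith)).1
      rw [← e1] at h1
      exact h1 hpar
    have e3 : P i = (2 : ℤ) • R := sub_eq_zero.1 e2
    have hR0 : R ≠ 0 := by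
      intro h0
      rw [h0, hz2] at e3
      exact G4_ne_zero (hint i) e3
    have h4 : hh (P i) = ((2 : ℤ) : ℝ) ^ 2 * hh R := by
      rw [e3]
      exact hh_zsmul hcan.par 2 R
    have h5 := hlowR hR0
    have h6 := hupp i
    push_cast at h4
    nlinarith
  · -- case P i - P j = 2 R
    have e1 : P i - P j - (2 : ℤ) • R =
        ∑ k, ((if k = i then (1 : ℤ) else 0) - (if k = j then (1 : ℤ) else 0) - 2 * d k) • P k := by
      simp only [sub_smul, Finset.sum_sub_distrib, G4_sum_single, mul_smul]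
      rw [hR, Finset.smul_sum]
    have e2 : P i - P j - (2 : ℤ) • R = 0 := by
      have h1 := (hlow (fun k => (if k = i then (1 : ℤ) else 0) - (if k = j then (1 : ℤ) else 0) - 2 * d k)
        (fun k => by
        push_cast
        have ha := abs_sub (((if k = i then (1 : ℤ) else 0 : ℤ) : ℝ) - ((if k = j then (1 : ℤ) else 0 : ℤ) : ℝ)) (2 * (d k : ℝ))
        have ha' := abs_sub ((if k = i then (1 : ℤ) else 0 : ℤ) : ℝ) ((if k = j then (1 : ℤ) else 0 : ℤ) : ℝ)
        have hb := hδ k i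
        have hb' := hδ k j
        have hc2 : |2 * (d k : ℝ)| = 2 * |(d k : ℝ)| := by rw [abs_mul, abs_two]
        have hd2 := hdk k
        push_cast at ha ha' hb hb'
        linarith)).1
      rw [← e1] at h1
      exact h1 hpar
    have e3 : P i - P j = (2 : ℤ) • R := sub_eq_zero.1 e2
    have e4 : ∑ k, ((if k = i then (1 : ℤ) else 0) - d k) • P k = P i - R := by
      simp only [sub_smul, Finset.sum_sub_distrib, G4_sum_single]
      rw [hR]
    have hSlow : P i - R ≠ 0 → Real.log X - C₁ * l ≤ hh (P i - R) := by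
      have h1 := (hlow (fun k => (if k = i then (1 : ℤ) else 0) - d k) (fun k => by
        push_cast
        have ha := abs_sub ((if k = i then (1 : ℤ) else 0 : ℤ) : ℝ) (d k : ℝ)
        have hb := hδ k i
        have hd2 := hdk k
        push_cast at ha hb
        linarith)).2
      rw [e4] at h1
      exact h1
    have hRR : (2 : ℤ) • R = R + R := two_zsmul R
    have e5 : P i - R - R = P j := by
      rw [hRR] at e3
      have : P i - R - R = P i - (R + R) := by abel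
      rw [this, ← e3]
      abel
    have e6 : P i - R + R = P i := by abel
    have hR0 : R ≠ 0 := by
      intro h0
      rw [h0, hz2] at e3
      exact hij (hinj (G4_x_eq (hint i) (hint j) (Or.inl (sub_eq_zero.1 e3))))
    have hS0 : P i - R ≠ 0 := by
      intro h0
      have h1 : P i = R := sub_eq_zero.1 h0
      rw [h0, zero_sub, ← h1] at e5
      apply hij
      refine hinj (G4_x_eq (hint i) (hint j) (Or.inr ?_))
      rw [← e5, neg_neg]
    have h4 := hcan.par (P i - R) R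
    rw [e5, e6] at h4
    have h5 := hlowR hR0
    have h6 := hSlow hS0
    have h7 := hupp i
    have h8 := hupp j
    nlinarith

end Pool.Agent.LibDP24
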