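import Pool.Agent.LibDP24.G4

/-!
ROW G5 (MEDIUM/STRONG). Induction on the rank: among `2^(s+1) - s - 1` integral points with different x in rank `≤ s` one is small
(cites G2 `compare`, G4 `class_window` as stated).

PLAN. Induction on `s`. `s = 0`: `N ≥ 1`; `f = fun _ => 0`, `compare` with `s = 0`, `P₀ = P 0`, `Q` empty: if `x 0 ≥ exp (K ℓ)` then every real
`X` is `≤ exp (K ℓ) * x 0`, absurd. (`Fin.cons P₀ Q : Fin 1 → _` is `P ∘ f`.)
Step `s → s + 1`: `K = max` of the constants of the induction hypothesis, of `compare (s+1)` (`K_c`) and `class_window (s+1) K_c`. Suppose all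
`x i ≥ exp (K ℓ)`. Sort (`Tuple.sort`): wlog `x` strictly monotone. `t = 2^(s+1) - 1`. The top family `P_t, ..., P_{N-1}` has `N - t ≥ 2^(s+1) - s - 1`
elements; by the induction hypothesis (contrapositive) some `f : Fin (s+1) → Fin N` with values `≥ t` has `P ∘ f` linearly independent. For every
`i ≤ t`: `Fin.cons (P i) (P ∘ f) = P ∘ (Fin.cons i f)` is dependent by hypothesis, so `compare` with `X = x t` gives `x t ≤ exp (K_c ℓ) * x i`. So the `2^(s+1)` points
`P_0, ..., P_t` satisfy the hypotheses of `class_window` with `X = x 0`, `c₁ = K_c`: `x 0 < exp (K ℓ)`, contradiction.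
-/

set_option autoImplicit false

open WeierstrassCurve

namespace Pool.Agent.LibDP24

private theorem G5_cons {α : Type*} {N n : ℕ} (P : Fin N → α) (i : Fin N) (g : Fin n → Fin N) :
    (Fin.cons (P i) (P ∘ g) : Fin (n + 1) → α) = P ∘ (Fin.cons i g : Fin (n + 1) → Fin N) := by
  funext j
  refine Fin.cases ?_ (fun k => ?_) j
  · simp
  · simp

private theorem G5_exp {A B : ℤ} {K L : ℝ} (h : K ≤ L) :
    Real.exp (K * ell A B) ≤ Real.exp (L * ell A B) := by
  apply Real.exp_le_exp.mpr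
  have := ell_ge A B
  exact mul_le_mul_of_nonneg_right h (by linarith)

private theorem G5_pow (s : ℕ) : s + 2 ≤ 2 ^ (s + 1) := by
  induction s with
  | zero => norm_num
  | succ n ih => rw [pow_succ]; omega

/-- the strictly monotone case -/
private theorem G5_mono (hPB : PB) (C₀ : ℝ) (hC₀ : 0 ≤ C₀) (s : ℕ) : ∃ K : ℝ, 1 ≤ K ∧
    ∀ A B : ℤ, 4 * A ^ 3 + 27 * B ^ 2 ≠ 0 → ∀ hh : Pt A B → ℝ, IsCan C₀ hh →
    ∀ (N : ℕ), 2 ^ (s + 1) ≤ N + s + 1 → ∀ (P : Fin N → Pt A B) (x : Fin N → ℤ),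
      (∀ i, IsInt (P i) (x i)) → StrictMono x →
      (∀ f : Fin (s + 1) → Fin N, ¬ LinearIndependent ℤ (P ∘ f)) →
      ∃ i, (x i : ℝ) < Real.exp (K * ell A B) := by
  induction s with
  | zero =>
    obtain ⟨K, hK1, hK⟩ := compare hPB C₀ hC₀ 0
    refine ⟨K, hK1, ?_⟩
    intro A B hD hh hcan N hN P x hP hx hdep
    have hN1 : 0 < N := by
      simp at hN
      omega
    by_contra hcon
    push Not at hcon
    set i0 : Fin N := ⟨0, hN1⟩ with hi0
    let g : Fin 0 → Fin N := fun j => j.elim0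
    have h := hK A B hD hh hcan (P i0) (x i0) (P ∘ g) (x ∘ g) (hP i0) (fun j => j.elim0)
      (hcon i0) (fun j => j.elim0) (linearIndependent_empty_type)
      (by
        rw [G5_cons P i0 g]
        exact hdep _)
      (Real.exp (K * ell A B) * (x i0 : ℝ) + 1) (fun j => j.elim0)
    linarith
  | succ s ih =>
    obtain ⟨K₁, hK₁1, hK₁⟩ := ih
    obtain ⟨K₂, hK₂1, hK₂⟩ := compare hPB C₀ hC₀ (s + 1)
    obtain ⟨K₃, hK₃1, hK₃⟩ := class_window hPB C₀ hC₀ (s + 1) K₂ (by linarith)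
    refine ⟨max K₁ (max K₂ K₃), le_trans hK₁1 (le_max_left _ _), ?_⟩
    intro A B hD hh hcan N hN P x hP hx hdep
    by_contra hcon
    push Not at hcon
    have hle1 : K₁ ≤ max K₁ (max K₂ K₃) := le_max_left _ _
    have hle2 : K₂ ≤ max K₁ (max K₂ K₃) := le_trans (le_max_left _ _) (le_max_right _ _)
    have hle3 : K₃ ≤ max K₁ (max K₂ K₃) := le_trans (le_max_right _ _) (le_max_right _ _)
    generalize max K₁ (max K₂ K₃) = K at hcon hle1 hle2 hle3
    have hpw := G5_pow s
    have hpp : 2 ^ (s + 1 + 1) = 2 * 2 ^ (s + 1) := by rw [pow_succ (2 : ℕ) (s + 1)]; ring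
    rw [hpp] at hN
    have hNge : 2 ^ (s + 1) ≤ N := by omega
    -- the number of elements of the top family
    obtain ⟨M, hM⟩ : ∃ M, N + 1 = 2 ^ (s + 1) + M := ⟨N + 1 - 2 ^ (s + 1), by omega⟩
    have hM1 : 2 ^ (s + 1) ≤ M + s + 1 := by omega
    let emb : Fin M → Fin N := fun j => ⟨2 ^ (s + 1) - 1 + j.1, by have := j.2; omega⟩
    have hembv : ∀ j : Fin M, (emb j).1 = 2 ^ (s + 1) - 1 + j.1 := fun j => rfl
    have hembm : StrictMono emb := by
      intro a b hab
      rw [Fin.lt_def] at hab ⊢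
      rw [hembv, hembv]
      omega
    obtain ⟨f, hf⟩ : ∃ f : Fin (s + 1) → Fin M, LinearIndependent ℤ ((P ∘ emb) ∘ f) := by
      by_contra hno
      push Not at hno
      obtain ⟨i, hi⟩ := hK₁ A B hD hh hcan M hM1 (P ∘ emb) (x ∘ emb) (fun i => hP (emb i))
        (hx.comp hembm) hno
      have h1 := hcon (emb i)
      have h2 := G5_exp (A := A) (B := B) hle1
      have h3 : ((x ∘ emb) i : ℝ) = (x (emb i) : ℝ) := rfl
      rw [h3] at hi
      linarith
    set T : Fin N := ⟨2 ^ (s + 1) - 1, by omega⟩ with hT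
    have hcmp : ∀ i : Fin N, (x T : ℝ) ≤ Real.exp (K₂ * ell A B) * (x i : ℝ) := by
      intro i
      refine hK₂ A B hD hh hcan (P i) (x i) (P ∘ (emb ∘ f)) (x ∘ (emb ∘ f)) (hP i)
        (fun j => hP _) ((G5_exp hle2).trans (hcon i)) (fun j => (G5_exp hle2).trans (hcon _))
        hf ?_ (x T : ℝ) ?_
      · rw [G5_cons P i (emb ∘ f)]
        exact hdep _
      · intro j
        have : T ≤ emb (f j) := by
          rw [Fin.le_def, hembv, hT]
          simp
        exact_mod_cast hx.monotone this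
    let io : Fin (2 ^ (s + 1)) → Fin N := fun j => ⟨j.1, lt_of_lt_of_le j.2 hNge⟩
    have hio : StrictMono io := by
      intro a b hab
      rw [Fin.lt_def] at hab ⊢
      exact hab
    have hpos : 0 < N := by omega
    set Z : Fin N := ⟨0, hpos⟩ with hZ
    have hfin := hK₃ A B hD hh hcan (P ∘ io) (x ∘ io) (fun i => hP _) (hx.comp hio).injective
      (fun g => hdep (io ∘ g)) (x Z : ℝ)
      (by
        intro i
        have : Z ≤ io i := by
          rw [Fin.le_def, hZ]
          exact Nat.zero_le _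
        exact_mod_cast hx.monotone this)
      (by
        intro i
        have h1 : io i ≤ T := by
          rw [Fin.le_def, hT]
          have := i.2
          change i.1 ≤ 2 ^ (s + 1) - 1
          omega
        have h2 : (x (io i) : ℝ) ≤ (x T : ℝ) := by exact_mod_cast hx.monotone h1
        exact h2.trans (hcmp Z))
    have h1 := hcon Z
    have h2 := G5_exp (A := A) (B := B) hle3
    linarith

theorem count_large (hPB : PB) (C₀ : ℝ) (hC₀ : 0 ≤ C₀) (s : ℕ) : ∃ K : ℝ, 1 ≤ K ∧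
    ∀ A B : ℤ, 4 * A ^ 3 + 27 * B ^ 2 ≠ 0 → ∀ hh : Pt A B → ℝ, IsCan C₀ hh →
    ∀ (N : ℕ), 2 ^ (s + 1) ≤ N + s + 1 → ∀ (P : Fin N → Pt A B) (x : Fin N → ℤ),
      (∀ i, IsInt (P i) (x i)) → Function.Injective x →
      (∀ f : Fin (s + 1) → Fin N, ¬ LinearIndependent ℤ (P ∘ f)) →
      ∃ i, (x i : ℝ) < Real.exp (K * ell A B) := by
  obtain ⟨K, hK1, hK⟩ := G5_mono hPB C₀ hC₀ s
  refine ⟨K, hK1, ?_⟩
  intro A B hD hh hcan N hN P x hP hx hdep
  have hs : StrictMono (x ∘ Tuple.sort x) :=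
    (Tuple.monotone_sort x).strictMono_of_injective (hx.comp (Tuple.sort x).injective)
  obtain ⟨i, hi⟩ := hK A B hD hh hcan N hN (P ∘ Tuple.sort x) (x ∘ Tuple.sort x)
    (fun i => hP _) hs (fun f => hdep ((Tuple.sort x) ∘ f))
  exact ⟨Tuple.sort x i, hi⟩

end Pool.Agent.LibDP24
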