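import Pool.Agent.LibDP24.H2
import Pool.Agent.LibDP24.G5

/-!
ROW G6 (MEDIUM). The theorem: in every subgroup of rank `≤ r` of `E(ℚ)` all integral points but at most `2^(r+1) - r - 2` pairs satisfy
the Hall-Lang inequality (cites H2 `exists_can`, R3 `x_ge`, `max_le`, G5 as stated).

PLAN. `C₀` from `exists_can` (`1 ≤ C₀`), `K'` from `count_large hPB C₀ _ r`; `aa A B ≤ 4 * max |A| |B|` (`max ≥ 1` because `(A, B) ≠ (0, 0)`);
`M = 2 K' + 3`, `K = 4 ^ M` (rpow). Let `V` be the set. If `V` is infinite or `2^(r+1) < V.ncard + r + 2`, choose an injective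
`x : Fin N → ℤ` with values in `V`, `N = 2^(r+1) - r - 1` (`Set.exists_subset_card_eq`, `Finset.equivFin`, ...), and the corresponding points `P i ∈ Γ`. If some
`f : Fin (r+1) → Fin N` had `P ∘ f` linearly independent in `E(ℚ)`, then also in `Γ` (`LinearIndependent.of_comp` with the inclusion), so
`r + 1 ≤ Module.rank ℤ Γ ≤ r`, absurd. `count_large`: some `x i < exp (K' ell) = aa ^ K'`, and `x i ≥ -aa` (`x_ge`), so `|x i| ≤ aa ^ (K'+1)`... ,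
`max_le`: `max |x| |y| ≤ aa * (aa ^ (K'+1))² = aa ^ (2K'+3) ≤ K * max ^ M`, contradiction with `x i ∈ V`.
-/

set_option autoImplicit false

open WeierstrassCurve

namespace Pool.Agent.LibDP24

private theorem G6_indep {A B : ℤ} {r : ℕ} (Γ : AddSubgroup (Pt A B)) (hr : Module.rank ℤ Γ ≤ r)
    {N : ℕ} (P : Fin N → Pt A B) (hP : ∀ i, P i ∈ Γ) (f : Fin (r + 1) → Fin N) :
    ¬ LinearIndependent ℤ (P ∘ f) := by
  intro hli
  have h1 : LinearIndependent ℤ (fun i : Fin (r + 1) => (⟨P (f i), hP (f i)⟩ : Γ)) := by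
    apply LinearIndependent.of_comp (Γ.subtype.toIntLinearMap)
    exact hli
  have h2 := h1.cardinal_le_rank
  have h3 : ((r + 1 : ℕ) : Cardinal) ≤ ((r : ℕ) : Cardinal) := by
    refine le_trans ?_ (h2.trans hr)
    simp
  have h4 : r + 1 ≤ r := by exact_mod_cast h3
  omega

private theorem G6_small (hPB : PB) (r : ℕ) : ∃ K' : ℝ, 1 ≤ K' ∧ ∀ A B : ℤ,
    4 * A ^ 3 + 27 * B ^ 2 ≠ 0 → ∀ Γ : AddSubgroup (Pt A B), Module.rank ℤ Γ ≤ r →
      ∀ W : Finset ℤ, 2 ^ (r + 1) ≤ W.card + r + 1 →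
      (∀ x ∈ W, ∃ (y : ℤ) (h : (E A B).toAffine.Nonsingular (x : ℚ) (y : ℚ)),
        (Affine.Point.some (x : ℚ) (y : ℚ) h : Pt A B) ∈ Γ) →
      ∃ x ∈ W, (x : ℝ) < aa A B ^ K' := by
  obtain ⟨C₀, hC₀, hcan⟩ := exists_can
  obtain ⟨K', hK', hcount⟩ := count_large hPB C₀ (by linarith) r
  refine ⟨K', hK', ?_⟩
  intro A B hD Γ hr W hW hΓ
  obtain ⟨hh, hcc⟩ := hcan A B hD
  choose! y h hyh using hΓ
  let e : Fin W.card ≃ W := W.equivFin.symm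
  let P : Fin W.card → Pt A B := fun i =>
    Affine.Point.some ((e i : ℤ) : ℚ) ((y (e i) : ℤ) : ℚ) (h (e i) (e i).2)
  obtain ⟨i, hi⟩ := hcount A B hD hh hcc W.card hW P (fun i => (e i : ℤ))
    (fun i => ⟨y (e i), h (e i) (e i).2, rfl⟩)
    (fun i j hij => e.injective (Subtype.ext hij))
    (G6_indep Γ hr P (fun i => hyh (e i) (e i).2))
  refine ⟨(e i : ℤ), (e i).2, ?_⟩
  have h1 : aa A B ^ K' = Real.exp (K' * ell A B) := by
    rw [← exp_ell A B, ← Real.exp_mul, mul_comm]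
  rw [h1]
  exact hi

private theorem G6_aa {A B : ℤ} (hD : 4 * A ^ 3 + 27 * B ^ 2 ≠ 0) :
    aa A B ≤ 4 * max |(A : ℝ)| |(B : ℝ)| := by
  have h1 : (1 : ℝ) ≤ max |(A : ℝ)| |(B : ℝ)| := by
    by_cases hA : A = 0
    · have hB : B ≠ 0 := by
        rintro rfl
        apply hD
        rw [hA]
        norm_num
      have h2 : (1 : ℤ) ≤ |B| := Int.one_le_abs hB
      have h3 : (1 : ℝ) ≤ |(B : ℝ)| := by exact_mod_cast h2
      exact h3.trans (le_max_right _ _)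
    · have h2 : (1 : ℤ) ≤ |A| := Int.one_le_abs hA
      have h3 : (1 : ℝ) ≤ |(A : ℝ)| := by exact_mod_cast h2
      exact h3.trans (le_max_left _ _)
  have hA := le_max_left |(A : ℝ)| |(B : ℝ)|
  have hB := le_max_right |(A : ℝ)| |(B : ℝ)|
  unfold aa
  linarith

private theorem G6_eqn {A B x y : ℤ} (h : (E A B).toAffine.Nonsingular (x : ℚ) (y : ℚ)) :
    y ^ 2 = x ^ 3 + A * x + B := by
  have h1 := (Affine.equation_iff _ _).1 h.1
  simp at h1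
  exact_mod_cast h1

private theorem G6_bound {A B x y : ℤ} {K' : ℝ} (hK' : 1 ≤ K')
    (hD : 4 * A ^ 3 + 27 * B ^ 2 ≠ 0)
    (hE : y ^ 2 = x ^ 3 + A * x + B) (hx : (x : ℝ) < aa A B ^ K') :
    max |(x : ℝ)| |(y : ℝ)| ≤
      (4 : ℝ) ^ (2 * K' + 1) * (max |(A : ℝ)| |(B : ℝ)|) ^ (2 * K' + 1) := by
  have ha := aa_ge A B
  have ha0 : (0 : ℝ) < aa A B := by linarith
  have h1 : aa A B ≤ aa A B ^ K' := by
    calc aa A B = aa A B ^ (1 : ℝ) := (Real.rpow_one _).symm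
      _ ≤ aa A B ^ K' := Real.rpow_le_rpow_of_exponent_le (by linarith) hK'
  have h2 := x_ge hE
  have h3 : |(x : ℝ)| ≤ aa A B ^ K' := by
    rw [abs_le]
    constructor
    · linarith
    · exact hx.le
  have h4 : max |(x : ℝ)| 1 ≤ aa A B ^ K' := _root_.max_le h3 (by linarith)
  have h5 := Pool.Agent.LibDP24.max_le hE
  have h6 : (max |(x : ℝ)| 1) ^ 2 ≤ (aa A B ^ K') ^ 2 :=
    pow_le_pow_left₀ (le_trans zero_le_one (le_max_right _ _)) h4 2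
  have h7 : aa A B * (aa A B ^ K') ^ 2 = aa A B ^ (2 * K' + 1) := by
    rw [Real.rpow_add ha0, Real.rpow_one, mul_comm (2 : ℝ) K', Real.rpow_mul ha0.le,
      Real.rpow_two, mul_comm]
  have h8 : aa A B ^ (2 * K' + 1) ≤ (4 * max |(A : ℝ)| |(B : ℝ)|) ^ (2 * K' + 1) :=
    Real.rpow_le_rpow ha0.le (G6_aa hD) (by linarith)
  rw [Real.mul_rpow (by norm_num) (le_trans (abs_nonneg _) (le_max_left _ _))] at h8
  calc max |(x : ℝ)| |(y : ℝ)| ≤ aa A B * (max |(x : ℝ)| 1) ^ 2 := h5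
    _ ≤ aa A B * (aa A B ^ K') ^ 2 := mul_le_mul_of_nonneg_left h6 ha0.le
    _ = aa A B ^ (2 * K' + 1) := h7
    _ ≤ _ := h8

theorem final2 (hPB : PB) (r : ℕ) : ∃ K M : ℝ, 0 < K ∧ 0 < M ∧ ∀ A B : ℤ,
    4 * A ^ 3 + 27 * B ^ 2 ≠ 0 → ∀ Γ : AddSubgroup (Pt A B), Module.rank ℤ Γ ≤ r →
      {x : ℤ | ∃ (y : ℤ) (h : (E A B).toAffine.Nonsingular (x : ℚ) (y : ℚ)),
        (Affine.Point.some (x : ℚ) (y : ℚ) h : Pt A B) ∈ Γ ∧
        K * (max |(A : ℝ)| |(B : ℝ)|) ^ M < max |(x : ℝ)| |(y : ℝ)|}.Finite ∧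
      {x : ℤ | ∃ (y : ℤ) (h : (E A B).toAffine.Nonsingular (x : ℚ) (y : ℚ)),
        (Affine.Point.some (x : ℚ) (y : ℚ) h : Pt A B) ∈ Γ ∧
        K * (max |(A : ℝ)| |(B : ℝ)|) ^ M < max |(x : ℝ)| |(y : ℝ)|}.ncard + r + 2 ≤ 2 ^ (r + 1) := by
  obtain ⟨K', hK', hsmall⟩ := G6_small hPB r
  refine ⟨(4 : ℝ) ^ (2 * K' + 1), 2 * K' + 1, by positivity, by linarith, ?_⟩
  intro A B hD Γ hr
  set V : Set ℤ := {x : ℤ | ∃ (y : ℤ) (h : (E A B).toAffine.Nonsingular (x : ℚ) (y : ℚ)),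
        (Affine.Point.some (x : ℚ) (y : ℚ) h : Pt A B) ∈ Γ ∧
        (4 : ℝ) ^ (2 * K' + 1) * (max |(A : ℝ)| |(B : ℝ)|) ^ (2 * K' + 1) <
          max |(x : ℝ)| |(y : ℝ)|} with hV
  have key : ∀ W : Finset ℤ, (W : Set ℤ) ⊆ V → ¬ (2 ^ (r + 1) ≤ W.card + r + 1) := by
    intro W hWV hcard
    obtain ⟨x, hxW, hx⟩ := hsmall A B hD Γ hr W hcard (fun x hx => by
      obtain ⟨y, h, hy, -⟩ := hWV hx
      exact ⟨y, h, hy⟩)
    obtain ⟨y, h, -, hlt⟩ := hWV hxW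
    exact absurd (G6_bound hK' hD (G6_eqn h) hx) (not_le.2 hlt)
  have hfin : V.Finite := by
    by_contra hinf
    obtain ⟨W, hWV, hWc⟩ := Set.Infinite.exists_subset_card_eq hinf (2 ^ (r + 1))
    apply key W hWV
    omega
  refine ⟨hfin, ?_⟩
  by_contra hcon
  apply key hfin.toFinset (by simp)
  rw [← Set.ncard_eq_toFinset_card V hfin]
  omega

end Pool.Agent.LibDP24
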