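import Pool.Agent.LibDP24.Defs
import Pool.Agent.LibBH2.AddSub

/-!
ROW H1 (MEDIUM/STRONG). The map `addSubMap` changes the height of a vector of `ℚ³` by a factor `2` up to
`C * log (2 + |A| + |B|)`, with an ABSOLUTE constant `C` (Mathlib's
`WeierstrassCurve.abs_logHeight_addSubMap_sub_two_mul_logHeight_le` has a constant depending on the curve).

PLAN. `v = c • (↑w)` with `w : Fin 3 → ℤ`, `Finset.univ.gcd w = 1`, `c ≠ 0` (clear denominators, divide by the gcd).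
`addSubMap` is homogeneous of degree 2 (or use the explicit formulas `eval_addSubMap_zero`, `_one`, `_two` of
LibBH2.AddSub), `logHeight_smul_eq_logHeight` removes `c` and `c²`. For `w` the three values are the integers
 `F0 = s²-2A s u-4B t u+A² u²`, `F1 = 2ts+2A t u+4B u²`, `F2 = t²-4su`   (w = ![s,t,u]; b₂ = 0, b₄ = 2A, b₆ = 4B, b₈ = -A²).
Let `m = max |w i| ≥ 1`, `a = 2+|A|+|B|`, `g = gcd F` (F ≠ 0 by the identity below), `F = g • F'`, `gcd F' = 1`.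
`Rat.logHeight_eq_max_abs_of_gcd_eq_one`: `logHeight w = log m`, `logHeight F = log (max|F| / g)`.
UPPER: `max|F| ≤ 8 a² m²`, `g ≥ 1`.
LOWER: `addSubMapCoeff_condition` (Mathlib; multiplied by Δ: `∑ j, (addSubMapCoeff W (i,j)).eval w * F j = Δ * w i ^ 4`,
all coefficients are integer polynomials in A, B; `addSubMapCoeff` is not @[expose]d, so reprove the three identities by
`ring` with the explicit coefficients printed in Mathlib/AlgebraicGeometry/EllipticCurve/Affine/AddSubMap.lean, b-invariants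
replaced by the values above). Hence `g ∣ Δ w_i⁴` for all `i`, so `g ∣ Δ` (gcd w = 1), `g ≤ |Δ|` (Δ = -16(4A³+27B²) ≠ 0), and
`|Δ| m⁴ ≤ 3 * (1000 a⁴ m²) * max|F|` (any such constant), so `max|F| / g ≥ m² / (3000 a⁴)`.
`log 8 ≤ 5 * ell`, `log 3000 ≤ 24 * ell` because `ell ≥ log 2`: e.g. `C = 40`.
-/

set_option autoImplicit false

open WeierstrassCurve Height

namespace Pool.Agent.LibDP24

private theorem H1_id0 {R : Type} [CommRing R] (A B s t u : R) :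
    ((-64) * (A ^ 3 * B ^ 0 * (s * s)) + (-432) * (A ^ 0 * B ^ 2 * (s * s)) + (8) * (A ^ 2 * B ^ 1 * (s * t)) + (32) * (A ^ 1 * B ^ 2 * (s * u)) + (-12) * (A ^ 4 * B ^ 0 * (t * t)) + (-96) * (A ^ 1 * B ^ 2 * (t * t)) + (-24) * (A ^ 3 * B ^ 1 * (t * u)) + (-192) * (A ^ 0 * B ^ 3 * (t * u))) *
        (s ^ 2 - 2 * A * s * u - 4 * B * t * u + A ^ 2 * u ^ 2) +
      ((-4) * (A ^ 2 * B ^ 1 * (s * s)) + (-64) * (A ^ 1 * B ^ 2 * (s * t)) + (-10) * (A ^ 4 * B ^ 0 * (s * t)) + (-8) * (A ^ 3 * B ^ 1 * (s * u)) + (-24) * (A ^ 3 * B ^ 1 * (t * t)) + (-192) * (A ^ 0 * B ^ 3 * (t * t)) + (6) * (A ^ 5 * B ^ 0 * (t * u)) + (48) * (A ^ 2 * B ^ 2 * (t * u))) *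
        (2 * t * s + 2 * A * t * u + 4 * B * u ^ 2) +
      ((32) * (A ^ 4 * B ^ 0 * (s * s)) + (224) * (A ^ 1 * B ^ 2 * (s * s)) + (48) * (A ^ 3 * B ^ 1 * (s * t)) + (384) * (A ^ 0 * B ^ 3 * (s * t)) + (-16) * (A ^ 5 * B ^ 0 * (s * u)) + (-128) * (A ^ 2 * B ^ 2 * (s * u))) *
        (t ^ 2 - 4 * s * u) = (-16 * (4 * A ^ 3 + 27 * B ^ 2)) * s ^ 4 := by
  ring

private theorem H1_id1 {R : Type} [CommRing R] (A B s t u : R) :
    ((384) * (A ^ 0 * B ^ 1 * (s * t)) + (64) * (A ^ 2 * B ^ 0 * (t * t)) + (128) * (A ^ 1 * B ^ 1 * (t * u))) *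
        (s ^ 2 - 2 * A * s * u - 4 * B * t * u + A ^ 2 * u ^ 2) +
      ((-192) * (A ^ 0 * B ^ 1 * (s * s)) + (-32) * (A ^ 2 * B ^ 0 * (s * t)) + (128) * (A ^ 1 * B ^ 1 * (t * t)) + (-32) * (A ^ 3 * B ^ 0 * (t * u))) *
        (2 * t * s + 2 * A * t * u + 4 * B * u ^ 2) +
      ((-256) * (A ^ 1 * B ^ 1 * (s * t)) + (-192) * (A ^ 0 * B ^ 2 * (s * u)) + (-64) * (A ^ 3 * B ^ 0 * (t * t)) + (-432) * (A ^ 0 * B ^ 2 * (t * t))) *
        (t ^ 2 - 4 * s * u) = (-16 * (4 * A ^ 3 + 27 * B ^ 2)) * t ^ 4 := by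
  ring

private theorem H1_id2 {R : Type} [CommRing R] (A B s t u : R) :
    ((-12) * (A ^ 0 * B ^ 0 * (t * t)) + (-64) * (A ^ 1 * B ^ 0 * (u * u))) *
        (s ^ 2 - 2 * A * s * u - 4 * B * t * u + A ^ 2 * u ^ 2) +
      ((6) * (A ^ 0 * B ^ 0 * (s * t)) + (-10) * (A ^ 1 * B ^ 0 * (t * u)) + (-108) * (A ^ 0 * B ^ 1 * (u * u))) *
        (2 * t * s + 2 * A * t * u + 4 * B * u ^ 2) +
      ((-16) * (A ^ 1 * B ^ 0 * (s * u)) + (-48) * (A ^ 0 * B ^ 1 * (t * u)) + (32) * (A ^ 2 * B ^ 0 * (u * u))) *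
        (t ^ 2 - 4 * s * u) = (-16 * (4 * A ^ 3 + 27 * B ^ 2)) * u ^ 4 := by
  ring

private theorem H1_mono {A B x y a m : ℝ} (hA : |A| ≤ a) (hB : |B| ≤ a) (ha : 1 ≤ a) (hx : |x| ≤ m) (hy : |y| ≤ m)
    (i j : ℕ) (hij : i + j ≤ 5) :
    -(a ^ 5 * m ^ 2) ≤ A ^ i * B ^ j * (x * y) ∧ A ^ i * B ^ j * (x * y) ≤ a ^ 5 * m ^ 2 := by
  have ha0 : (0 : ℝ) ≤ a := by linarith
  have hm0 : 0 ≤ m := (abs_nonneg x).trans hx
  rw [← abs_le, abs_mul, abs_mul, abs_mul, abs_pow, abs_pow]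
  have h1 : |A| ^ i * |B| ^ j ≤ a ^ 5 := by
    calc |A| ^ i * |B| ^ j ≤ a ^ i * a ^ j :=
          mul_le_mul (pow_le_pow_left₀ (abs_nonneg A) hA i) (pow_le_pow_left₀ (abs_nonneg B) hB j)
            (pow_nonneg (abs_nonneg B) j) (pow_nonneg ha0 i)
      _ = a ^ (i + j) := (pow_add a i j).symm
      _ ≤ a ^ 5 := pow_le_pow_right₀ ha hij
  have h2 : |x| * |y| ≤ m ^ 2 := by
    rw [sq]
    exact mul_le_mul hx hy (abs_nonneg y) hm0
  exact mul_le_mul h1 h2 (mul_nonneg (abs_nonneg x) (abs_nonneg y)) (pow_nonneg ha0 5)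

private theorem H1_three {c0 c1 c2 f0 f1 f2 Q M : ℝ} (h0 : |c0| ≤ 1000 * Q) (h1 : |c1| ≤ 1000 * Q)
    (h2 : |c2| ≤ 1000 * Q) (g0 : |f0| ≤ M) (g1 : |f1| ≤ M) (g2 : |f2| ≤ M) :
    |c0 * f0 + c1 * f1 + c2 * f2| ≤ 3000 * Q * M := by
  have hQ : 0 ≤ 1000 * Q := (abs_nonneg c0).trans h0
  have k0 : |c0 * f0| ≤ 1000 * Q * M := by
    rw [abs_mul]
    exact mul_le_mul h0 g0 (abs_nonneg _) hQ
  have k1 : |c1 * f1| ≤ 1000 * Q * M := by
    rw [abs_mul]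
    exact mul_le_mul h1 g1 (abs_nonneg _) hQ
  have k2 : |c2 * f2| ≤ 1000 * Q * M := by
    rw [abs_mul]
    exact mul_le_mul h2 g2 (abs_nonneg _) hQ
  calc |c0 * f0 + c1 * f1 + c2 * f2| ≤ |c0 * f0| + |c1 * f1| + |c2 * f2| := abs_add_three _ _ _
    _ ≤ 3000 * Q * M := by linarith

private theorem H1_low0 {A B s t u a m M : ℝ} (hA : |A| ≤ a) (hB : |B| ≤ a) (ha : 1 ≤ a) (hs : |s| ≤ m)
    (ht : |t| ≤ m) (hu : |u| ≤ m) (h0 : |s ^ 2 - 2 * A * s * u - 4 * B * t * u + A ^ 2 * u ^ 2| ≤ M)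
    (h1 : |2 * t * s + 2 * A * t * u + 4 * B * u ^ 2| ≤ M) (h2 : |t ^ 2 - 4 * s * u| ≤ M) :
    |(-16 * (4 * A ^ 3 + 27 * B ^ 2)) * s ^ 4| ≤ 3000 * (a ^ 5 * m ^ 2) * M := by
  have hQ : 0 ≤ a ^ 5 * m ^ 2 := by positivity
  rw [← H1_id0]
  refine H1_three ?_ ?_ ?_ h0 h1 h2
  · rw [abs_le]
    obtain ⟨l0, r0⟩ := H1_mono hA hB ha hs hs 3 0 (by norm_num)
    obtain ⟨l1, r1⟩ := H1_mono hA hB ha hs hs 0 2 (by norm_num)
    obtain ⟨l2, r2⟩ := H1_mono hA hB ha hs ht 2 1 (by norm_num)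
    obtain ⟨l3, r3⟩ := H1_mono hA hB ha hs hu 1 2 (by norm_num)
    obtain ⟨l4, r4⟩ := H1_mono hA hB ha ht ht 4 0 (by norm_num)
    obtain ⟨l5, r5⟩ := H1_mono hA hB ha ht ht 1 2 (by norm_num)
    obtain ⟨l6, r6⟩ := H1_mono hA hB ha ht hu 3 1 (by norm_num)
    obtain ⟨l7, r7⟩ := H1_mono hA hB ha ht hu 0 3 (by norm_num)
    constructor <;> linarith
  · rw [abs_le]
    obtain ⟨l0, r0⟩ := H1_mono hA hB ha hs hs 2 1 (by norm_num)
    obtain ⟨l1, r1⟩ := H1_mono hA hB ha hs ht 1 2 (by norm_num)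
    obtain ⟨l2, r2⟩ := H1_mono hA hB ha hs ht 4 0 (by norm_num)
    obtain ⟨l3, r3⟩ := H1_mono hA hB ha hs hu 3 1 (by norm_num)
    obtain ⟨l4, r4⟩ := H1_mono hA hB ha ht ht 3 1 (by norm_num)
    obtain ⟨l5, r5⟩ := H1_mono hA hB ha ht ht 0 3 (by norm_num)
    obtain ⟨l6, r6⟩ := H1_mono hA hB ha ht hu 5 0 (by norm_num)
    obtain ⟨l7, r7⟩ := H1_mono hA hB ha ht hu 2 2 (by norm_num)
    constructor <;> linarith
  · rw [abs_le]
    obtain ⟨l0, r0⟩ := H1_mono hA hB ha hs hs 4 0 (by norm_num)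
    obtain ⟨l1, r1⟩ := H1_mono hA hB ha hs hs 1 2 (by norm_num)
    obtain ⟨l2, r2⟩ := H1_mono hA hB ha hs ht 3 1 (by norm_num)
    obtain ⟨l3, r3⟩ := H1_mono hA hB ha hs ht 0 3 (by norm_num)
    obtain ⟨l4, r4⟩ := H1_mono hA hB ha hs hu 5 0 (by norm_num)
    obtain ⟨l5, r5⟩ := H1_mono hA hB ha hs hu 2 2 (by norm_num)
    constructor <;> linarith

private theorem H1_low1 {A B s t u a m M : ℝ} (hA : |A| ≤ a) (hB : |B| ≤ a) (ha : 1 ≤ a) (hs : |s| ≤ m)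
    (ht : |t| ≤ m) (hu : |u| ≤ m) (h0 : |s ^ 2 - 2 * A * s * u - 4 * B * t * u + A ^ 2 * u ^ 2| ≤ M)
    (h1 : |2 * t * s + 2 * A * t * u + 4 * B * u ^ 2| ≤ M) (h2 : |t ^ 2 - 4 * s * u| ≤ M) :
    |(-16 * (4 * A ^ 3 + 27 * B ^ 2)) * t ^ 4| ≤ 3000 * (a ^ 5 * m ^ 2) * M := by
  have hQ : 0 ≤ a ^ 5 * m ^ 2 := by positivity
  rw [← H1_id1]
  refine H1_three ?_ ?_ ?_ h0 h1 h2
  · rw [abs_le]
    obtain ⟨l0, r0⟩ := H1_mono hA hB ha hs ht 0 1 (by norm_num)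
    obtain ⟨l1, r1⟩ := H1_mono hA hB ha ht ht 2 0 (by norm_num)
    obtain ⟨l2, r2⟩ := H1_mono hA hB ha ht hu 1 1 (by norm_num)
    constructor <;> linarith
  · rw [abs_le]
    obtain ⟨l0, r0⟩ := H1_mono hA hB ha hs hs 0 1 (by norm_num)
    obtain ⟨l1, r1⟩ := H1_mono hA hB ha hs ht 2 0 (by norm_num)
    obtain ⟨l2, r2⟩ := H1_mono hA hB ha ht ht 1 1 (by norm_num)
    obtain ⟨l3, r3⟩ := H1_mono hA hB ha ht hu 3 0 (by norm_num)
    constructor <;> linarith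
  · rw [abs_le]
    obtain ⟨l0, r0⟩ := H1_mono hA hB ha hs ht 1 1 (by norm_num)
    obtain ⟨l1, r1⟩ := H1_mono hA hB ha hs hu 0 2 (by norm_num)
    obtain ⟨l2, r2⟩ := H1_mono hA hB ha ht ht 3 0 (by norm_num)
    obtain ⟨l3, r3⟩ := H1_mono hA hB ha ht ht 0 2 (by norm_num)
    constructor <;> linarith

private theorem H1_low2 {A B s t u a m M : ℝ} (hA : |A| ≤ a) (hB : |B| ≤ a) (ha : 1 ≤ a) (hs : |s| ≤ m)
    (ht : |t| ≤ m) (hu : |u| ≤ m) (h0 : |s ^ 2 - 2 * A * s * u - 4 * B * t * u + A ^ 2 * u ^ 2| ≤ M)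
    (h1 : |2 * t * s + 2 * A * t * u + 4 * B * u ^ 2| ≤ M) (h2 : |t ^ 2 - 4 * s * u| ≤ M) :
    |(-16 * (4 * A ^ 3 + 27 * B ^ 2)) * u ^ 4| ≤ 3000 * (a ^ 5 * m ^ 2) * M := by
  have hQ : 0 ≤ a ^ 5 * m ^ 2 := by positivity
  rw [← H1_id2]
  refine H1_three ?_ ?_ ?_ h0 h1 h2
  · rw [abs_le]
    obtain ⟨l0, r0⟩ := H1_mono hA hB ha ht ht 0 0 (by norm_num)
    obtain ⟨l1, r1⟩ := H1_mono hA hB ha hu hu 1 0 (by norm_num)
    constructor <;> linarith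
  · rw [abs_le]
    obtain ⟨l0, r0⟩ := H1_mono hA hB ha hs ht 0 0 (by norm_num)
    obtain ⟨l1, r1⟩ := H1_mono hA hB ha ht hu 1 0 (by norm_num)
    obtain ⟨l2, r2⟩ := H1_mono hA hB ha hu hu 0 1 (by norm_num)
    constructor <;> linarith
  · rw [abs_le]
    obtain ⟨l0, r0⟩ := H1_mono hA hB ha hs hu 1 0 (by norm_num)
    obtain ⟨l1, r1⟩ := H1_mono hA hB ha ht hu 0 1 (by norm_num)
    obtain ⟨l2, r2⟩ := H1_mono hA hB ha hu hu 2 0 (by norm_num)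
    constructor <;> linarith

/-- primitive integral representatives -/
private theorem H1_prim (v : Fin 3 → ℚ) (hv : v ≠ 0) :
    ∃ (w : Fin 3 → ℤ) (c : ℚ), c ≠ 0 ∧ v = c • (((↑) : ℤ → ℚ) ∘ w) ∧ Finset.univ.gcd w = 1 := by
  obtain ⟨N, hN⟩ : ∃ N : ℕ, N = (v 0).den * (v 1).den * (v 2).den := ⟨_, rfl⟩
  have hN0 : (N : ℚ) ≠ 0 := by
    rw [hN]
    push_cast
    have h0 := (v 0).den_nz
    have h1 := (v 1).den_nz
    have h2 := (v 2).den_nz
    positivity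
  have hint : ∀ i, ∃ z : ℤ, (z : ℚ) = v i * N := by
    intro i
    have key : ∀ q : ℚ, q.den ∣ N → ∃ z : ℤ, (z : ℚ) = q * N := by
      rintro q ⟨k, hk⟩
      refine ⟨q.num * k, ?_⟩
      rw [hk]
      push_cast
      rw [← mul_assoc, Rat.mul_den_eq_num]
    fin_cases i
    · exact key _ ⟨(v 1).den * (v 2).den, by rw [hN]; simp [mul_assoc]⟩
    · exact key _ ⟨(v 0).den * (v 2).den, by rw [hN]; simp; ring⟩
    · exact key _ ⟨(v 0).den * (v 1).den, by rw [hN]; simp; ring⟩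
  choose z hz using hint
  obtain ⟨w, hw1, hw2⟩ := Finset.extract_gcd z (Finset.univ_nonempty (α := Fin 3))
  have hg : Finset.univ.gcd z ≠ 0 := by
    intro h
    rw [Finset.gcd_eq_zero_iff] at h
    apply hv
    funext i
    have h1 := hz i
    rw [h i (Finset.mem_univ i)] at h1
    have h2 : v i * N = 0 := by
      rw [← h1]
      simp
    rcases mul_eq_zero.1 h2 with h3 | h3
    · exact h3
    · exact absurd h3 hN0
  refine ⟨w, (Finset.univ.gcd z : ℤ) / N, div_ne_zero (Int.cast_ne_zero.2 hg) hN0, ?_, hw2⟩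
  funext i
  show v i = ((Finset.univ.gcd z : ℤ) : ℚ) / N * (w i : ℚ)
  have h1 := hz i
  rw [hw1 i (Finset.mem_univ i)] at h1
  push_cast at h1
  rw [div_mul_eq_mul_div, h1, mul_div_assoc, div_self hN0, mul_one]

/-- the height of an integral vector -/
private theorem H1_int (F : Fin 3 → ℤ) (hF : F ≠ 0) :
    ∃ g M : ℤ, 1 ≤ g ∧ 1 ≤ M ∧ (∀ i, g ∣ F i) ∧ (∀ i, |F i| ≤ M) ∧ (∃ i, |F i| = M) ∧ g = Finset.univ.gcd F ∧
      logHeight (((↑) : ℤ → ℚ) ∘ F) = Real.log M - Real.log g := by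
  obtain ⟨F', h1, h2⟩ := Finset.extract_gcd F (Finset.univ_nonempty (α := Fin 3))
  obtain ⟨g, hg⟩ : ∃ g, g = Finset.univ.gcd F := ⟨_, rfl⟩
  rw [← hg] at h1
  have hg0 : g ≠ 0 := by
    intro h
    apply hF
    funext i
    rw [h1 i (Finset.mem_univ i), h, zero_mul]
    rfl
  have hgn : 0 ≤ g := by
    rw [hg]
    have h3 := Finset.normalize_gcd (s := (Finset.univ : Finset (Fin 3))) (f := F)
    rw [← h3]
    exact Int.nonneg_of_normalize_eq_self (by simp)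
  have hg1 : 1 ≤ g := by omega
  obtain ⟨i₀, hi₀⟩ := exists_eq_ciSup_of_finite (f := fun i => |F' i|)
  have hM' : ∀ i, |F' i| ≤ |F' i₀| := by
    intro i
    rw [hi₀]
    exact Finite.le_ciSup (fun i => |F' i|) i
  have hM : ∀ i, |F i| ≤ |F i₀| := by
    intro i
    rw [h1 i (Finset.mem_univ i), h1 i₀ (Finset.mem_univ i₀), abs_mul, abs_mul]
    exact mul_le_mul_of_nonneg_left (hM' i) (abs_nonneg g)
  have hM0 : |F i₀| ≠ 0 := by
    intro h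
    apply hF
    funext i
    have h3 := hM i
    rw [h] at h3
    exact abs_nonpos_iff.1 h3
  have hM1 : 1 ≤ |F i₀| := by
    have := abs_nonneg (F i₀)
    omega
  refine ⟨g, |F i₀|, hg1, hM1, fun i => ⟨F' i, h1 i (Finset.mem_univ i)⟩, hM, ⟨i₀, rfl⟩, hg, ?_⟩
  have h3 : (((↑) : ℤ → ℚ) ∘ F) = (g : ℚ) • (((↑) : ℤ → ℚ) ∘ F') := by
    funext i
    show ((F i : ℤ) : ℚ) = (g : ℚ) * (F' i : ℚ)
    rw [h1 i (Finset.mem_univ i)]
    push_cast
    rfl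
  rw [h3, logHeight_smul_eq_logHeight _ (Int.cast_ne_zero.2 hg0), Rat.logHeight_eq_max_abs_of_gcd_eq_one h2]
  have h4 : (⨆ i, |F' i|) = |F' i₀| := hi₀.symm
  rw [h4, h1 i₀ (Finset.mem_univ i₀), abs_mul, abs_of_nonneg hgn]
  have h5 : |F' i₀| ≠ 0 := by
    intro h
    apply hM0
    rw [h1 i₀ (Finset.mem_univ i₀), abs_mul, h, mul_zero]
  push_cast
  rw [Real.log_mul (by exact_mod_cast hg0) (by exact_mod_cast h5)]
  ring

/-- divisibility by fourth powers of coprime numbers -/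
private theorem H1_dvd {g D : ℤ} {w : Fin 3 → ℤ} (hw : Finset.univ.gcd w = 1) (h : ∀ i, g ∣ D * w i ^ 4) : g ∣ D := by
  have htop : Ideal.span (Set.range w) = ⊤ := by
    rw [Ideal.eq_top_iff_one]
    obtain ⟨f, hf⟩ := Finset.gcd_eq_sum_mul Finset.univ w
    rw [hw] at hf
    rw [hf]
    exact Ideal.sum_mem _ fun i _ => Ideal.mul_mem_right _ _ (Ideal.subset_span ⟨i, rfl⟩)
  have h4 := Ideal.span_pow_eq_top (Set.range w) htop 4
  have key : ∀ x ∈ Ideal.span ((fun x => x ^ 4) '' Set.range w), g ∣ D * x := by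
    intro x hx
    induction hx using Submodule.span_induction with
    | mem x hx =>
      obtain ⟨_, ⟨i, rfl⟩, rfl⟩ := hx
      exact h i
    | zero => simp
    | add x y _ _ hx hy =>
      rw [mul_add]
      exact dvd_add hx hy
    | smul r x _ hx =>
      rw [smul_eq_mul, mul_left_comm]
      exact Dvd.dvd.mul_left hx r
  have h1 := key 1 (by rw [h4]; exact Submodule.mem_top)
  rwa [mul_one] at h1

theorem addSub_height : ∃ C : ℝ, 0 ≤ C ∧ ∀ A B : ℤ, 4 * A ^ 3 + 27 * B ^ 2 ≠ 0 →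
    ∀ v : Fin 3 → ℚ, v ≠ 0 →
      |logHeight (fun i => (addSubMap (E A B) i).eval v) - 2 * logHeight v| ≤ C * ell A B := by
  refine ⟨20, by norm_num, fun A B hD v hv => ?_⟩
  obtain ⟨w, c, hc, rfl, hw⟩ := H1_prim v hv
  have hw0 : w ≠ 0 := by
    rintro rfl
    rw [Finset.gcd_eq_zero_iff.2 (by simp)] at hw
    exact zero_ne_one hw
  obtain ⟨s, hs⟩ : ∃ s, s = w 0 := ⟨_, rfl⟩
  obtain ⟨t, ht⟩ : ∃ t, t = w 1 := ⟨_, rfl⟩
  obtain ⟨u, hu⟩ : ∃ u, u = w 2 := ⟨_, rfl⟩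
  obtain ⟨F, hF⟩ : ∃ F : Fin 3 → ℤ, F = ![s ^ 2 - 2 * A * s * u - 4 * B * t * u + A ^ 2 * u ^ 2,
    2 * t * s + 2 * A * t * u + 4 * B * u ^ 2, t ^ 2 - 4 * s * u] := ⟨_, rfl⟩
  have hF0 : F 0 = s ^ 2 - 2 * A * s * u - 4 * B * t * u + A ^ 2 * u ^ 2 := by rw [hF]; rfl
  have hF1 : F 1 = 2 * t * s + 2 * A * t * u + 4 * B * u ^ 2 := by rw [hF]; rfl
  have hF2 : F 2 = t ^ 2 - 4 * s * u := by rw [hF]; rfl
  -- the values of the map
  have hval : (fun i => (addSubMap (E A B) i).eval (c • (((↑) : ℤ → ℚ) ∘ w))) = (c ^ 2) • (((↑) : ℤ → ℚ) ∘ F) := by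
    funext i
    fin_cases i
    · show (addSubMap (E A B) 0).eval _ = c ^ 2 * ((F 0 : ℤ) : ℚ)
      rw [LibBH2.eval_addSubMap_zero, hF0, hs, ht, hu]
      simp only [WeierstrassCurve.b₄, WeierstrassCurve.b₆, WeierstrassCurve.b₈, Pi.smul_apply, Function.comp_apply,
        smul_eq_mul]
      push_cast
      ring
    · show (addSubMap (E A B) 1).eval _ = c ^ 2 * ((F 1 : ℤ) : ℚ)
      rw [LibBH2.eval_addSubMap_one, hF1, hs, ht, hu]
      simp only [WeierstrassCurve.b₂, WeierstrassCurve.b₄, WeierstrassCurve.b₆, Pi.smul_apply, Function.comp_apply,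
        smul_eq_mul]
      push_cast
      ring
    · show (addSubMap (E A B) 2).eval _ = c ^ 2 * ((F 2 : ℤ) : ℚ)
      rw [LibBH2.eval_addSubMap_two, hF2, hs, ht, hu]
      simp only [Pi.smul_apply, Function.comp_apply, smul_eq_mul]
      push_cast
      ring
  rw [hval, logHeight_smul_eq_logHeight _ (pow_ne_zero 2 hc), logHeight_smul_eq_logHeight _ hc]
  -- the identities
  have i0 := H1_id0 A B s t u
  have i1 := H1_id1 A B s t u
  have i2 := H1_id2 A B s t u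
  rw [← hF0, ← hF1, ← hF2] at i0 i1 i2
  obtain ⟨D, hDd⟩ : ∃ D, D = -16 * (4 * A ^ 3 + 27 * B ^ 2) := ⟨_, rfl⟩
  have hD0 : D ≠ 0 := by
    rw [hDd]
    exact mul_ne_zero (by norm_num) hD
  rw [← hDd] at i0 i1 i2
  have hFne : F ≠ 0 := by
    rintro rfl
    apply hw0
    have hz : ∀ x : ℤ, 0 = D * x ^ 4 → x = 0 := by
      intro x hx
      rcases mul_eq_zero.1 hx.symm with h | h
      · exact absurd h hD0
      · exact eq_zero_of_pow_eq_zero h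
    funext i
    fin_cases i
    · show w 0 = 0
      rw [← hs]
      exact hz s (by simpa using i0)
    · show w 1 = 0
      rw [← ht]
      exact hz t (by simpa using i1)
    · show w 2 = 0
      rw [← hu]
      exact hz u (by simpa using i2)
  obtain ⟨g, M, hg1, hM1, hgF, hFM, ⟨i₁, hi₁⟩, -, hFh⟩ := H1_int F hFne
  obtain ⟨g', m, -, hm1, -, hwm, ⟨i₀, hi₀⟩, hg', hwh⟩ := H1_int w hw0
  rw [hw] at hg'
  rw [hg'] at hwh
  rw [hFh, hwh]
  have hgD : g ∣ D := by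
    refine H1_dvd hw fun i => ?_
    fin_cases i
    · show g ∣ D * w 0 ^ 4
      rw [← hs, ← i0]
      exact dvd_add (dvd_add (Dvd.dvd.mul_left (hgF 0) _) (Dvd.dvd.mul_left (hgF 1) _)) (Dvd.dvd.mul_left (hgF 2) _)
    · show g ∣ D * w 1 ^ 4
      rw [← ht, ← i1]
      exact dvd_add (dvd_add (Dvd.dvd.mul_left (hgF 0) _) (Dvd.dvd.mul_left (hgF 1) _)) (Dvd.dvd.mul_left (hgF 2) _)
    · show g ∣ D * w 2 ^ 4
      rw [← hu, ← i2]
      exact dvd_add (dvd_add (Dvd.dvd.mul_left (hgF 0) _) (Dvd.dvd.mul_left (hgF 1) _)) (Dvd.dvd.mul_left (hgF 2) _)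
  have hgle : g ≤ |D| := Int.le_of_dvd (abs_pos.2 hD0) ((dvd_abs g D).2 hgD)
  -- real numbers
  have ha2 := aa_ge A B
  have hA : |(A : ℝ)| ≤ aa A B := by
    unfold aa
    have := abs_nonneg (B : ℝ)
    linarith
  have hB : |(B : ℝ)| ≤ aa A B := by
    unfold aa
    have := abs_nonneg (A : ℝ)
    linarith
  have hcast : ∀ x y : ℤ, |x| ≤ y → |(x : ℝ)| ≤ (y : ℝ) := fun x y h => by exact_mod_cast h
  have hsm : |(s : ℝ)| ≤ (m : ℝ) := hcast _ _ (by rw [hs]; exact hwm 0)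
  have htm : |(t : ℝ)| ≤ (m : ℝ) := hcast _ _ (by rw [ht]; exact hwm 1)
  have hum : |(u : ℝ)| ≤ (m : ℝ) := hcast _ _ (by rw [hu]; exact hwm 2)
  have f0 : |(s : ℝ) ^ 2 - 2 * (A : ℝ) * s * u - 4 * (B : ℝ) * t * u + (A : ℝ) ^ 2 * (u : ℝ) ^ 2| ≤ (M : ℝ) := by
    have := hcast _ _ (hFM 0)
    rw [hF0] at this
    push_cast at this
    exact this
  have f1 : |2 * (t : ℝ) * s + 2 * (A : ℝ) * t * u + 4 * (B : ℝ) * (u : ℝ) ^ 2| ≤ (M : ℝ) := by
    have := hcast _ _ (hFM 1)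
    rw [hF1] at this
    push_cast at this
    exact this
  have f2 : |(t : ℝ) ^ 2 - 4 * (s : ℝ) * u| ≤ (M : ℝ) := by
    have := hcast _ _ (hFM 2)
    rw [hF2] at this
    push_cast at this
    exact this
  obtain ⟨a, ha⟩ : ∃ a : ℝ, a = aa A B := ⟨_, rfl⟩
  rw [← ha] at ha2 hA hB
  have ha1 : 1 ≤ a := by linarith
  have hmR : (1 : ℝ) ≤ m := by exact_mod_cast hm1
  have hMR : (1 : ℝ) ≤ M := by exact_mod_cast hM1
  have hgR : (1 : ℝ) ≤ g := by exact_mod_cast hg1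
  have hDR : (D : ℝ) = -16 * (4 * (A : ℝ) ^ 3 + 27 * (B : ℝ) ^ 2) := by
    rw [hDd]
    push_cast
    ring
  -- lower bound
  have hlow : |(D : ℝ)| * (m : ℝ) ^ 2 ≤ 3000 * a ^ 5 * M := by
    have h4 : |(D : ℝ)| * (m : ℝ) ^ 4 ≤ 3000 * (a ^ 5 * (m : ℝ) ^ 2) * M := by
      have key : ∀ x : ℤ, |x| = m → |(D : ℝ) * (x : ℝ) ^ 4| = |(D : ℝ)| * (m : ℝ) ^ 4 := by
        intro x hx
        rw [abs_mul, abs_pow]
        have : |(x : ℝ)| = m := by
          rw [← hx]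
          push_cast
          rfl
        rw [this]
      have hi : i₀ = 0 ∨ i₀ = 1 ∨ i₀ = 2 := by
        fin_cases i₀
        · exact Or.inl rfl
        · exact Or.inr (Or.inl rfl)
        · exact Or.inr (Or.inr rfl)
      rcases hi with h | h | h
      · rw [h, ← hs] at hi₀
        rw [← key s hi₀, hDR]
        exact H1_low0 hA hB ha1 hsm htm hum f0 f1 f2
      · rw [h, ← ht] at hi₀
        rw [← key t hi₀, hDR]
        exact H1_low1 hA hB ha1 hsm htm hum f0 f1 f2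
      · rw [h, ← hu] at hi₀
        rw [← key u hi₀, hDR]
        exact H1_low2 hA hB ha1 hsm htm hum f0 f1 f2
    have hm2 : (0 : ℝ) < (m : ℝ) ^ 2 := by positivity
    refine le_of_mul_le_mul_right ?_ hm2
    calc |(D : ℝ)| * (m : ℝ) ^ 2 * (m : ℝ) ^ 2 = |(D : ℝ)| * (m : ℝ) ^ 4 := by ring
      _ ≤ 3000 * (a ^ 5 * (m : ℝ) ^ 2) * M := h4
      _ = 3000 * a ^ 5 * M * (m : ℝ) ^ 2 := by ring
  -- upper bound
  have hup : (M : ℝ) ≤ 8 * a ^ 5 * (m : ℝ) ^ 2 := by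
    have k0 : |(s : ℝ) ^ 2 - 2 * (A : ℝ) * s * u - 4 * (B : ℝ) * t * u + (A : ℝ) ^ 2 * (u : ℝ) ^ 2| ≤
        8 * a ^ 5 * (m : ℝ) ^ 2 := by
      rw [abs_le]
      obtain ⟨l0, r0⟩ := H1_mono hA hB ha1 hsm hsm 0 0 (by norm_num)
      obtain ⟨l1, r1⟩ := H1_mono hA hB ha1 hsm hum 1 0 (by norm_num)
      obtain ⟨l2, r2⟩ := H1_mono hA hB ha1 htm hum 0 1 (by norm_num)
      obtain ⟨l3, r3⟩ := H1_mono hA hB ha1 hum hum 2 0 (by norm_num)
      constructor <;> linarith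
    have k1 : |2 * (t : ℝ) * s + 2 * (A : ℝ) * t * u + 4 * (B : ℝ) * (u : ℝ) ^ 2| ≤ 8 * a ^ 5 * (m : ℝ) ^ 2 := by
      rw [abs_le]
      obtain ⟨l0, r0⟩ := H1_mono hA hB ha1 htm hsm 0 0 (by norm_num)
      obtain ⟨l1, r1⟩ := H1_mono hA hB ha1 htm hum 1 0 (by norm_num)
      obtain ⟨l2, r2⟩ := H1_mono hA hB ha1 hum hum 0 1 (by norm_num)
      constructor <;> linarith
    have k2 : |(t : ℝ) ^ 2 - 4 * (s : ℝ) * u| ≤ 8 * a ^ 5 * (m : ℝ) ^ 2 := by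
      rw [abs_le]
      obtain ⟨l0, r0⟩ := H1_mono hA hB ha1 htm htm 0 0 (by norm_num)
      obtain ⟨l1, r1⟩ := H1_mono hA hB ha1 hsm hum 0 0 (by norm_num)
      constructor <;> linarith
    have hM' : (M : ℝ) = |((F i₁ : ℤ) : ℝ)| := by
      rw [← hi₁]
      push_cast
      rfl
    have hi : i₁ = 0 ∨ i₁ = 1 ∨ i₁ = 2 := by
      fin_cases i₁
      · exact Or.inl rfl
      · exact Or.inr (Or.inl rfl)
      · exact Or.inr (Or.inr rfl)
    rcases hi with h | h | h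
    · rw [hM', h, hF0]
      push_cast
      exact k0
    · rw [hM', h, hF1]
      push_cast
      exact k1
    · rw [hM', h, hF2]
      push_cast
      exact k2
  have hell : ell A B = Real.log a := by
    unfold ell
    rw [← ha]
  have hl2 : Real.log 2 ≤ Real.log a := Real.log_le_log (by norm_num) ha2
  rw [hell]
  have ha0 : (0 : ℝ) < a := by linarith
  have hm0 : (0 : ℝ) < m := by linarith
  have hM0 : (0 : ℝ) < M := by linarith
  have hg0 : (0 : ℝ) < g := by linarith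
  have hDpos : (0 : ℝ) < |(D : ℝ)| := abs_pos.2 (Int.cast_ne_zero.2 hD0)
  have hlogg : 0 ≤ Real.log g := Real.log_nonneg hgR
  have hlogg' : Real.log g ≤ Real.log |(D : ℝ)| := by
    refine Real.log_le_log hg0 ?_
    have : ((g : ℤ) : ℝ) ≤ ((|D| : ℤ) : ℝ) := by exact_mod_cast hgle
    rwa [Int.cast_abs] at this
  have e1 : Real.log |(D : ℝ)| + 2 * Real.log m ≤ Real.log 3000 + 5 * Real.log a + Real.log M := by
    have h := Real.log_le_log (by positivity) hlow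
    rw [Real.log_mul hDpos.ne' (by positivity), Real.log_mul (by positivity) hM0.ne',
      Real.log_mul (by norm_num) (by positivity), Real.log_pow, Real.log_pow] at h
    push_cast at h
    exact h
  have e2 : Real.log M ≤ Real.log 8 + 5 * Real.log a + 2 * Real.log m := by
    have h := Real.log_le_log hM0 hup
    rw [Real.log_mul (by positivity) (by positivity), Real.log_mul (by norm_num) (by positivity), Real.log_pow,
      Real.log_pow] at h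
    push_cast at h
    exact h
  have l8 : Real.log 8 = 3 * Real.log 2 := by
    rw [show (8 : ℝ) = 2 ^ 3 by norm_num, Real.log_pow]
    norm_num
  have l3000 : Real.log 3000 ≤ 12 * Real.log 2 := by
    have h : Real.log 3000 ≤ Real.log (2 ^ 12) := Real.log_le_log (by norm_num) (by norm_num)
    rw [Real.log_pow] at h
    push_cast at h
    exact h
  have hone : Real.log ((1 : ℤ) : ℝ) = 0 := by simp
  rw [hone, sub_zero, abs_le]
  constructor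
  · linarith
  · linarith

end Pool.Agent.LibDP24
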