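import Pool.Agent.LibDP24.H3

/-!
ROW H5 (SHORT/MEDIUM). Heights of integral points (cites H3 as stated; `PB` is a hypothesis, proved in row H6).

PLAN. `nh_int`: `nh (some x y) = logHeight ![x, 1] = logHeight₁ x = log (max |x| 1)` for an integer `x`
(`Rat.logHeight₁_eq_log_max`, `logHeight₁_eq_logHeight`, `xRep` of `some x y` is `![x, 1]`).
`log_x_le_nh`: `|x| = |num| / den ≤ |num|`; `x = 0`: `Real.log 0 = 0 ≤ nh`.
`can_int_upper`: `hh ≤ nh + C₀ ell`, `nh = log (max |x| 1) ≤ max (log (max |x| |y|)) 0 ≤ exp (C₁ ell)` (`PB`; the curve equation over `ℤ` from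
`h.1`, `Affine.equation_iff`), `C₀ ell ≤ exp (C₀ ell)`, sum `≤ 2 exp (max C₀ C₁ * ell) ≤ exp ((max C₀ C₁ + 2) * ell)` (`ell ≥ 1/2`,
`exp 1 ≥ 2`).
-/

set_option autoImplicit false

open WeierstrassCurve Height

namespace Pool.Agent.LibDP24

private theorem H5_eq {A B : ℤ} {x y : ℚ} (h : (E A B).toAffine.Nonsingular x y) :
    nh (Affine.Point.some x y h : Pt A B) = Real.log ((max x.num.natAbs x.den : ℕ) : ℝ) := by
  unfold nh
  rw [Affine.Point.xRep_some, ← logHeight₁_eq_logHeight, Rat.logHeight₁_eq_log_max]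

theorem nh_int {A B : ℤ} {x y : ℤ} (h : (E A B).toAffine.Nonsingular (x : ℚ) (y : ℚ)) :
    nh (Affine.Point.some (x : ℚ) (y : ℚ) h : Pt A B) = Real.log (max |(x : ℝ)| 1) := by
  rw [H5_eq]
  congr 1
  rw [Nat.cast_max, Rat.num_intCast, Rat.den_intCast, Nat.cast_one]
  congr 1
  rw [Nat.cast_natAbs, Int.cast_abs]

theorem log_x_le_nh {A B : ℤ} {x y : ℚ} (h : (E A B).toAffine.Nonsingular x y) :
    Real.log |((x : ℚ) : ℝ)| ≤ nh (Affine.Point.some x y h : Pt A B) := by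
  rw [H5_eq]
  by_cases hx : x = 0
  · rw [hx]
    simp
  · have hxr : (0 : ℝ) < |((x : ℚ) : ℝ)| := by
      rw [abs_pos]
      exact_mod_cast hx
    apply Real.log_le_log hxr
    have h1 : ((x : ℚ) : ℝ) = (x.num : ℝ) / (x.den : ℝ) := by
      have := Rat.num_div_den x
      exact_mod_cast this.symm
    have hd : (1 : ℝ) ≤ (x.den : ℝ) := by exact_mod_cast x.pos
    rw [h1, abs_div, abs_of_pos (by linarith : (0 : ℝ) < (x.den : ℝ))]
    have h2 : |(x.num : ℝ)| / (x.den : ℝ) ≤ |(x.num : ℝ)| := div_le_self (abs_nonneg _) hd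
    refine h2.trans ?_
    have h3 : |(x.num : ℝ)| = ((x.num.natAbs : ℕ) : ℝ) := by
      rw [Nat.cast_natAbs, Int.cast_abs]
    rw [h3]
    exact_mod_cast le_max_left _ _

/-- canonical height of integral points -/
theorem can_int_upper (hPB : PB) (C₀ : ℝ) (hC₀ : 0 ≤ C₀) : ∃ C : ℝ, 0 ≤ C ∧ ∀ A B : ℤ, 4 * A ^ 3 + 27 * B ^ 2 ≠ 0 →
    ∀ hh : Pt A B → ℝ, IsCan C₀ hh → ∀ (x y : ℤ) (h : (E A B).toAffine.Nonsingular (x : ℚ) (y : ℚ)),
      hh (Affine.Point.some (x : ℚ) (y : ℚ) h) ≤ Real.exp (C * ell A B) := by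
  obtain ⟨C₁, hC₁, hb⟩ := hPB
  refine ⟨max C₀ C₁ + 2, by positivity, fun A B hD hh hcan x y h => ?_⟩
  have hl := ell_ge A B
  have hl0 : (0 : ℝ) ≤ ell A B := by linarith
  have heq : y ^ 2 = x ^ 3 + A * x + B := by
    have h1 := h.1
    rw [Affine.equation_iff] at h1
    have h2 : (y : ℚ) ^ 2 = (x : ℚ) ^ 3 + (A : ℚ) * x + B := by
      simpa using h1
    exact_mod_cast h2
  have hlog := hb A B x y hD heq
  have hclose := hcan.close (Affine.Point.some (x : ℚ) (y : ℚ) h)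
  have h1 := (abs_le.1 hclose).2
  rw [nh_int] at h1
  have h2 : Real.log (max |(x : ℝ)| 1) ≤ Real.exp (C₁ * ell A B) := by
    rcases le_or_gt |(x : ℝ)| 1 with hx | hx
    · rw [max_eq_right hx, Real.log_one]
      positivity
    · rw [max_eq_left hx.le]
      refine le_trans ?_ hlog
      exact Real.log_le_log (by linarith) (le_max_left _ _)
  have h3 : C₀ * ell A B ≤ Real.exp (max C₀ C₁ * ell A B) := by
    have h4 : C₀ * ell A B ≤ max C₀ C₁ * ell A B :=
      mul_le_mul_of_nonneg_right (le_max_left _ _) hl0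
    have h5 := Real.add_one_le_exp (max C₀ C₁ * ell A B)
    linarith
  have h6 : Real.exp (C₁ * ell A B) ≤ Real.exp (max C₀ C₁ * ell A B) :=
    Real.exp_le_exp.2 (mul_le_mul_of_nonneg_right (le_max_right _ _) hl0)
  have h7 : (2 : ℝ) ≤ Real.exp (2 * ell A B) := by
    have := Real.add_one_le_exp (2 * ell A B)
    linarith
  have h8 : Real.exp ((max C₀ C₁ + 2) * ell A B) =
      Real.exp (max C₀ C₁ * ell A B) * Real.exp (2 * ell A B) := by
    rw [← Real.exp_add]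
    ring_nf
  rw [h8]
  have h9 : (0 : ℝ) < Real.exp (max C₀ C₁ * ell A B) := Real.exp_pos _
  nlinarith

end Pool.Agent.LibDP24
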