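import Pool.Agent.LibDP24.Defs
import Pool.Agent.LibCF91.TB7
import Pool.Agent.LibST91T.TX3

/-!
MP_a1107e_nt, linearly dependent integral points: the Baker type bound for all integral points, from
`Pool.Agent.LibCF91.conductor_bound`.
-/

set_option autoImplicit false

namespace Pool.Agent.LibDP24

private theorem h6_disc (A B : ℤ) :
    ((4 * A ^ 3 + 27 * B ^ 2).natAbs : ℝ) ≤ 31 * aa A B ^ 3 := by
  have h1 : ((4 * A ^ 3 + 27 * B ^ 2).natAbs : ℝ) = |4 * (A : ℝ) ^ 3 + 27 * (B : ℝ) ^ 2| := by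
    rw [Nat.cast_natAbs]
    push_cast
    rfl
  have ha := abs_nonneg (A : ℝ)
  have hb := abs_nonneg (B : ℝ)
  have h2 : |4 * (A : ℝ) ^ 3 + 27 * (B : ℝ) ^ 2| ≤ 4 * |(A : ℝ)| ^ 3 + 27 * |(B : ℝ)| ^ 2 := by
    refine (abs_add_le _ _).trans ?_
    rw [abs_mul, abs_mul, abs_pow, abs_pow, abs_of_pos (by norm_num : (0 : ℝ) < 4),
      abs_of_pos (by norm_num : (0 : ℝ) < 27)]
  have h3 : |(A : ℝ)| ≤ aa A B := by
    unfold aa
    linarith
  have h4 : |(B : ℝ)| ≤ aa A B := by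
    unfold aa
    linarith
  have h5 : |(A : ℝ)| ^ 3 ≤ aa A B ^ 3 := pow_le_pow_left₀ ha h3 3
  have h6 : |(B : ℝ)| ^ 2 ≤ aa A B ^ 2 := pow_le_pow_left₀ hb h4 2
  have h7 : aa A B ^ 2 ≤ aa A B ^ 3 :=
    pow_le_pow_right₀ (by linarith [aa_ge A B]) (by norm_num)
  rw [h1]
  linarith

private theorem h6_sqrt (A B : ℤ) {N : ℕ} (hΔ : 4 * A ^ 3 + 27 * B ^ 2 ≠ 0)
    (hN : N ∣ 216 * (4 * A ^ 3 + 27 * B ^ 2).natAbs) :
    √(N : ℝ) ≤ 82 * Real.exp (2 * ell A B) := by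
  have hM : 0 < (4 * A ^ 3 + 27 * B ^ 2).natAbs := Int.natAbs_pos.2 hΔ
  have h1 : N ≤ 216 * (4 * A ^ 3 + 27 * B ^ 2).natAbs := Nat.le_of_dvd (by omega) hN
  have h2 : (N : ℝ) ≤ 216 * ((4 * A ^ 3 + 27 * B ^ 2).natAbs : ℝ) := by exact_mod_cast h1
  have h3 := h6_disc A B
  have ha := aa_ge A B
  have h4 : aa A B ^ 3 ≤ aa A B ^ 4 := pow_le_pow_right₀ (by linarith) (by norm_num)
  have h5 : Real.exp (2 * ell A B) = aa A B ^ 2 := by
    rw [← exp_ell, ← Real.exp_nat_mul]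
    norm_num
  rw [h5]
  refine Real.sqrt_le_iff.2 ⟨by positivity, ?_⟩
  have h6 : 0 ≤ aa A B ^ 4 := by positivity
  nlinarith

theorem pb : PB := by
  obtain ⟨C, hC, κ, h⟩ := Pool.Agent.LibCF91.conductor_bound (Pool.Agent.LibST91.main_X 4 9)
  refine ⟨164 * C + 2 + κ, by positivity, fun A B x y hΔ hE => ?_⟩
  have hl := ell_ge A B
  have h1 := (h A B x y hΔ hE).2.1
  have h2 := h6_sqrt A B hΔ (Pool.Agent.LibCF91.number_dvd hΔ hE)
  have h3 : ell A B ≤ Real.exp (ell A B) := by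
    have := Real.add_one_le_exp (ell A B)
    linarith
  have h4 : ell A B ^ κ ≤ Real.exp (κ * ell A B) := by
    rw [Real.exp_nat_mul]
    exact pow_le_pow_left₀ (by linarith) h3 κ
  have h5 : 82 * C ≤ Real.exp (164 * C * ell A B) := by
    have h6 := Real.add_one_le_exp (164 * C * ell A B)
    nlinarith
  have e1 : Real.log (2 + |(A : ℝ)| + |(B : ℝ)|) = ell A B := rfl
  rw [e1] at h1
  have e2 : Real.exp ((164 * C + 2 + κ) * ell A B) =
      Real.exp (164 * C * ell A B) * Real.exp (2 * ell A B) * Real.exp (κ * ell A B) := by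
    rw [← Real.exp_add, ← Real.exp_add]
    congr 1
    ring
  rw [e2]
  refine h1.trans ?_
  have h7 : 0 ≤ ell A B ^ κ := pow_nonneg (by linarith) κ
  refine mul_le_mul ?_ h4 h7 (by positivity)
  calc C * √(_ : ℝ) ≤ C * (82 * Real.exp (2 * ell A B)) := mul_le_mul_of_nonneg_left h2 hC.le
    _ = 82 * C * Real.exp (2 * ell A B) := by ring
    _ ≤ _ := mul_le_mul_of_nonneg_right h5 (Real.exp_pos _).le

end Pool.Agent.LibDP24
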